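import Pool.Agent.Lib.MP_c5e17c_al.MS.Sys1

/-!
# MP_c5e17c_al, project MS: systems attached to one semilattice with operators (without zero)
-/

set_option autoImplicit false

namespace C5E17

namespace MBase

/-- the semilattice `S₀` with a new least and a new greatest element -/
abbrev TT (S₀ : Type) : Type := WithBot (WithTop S₀)

variable {S₀ F₀ : Type}

/-- the inclusion -/
def inj (x : S₀) : TT S₀ := ((x : WithTop S₀) : WithBot (WithTop S₀))

/-- the extension of a map `S₀ → TT S₀` -/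
def ex (φ : S₀ → TT S₀) : TT S₀ → TT S₀
  | none => ⊥
  | some none => ⊤
  | some (some x) => φ x

theorem tt_cases [SemilatticeSup S₀] (s : TT S₀) : s = ⊥ ∨ s = ⊤ ∨ ∃ x : S₀, s = inj x := by
  match s with
  | none => exact Or.inl rfl
  | some none => exact Or.inr (Or.inl rfl)
  | some (some x) => exact Or.inr (Or.inr ⟨x, rfl⟩)

variable [SemilatticeSup S₀]

theorem ex_bot (φ : S₀ → TT S₀) : ex φ ⊥ = ⊥ := rfl

theorem ex_top (φ : S₀ → TT S₀) : ex φ ⊤ = ⊤ := rfl

theorem ex_inj (φ : S₀ → TT S₀) (x : S₀) : ex φ (inj x) = φ x := rfl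

theorem inj_sup (x y : S₀) : (inj x : TT S₀) ⊔ inj y = inj (x ⊔ y) := rfl

theorem inj_le (x y : S₀) : (inj x : TT S₀) ≤ inj y ↔ x ≤ y := by
  unfold inj
  rw [WithBot.coe_le_coe, WithTop.coe_le_coe]

theorem inj_not_le_bot (x : S₀) : ¬ (inj x : TT S₀) ≤ ⊥ := by
  unfold inj
  exact WithBot.not_coe_le_bot _

theorem top_not_le_bot : ¬ (⊤ : TT S₀) ≤ ⊥ := by
  have : (⊤ : TT S₀) = ((⊤ : WithTop S₀) : WithBot (WithTop S₀)) := rfl
  rw [this]
  exact WithBot.not_coe_le_bot _

theorem top_not_le_inj (x : S₀) : ¬ (⊤ : TT S₀) ≤ inj x := by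
  have : (⊤ : TT S₀) = ((⊤ : WithTop S₀) : WithBot (WithTop S₀)) := rfl
  rw [this]
  unfold inj
  rw [WithBot.coe_le_coe]
  exact WithTop.not_top_le_coe x

theorem ex_sup {φ : S₀ → TT S₀} (h : ∀ x y, φ (x ⊔ y) = φ x ⊔ φ y) (s t : TT S₀) :
    ex φ (s ⊔ t) = ex φ s ⊔ ex φ t := by
  rcases tt_cases s with rfl | rfl | ⟨x, rfl⟩
  · rw [ex_bot, bot_sup_eq, bot_sup_eq]
  · rw [ex_top, top_sup_eq, top_sup_eq, ex_top]
  · rcases tt_cases t with rfl | rfl | ⟨y, rfl⟩
    · rw [ex_bot, sup_bot_eq, sup_bot_eq]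
    · rw [ex_top, sup_top_eq, sup_top_eq, ex_top]
    · rw [inj_sup, ex_inj, ex_inj, ex_inj, h]

/-- the operators of the base system -/
inductive BF (S₀ F₀ : Type) : Type
  | f (f : F₀) : BF S₀ F₀
  | c (t : S₀) : BF S₀ F₀
  | lo : BF S₀ F₀
  | hi : BF S₀ F₀

/-- the maps `S₀ → TT S₀` -/
def bφ (act : F₀ → S₀ → S₀) : BF S₀ F₀ → S₀ → TT S₀
  | .f f, x => inj (act f x)
  | .c t, _ => inj t
  | .lo, _ => ⊥
  | .hi, _ => ⊤

theorem bφ_sup {act : F₀ → S₀ → S₀} (hact : ∀ f s t, act f (s ⊔ t) = act f s ⊔ act f t)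
    (f : BF S₀ F₀) (x y : S₀) : bφ act f (x ⊔ y) = bφ act f x ⊔ bφ act f y := by
  cases f with
  | f f =>
    show inj (act f (x ⊔ y)) = inj (act f x) ⊔ inj (act f y)
    rw [hact, inj_sup]
  | c t => exact (sup_idem _).symm
  | lo => exact (sup_idem _).symm
  | hi => exact (sup_idem _).symm

/-- the base system -/
def bSys {act : F₀ → S₀ → S₀} (hact : ∀ f s t, act f (s ⊔ t) = act f s ⊔ act f t) : Sys1 where
  S := TT S₀
  F := BF S₀ F₀
  act f := ex (bφ act f)
  R s t := t ≤ s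
  act_sup f s t := ex_sup (bφ_sup hact f) s t
  act_bot _ := rfl
  act_top _ := rfl
  R_le _ _ h := h
  R_trans _ _ _ h1 h2 := h2.trans h1
  R_sup _ _ _ h1 h2 := sup_le h1 h2
  R_op f s t h := by
    have h1 := ex_sup (bφ_sup hact f) s t
    rw [sup_eq_left.2 h] at h1
    rw [h1]
    exact le_sup_right

/-- the family attached to a closed relation -/
def up (Θ : S₀ → S₀ → Prop) (s t : TT S₀) : Prop :=
  t ≤ s ∨ ∃ x y : S₀, s = inj x ∧ t = inj y ∧ Θ x y

theorem up_inj {act : F₀ → S₀ → S₀} {Θ : S₀ → S₀ → Prop} (hΘ : Closed act Θ) (x y : S₀) :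
    up Θ (inj x) (inj y) ↔ Θ x y := by
  constructor
  · rintro (h | ⟨x', y', h1, h2, h3⟩)
    · exact hΘ.refl _ _ ((inj_le _ _).1 h)
    · cases h1
      cases h2
      exact h3
  · exact fun h => Or.inr ⟨x, y, rfl, rfl, h⟩

theorem up_cl {act : F₀ → S₀ → S₀} (hact : ∀ f s t, act f (s ⊔ t) = act f s ⊔ act f t)
    {Θ : S₀ → S₀ → Prop} (hΘ : Closed act Θ) : (bSys hact).Cl (up Θ) where
  base s t h := Or.inl h
  trans r s t h1 h2 := by
    change up Θ r t
    rcases h1 with h1 | ⟨x, y, rfl, rfl, h1⟩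
    · rcases h2 with h2 | ⟨x, y, rfl, rfl, h2⟩
      · exact Or.inl (h2.trans h1)
      · rcases tt_cases r with rfl | rfl | ⟨z, rfl⟩
        · exact absurd h1 (inj_not_le_bot x)
        · exact Or.inl le_top
        · exact Or.inr ⟨z, y, rfl, rfl, hΘ.trans _ _ _ (hΘ.refl _ _ ((inj_le _ _).1 h1)) h2⟩
    · rcases h2 with h2 | ⟨x', y', h3, rfl, h2⟩
      · rcases tt_cases t with rfl | rfl | ⟨z, rfl⟩
        · exact Or.inl bot_le
        · exact absurd h2 (top_not_le_inj y)
        · exact Or.inr ⟨x, z, rfl, rfl, hΘ.trans _ _ _ h1 (hΘ.refl _ _ ((inj_le _ _).1 h2))⟩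
      · cases h3
        exact Or.inr ⟨x, y', rfl, rfl, hΘ.trans _ _ _ h1 h2⟩
  sup s t t' h1 h2 := by
    change up Θ s (t ⊔ t')
    rcases tt_cases s with rfl | rfl | ⟨x, rfl⟩
    · rcases h1 with h1 | ⟨x, y, h3, -, -⟩
      · rcases h2 with h2 | ⟨x, y, h3, -, -⟩
        · exact Or.inl (sup_le h1 h2)
        · cases h3
      · cases h3
    · exact Or.inl le_top
    · have key : ∀ u : TT S₀, up Θ (inj x) u → u = ⊥ ∨ ∃ y, u = inj y ∧ Θ x y := by
        intro u hu
        rcases tt_cases u with rfl | rfl | ⟨y, rfl⟩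
        · exact Or.inl rfl
        · rcases hu with h | ⟨x', y', -, h, -⟩
          · exact absurd h (top_not_le_inj x)
          · cases h
        · exact Or.inr ⟨y, rfl, (up_inj hΘ x y).1 hu⟩
      rcases key t h1 with rfl | ⟨y, rfl, h1'⟩
      · rw [bot_sup_eq]; exact h2
      · rcases key t' h2 with rfl | ⟨y', rfl, h2'⟩
        · rw [sup_bot_eq]; exact h1
        · exact Or.inr ⟨x, y ⊔ y', rfl, rfl, hΘ.sup _ _ _ h1' h2'⟩
  op f s t h := by
    change up Θ (ex (bφ act f) s) (ex (bφ act f) t)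
    rcases h with h | ⟨x, y, rfl, rfl, h⟩
    · exact Or.inl ((bSys hact).R_op f s t h)
    · cases f with
      | f f => exact Or.inr ⟨act f x, act f y, rfl, rfl, hΘ.op f _ _ h⟩
      | c t => exact Or.inl le_rfl
      | lo => exact Or.inl le_rfl
      | hi => exact Or.inl le_rfl

/-- a semilattice with operators without zero gives a representable ordered set -/
theorem rep1_withBot [Nonempty S₀] {act : F₀ → S₀ → S₀}
    (hact : ∀ f s t, act f (s ⊔ t) = act f s ⊔ act f t) :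
    Rep1 (WithBot ({Θ : S₀ → S₀ → Prop // Closed act Θ}ᵒᵈ)) := by
  have full : (bSys hact).Cl (fun _ _ => True) :=
    ⟨fun _ _ _ => trivial, fun _ _ _ _ _ => trivial, fun _ _ _ _ _ => trivial,
      fun _ _ _ _ => trivial⟩
  let g : WithBot ({Θ : S₀ → S₀ → Prop // Closed act Θ}ᵒᵈ) → (bSys hact).CFᵒᵈ := fun a =>
    a.recBotCoe (OrderDual.toDual ⟨fun _ _ => True, full⟩)
      (fun Θ => OrderDual.toDual ⟨up (OrderDual.ofDual Θ).1,
        up_cl hact (OrderDual.ofDual Θ).2⟩)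
  have hle : ∀ a b, g a ≤ g b ↔ a ≤ b := by
    intro a b
    induction a using WithBot.recBotCoe with
    | bot =>
      simp only [bot_le, iff_true]
      intro s t _
      trivial
    | coe Θ =>
      induction b using WithBot.recBotCoe with
      | bot =>
        constructor
        · intro h
          have h1 : up (OrderDual.ofDual Θ).1 (⊥ : TT S₀) ⊤ := h ⊥ ⊤ trivial
          rcases h1 with h1 | ⟨x, y, h2, -, -⟩
          · exact absurd h1 top_not_le_bot
          · cases h2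
        · intro h
          exact absurd h (WithBot.not_coe_le_bot Θ)
      | coe Θ' =>
        rw [WithBot.coe_le_coe]
        constructor
        · intro h
          show (OrderDual.ofDual Θ').1 ≤ (OrderDual.ofDual Θ).1
          intro x y hxy
          have h1 := h (inj x) (inj y) ((up_inj (OrderDual.ofDual Θ').2 x y).2 hxy)
          exact (up_inj (OrderDual.ofDual Θ).2 x y).1 h1
        · intro h
          have h' : (OrderDual.ofDual Θ').1 ≤ (OrderDual.ofDual Θ).1 := h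
          rintro s t (h1 | ⟨x, y, h1, h2, h3⟩)
          · exact Or.inl h1
          · exact Or.inr ⟨x, y, h1, h2, h' _ _ h3⟩
  have hs : Function.Surjective g := by
    intro Θ
    obtain ⟨Θ, rfl⟩ := OrderDual.toDual.surjective Θ
    obtain ⟨Θ, hΘ⟩ := Θ
    have op : ∀ (f : BF S₀ F₀) (s t : TT S₀), Θ s t → Θ (ex (bφ act f) s)
        (ex (bφ act f) t) := fun f s t h => hΘ.op f s t h
    by_cases h0 : Θ (⊥ : TT S₀) ⊤
    · refine ⟨⊥, ?_⟩
      show OrderDual.toDual _ = OrderDual.toDual _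
      congr 1
      apply Subtype.ext
      funext s t
      refine propext ⟨fun _ => ?_, fun _ => trivial⟩
      have e1 : Θ s (⊥ : TT S₀) := hΘ.base s ⊥ (bot_le : (⊥ : TT S₀) ≤ s)
      have e2 : Θ (⊤ : TT S₀) t := hΘ.base ⊤ t (le_top : t ≤ (⊤ : TT S₀))
      exact hΘ.trans _ _ _ e1 (hΘ.trans _ _ _ h0 e2)
    · have hcl : Closed act (fun x y => Θ (inj x) (inj y)) :=
        ⟨fun x y h => hΘ.base _ _ ((inj_le y x).2 h), fun x y z h1 h2 => hΘ.trans _ _ _ h1 h2,
          fun x y z h1 h2 => hΘ.sup _ _ _ h1 h2, fun f x y h => op (.f f) _ _ h⟩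
      refine ⟨((OrderDual.toDual ⟨_, hcl⟩ :
        {Θ : S₀ → S₀ → Prop // Closed act Θ}ᵒᵈ) : WithBot _), ?_⟩
      show OrderDual.toDual _ = OrderDual.toDual _
      congr 1
      apply Subtype.ext
      funext s t
      refine propext ⟨?_, fun h => ?_⟩
      · rintro (h | ⟨x, y, rfl, rfl, h⟩)
        · exact hΘ.base _ _ h
        · exact h
      · rcases tt_cases s with rfl | rfl | ⟨x, rfl⟩
        · rcases tt_cases t with rfl | rfl | ⟨y, rfl⟩
          · exact Or.inl le_rfl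
          · exact absurd h h0
          · exact absurd (op .hi _ _ h) h0
        · exact Or.inl le_top
        · rcases tt_cases t with rfl | rfl | ⟨y, rfl⟩
          · exact Or.inl bot_le
          · exact absurd (op .lo _ _ h) h0
          · exact Or.inr ⟨x, y, rfl, rfl, h⟩
  exact ⟨bSys hact, ⟨RelIso.ofSurjective (OrderEmbedding.ofMapLEIff g hle) hs⟩⟩

theorem repMS_withBot [Nonempty S₀] {act : F₀ → S₀ → S₀}
    (hact : ∀ f s t, act f (s ⊔ t) = act f s ⊔ act f t) :
    RepMS (WithBot ({Θ : S₀ → S₀ → Prop // Closed act Θ}ᵒᵈ)) := (rep1_withBot hact).repMS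

end MBase

end C5E17
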