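import Mathlib

/-!
# MP_c5e17c_al, project MS: cuts, linked products and the class of lattices they generate

`Cut A B w`: the pairs `(x, y)` such that `x` or `y` is the least element or `w ≤ x`.
`LProd M z`: the families `x` such that `x p` is the least element or `z p q ≤ x q`, for `p < q`.
`GC`: the iterated cuts.
`GG`: the linked products of iterated cuts.
-/

set_option autoImplicit false

namespace C5E17

/-- the cut of `A × B` at `w` -/
def Cut (A B : Type) [LE A] [LE B] (w : A) : Type :=
  {x : A × B // IsBot x.1 ∨ IsBot x.2 ∨ w ≤ x.1}

instance (A B : Type) [PartialOrder A] [PartialOrder B] (w : A) : PartialOrder (Cut A B w) :=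
  inferInstanceAs (PartialOrder {x : A × B // IsBot x.1 ∨ IsBot x.2 ∨ w ≤ x.1})

/-- the linked product of the ordered sets `M p` with thresholds `z p q`: the elements `x` of the
product such that for all `p < q` either `x p` is the least element or `z p q ≤ x q` -/
def LProd {P : Type} [PartialOrder P] (M : P → Type) [∀ p, LE (M p)] (z : ∀ _p q : P, M q) :
    Type :=
  {x : ∀ p, M p // ∀ p q, p < q → IsBot (x p) ∨ z p q ≤ x q}

instance {P : Type} [PartialOrder P] (M : P → Type) [∀ p, PartialOrder (M p)]
    (z : ∀ _p q : P, M q) : PartialOrder (LProd M z) :=
  inferInstanceAs (PartialOrder {x : ∀ p, M p // ∀ p q, p < q → IsBot (x p) ∨ z p q ≤ x q})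

/-- iterated cuts: the least class of ordered sets which contains the finite lattices with exactly
one atom, and is closed under isomorphism and under the cuts `Cut A B w` where `A` is a finite
lattice with exactly one atom and `w` is not the least element of `A` -/
inductive GC : (α : Type) → PartialOrder α → Prop
  | one (α : Type) [i : Lattice α] [BoundedOrder α] [Finite α] (h : ∃! a : α, IsAtom a) :
      GC α i.toPartialOrder
  | cut (α β : Type) [Lattice α] [BoundedOrder α] [Finite α] (h : ∃! a : α, IsAtom a)
      (w : α) (hw : w ≠ ⊥) (i : PartialOrder β) (hβ : GC β i) : GC (Cut α β w) inferInstance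
  | iso (α β : Type) (i : PartialOrder α) (j : PartialOrder β) (e : α ≃o β) (h : GC α i) :
      GC β j

/-- the least class of ordered sets which contains the iterated cuts and is closed under
isomorphism and under linked products over finite ordered sets -/
inductive GG : (α : Type) → PartialOrder α → Prop
  | gc (α : Type) (i : PartialOrder α) (h : GC α i) : GG α i
  | lprod (P : Type) [Finite P] [PartialOrder P] (M : P → Type) (i : ∀ p, PartialOrder (M p))
      (z : ∀ _p q : P, M q) (h : ∀ p, GG (M p) (i p)) : GG (LProd M z) inferInstance
  | iso (α β : Type) (i : PartialOrder α) (j : PartialOrder β) (e : α ≃o β) (h : GG α i) :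
      GG β j

end C5E17
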