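import Pool.Agent.Lib.MP_c5e17c_al.MS.Model
import Pool.Agent.Lib.MP_c5e17c_al.MS.CDefs

/-!
# MP_c5e17c_al, project MS: poset sums
-/

set_option autoImplicit false
set_option linter.unusedSectionVars false

namespace C5E17

namespace MSum

variable {P : Type} [Fintype P] [PartialOrder P] (Y : P → Sys) (ζ : ∀ _p q : P, (Y q).CF)

/-- the linking operators -/
structure Link where
  q : (p : P) × (Y p).ι
  p : (p : P) × (Y p).ι
  lt : p.1 < q.1
  J : Set (Y q.1).S
  bot : ⊥ ∈ J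
  top : ⊤ ∉ J
  sup : ∀ s ∈ J, ∀ t ∈ J, s ⊔ t ∈ J
  cl : ∀ s ∈ J, ∀ t, (ζ p.1 q.1).1 q.2 s t → t ∈ J

open Classical in
/-- the action of the operators -/
noncomputable def sact : ((p : P) × (Y p).F) ⊕ Link Y ζ → (∀ p, (Y p).S) → ∀ p, (Y p).S
  | .inl ⟨p, f⟩, s => Function.update s p ((Y p).act f (s p))
  | .inr l, s => Function.update s l.p.1 (if s l.q.1 ∈ l.J then ⊥ else ⊤)

/-- the source -/
def ssrc : ((p : P) × (Y p).F) ⊕ Link Y ζ → (p : P) × (Y p).ι
  | .inl ⟨p, f⟩ => ⟨p, (Y p).src f⟩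
  | .inr l => l.p

/-- the target -/
def stgt : ((p : P) × (Y p).F) ⊕ Link Y ζ → (p : P) × (Y p).ι
  | .inl ⟨p, f⟩ => ⟨p, (Y p).tgt f⟩
  | .inr l => l.q

theorem link_R {Y : P → Sys} {ζ : ∀ _p q : P, (Y q).CF} (l : Link Y ζ) {s t : (Y l.q.1).S}
    (h : (Y l.q.1).R l.q.2 s t) (hs : s ∈ l.J) : t ∈ l.J :=
  l.cl s hs t ((ζ l.p.1 l.q.1).2.base _ _ _ h)

theorem link_down {Y : P → Sys} {ζ : ∀ _p q : P, (Y q).CF} (l : Link Y ζ) {s t : (Y l.q.1).S}
    (h : t ≤ s) (hs : s ∈ l.J) : t ∈ l.J := link_R l ((Y l.q.1).R_le _ _ _ h) hs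

open Classical in
theorem link_sup {Y : P → Sys} {ζ : ∀ _p q : P, (Y q).CF} (l : Link Y ζ) (s t : (Y l.q.1).S) :
    (if s ⊔ t ∈ l.J then (⊥ : (Y l.p.1).S) else ⊤) =
      (if s ∈ l.J then ⊥ else ⊤) ⊔ (if t ∈ l.J then ⊥ else ⊤) := by
  by_cases hs : s ∈ l.J
  · by_cases ht : t ∈ l.J
    · rw [if_pos hs, if_pos ht, if_pos (l.sup s hs t ht), bot_sup_eq]
    · rw [if_neg ht, if_neg fun h => ht (link_down l le_sup_right h), sup_top_eq]
  · rw [if_neg hs, if_neg fun h => hs (link_down l le_sup_left h), top_sup_eq]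

theorem update_sup {Y : P → Sys} [DecidableEq P] (s t : ∀ p, (Y p).S) (p : P)
    (a b : (Y p).S) : Function.update (s ⊔ t) p (a ⊔ b) =
      Function.update s p a ⊔ Function.update t p b := by
  funext q
  by_cases hq : q = p
  · subst hq
    simp
  · simp [hq]

theorem update_bot' {Y : P → Sys} [DecidableEq P] (p : P) :
    Function.update (⊥ : ∀ p, (Y p).S) p ⊥ = ⊥ := by
  funext q
  by_cases hq : q = p
  · subst hq
    simp
  · simp [hq]

theorem update_top' {Y : P → Sys} [DecidableEq P] (p : P) :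
    Function.update (⊤ : ∀ p, (Y p).S) p ⊤ = ⊤ := by
  funext q
  by_cases hq : q = p
  · subst hq
    simp
  · simp [hq]

open Classical in
/-- the sum of the systems -/
noncomputable def sSys : Sys where
  ι := (p : P) × (Y p).ι
  S := ∀ p, (Y p).S
  F := ((p : P) × (Y p).F) ⊕ Link Y ζ
  dec := Classical.decEq _
  src := ssrc Y ζ
  tgt := stgt Y ζ
  act := sact Y ζ
  R i s t := (Y i.1).R i.2 (s i.1) (t i.1)
  act_sup f s t := by
    rcases f with ⟨p, f⟩ | l
    · show Function.update (s ⊔ t) p ((Y p).act f (s p ⊔ t p)) = _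
      rw [(Y p).act_sup, update_sup]
      rfl
    · show Function.update (s ⊔ t) l.p.1 (if s l.q.1 ⊔ t l.q.1 ∈ l.J then ⊥ else ⊤) = _
      rw [link_sup, update_sup]
      rfl
  act_bot f := by
    rcases f with ⟨p, f⟩ | l
    · show Function.update (⊥ : ∀ p, (Y p).S) p ((Y p).act f ⊥) = _
      rw [(Y p).act_bot, update_bot']
    · show Function.update (⊥ : ∀ p, (Y p).S) l.p.1
        (if (⊥ : (Y l.q.1).S) ∈ l.J then ⊥ else ⊤) = _
      rw [if_pos l.bot, update_bot']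
  act_top f := by
    rcases f with ⟨p, f⟩ | l
    · show Function.update (⊤ : ∀ p, (Y p).S) p ((Y p).act f ⊤) = _
      rw [(Y p).act_top, update_top']
    · show Function.update (⊤ : ∀ p, (Y p).S) l.p.1
        (if (⊤ : (Y l.q.1).S) ∈ l.J then ⊥ else ⊤) = _
      rw [if_neg l.top, update_top']
  R_le i s t h := by
    have h' : ∀ p, t p ≤ s p := h
    exact (Y i.1).R_le _ _ _ (h' i.1)
  R_trans i r s t h1 h2 := (Y i.1).R_trans _ _ _ _ h1 h2
  R_sup i s t t' h1 h2 := (Y i.1).R_sup _ _ _ _ h1 h2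
  R_op f s t h := by
    rcases f with ⟨p, f⟩ | l
    · have h' : (Y p).R ((Y p).tgt f) (s p) (t p) := h
      show (Y p).R ((Y p).src f) (Function.update s p ((Y p).act f (s p)) p)
        (Function.update t p ((Y p).act f (t p)) p)
      rw [Function.update_self, Function.update_self]
      exact (Y p).R_op f _ _ h'
    · have h' : (Y l.q.1).R l.q.2 (s l.q.1) (t l.q.1) := h
      show (Y l.p.1).R l.p.2
        (Function.update s l.p.1 (if s l.q.1 ∈ l.J then ⊥ else ⊤) l.p.1)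
        (Function.update t l.p.1 (if t l.q.1 ∈ l.J then ⊥ else ⊤) l.p.1)
      rw [Function.update_self, Function.update_self]
      by_cases hs : s l.q.1 ∈ l.J
      · rw [if_pos hs, if_pos (link_R l h' hs)]
        exact (Y l.p.1).R_le _ _ _ le_rfl
      · rw [if_neg hs]
        exact (Y l.p.1).R_le _ _ _ le_top

/-- the least closed family -/
def least (Z : Sys) : Z.CF := ⟨Z.R, ⟨fun _ _ _ h => h, Z.R_trans, Z.R_sup, Z.R_op⟩⟩

theorem isBot_least (Z : Sys) : IsBot (least Z) := fun Θ => Θ.2.base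

/-- the full family -/
def full (Z : Sys) : Z.CF :=
  ⟨fun _ _ _ => True, ⟨fun _ _ _ _ => trivial, fun _ _ _ _ _ _ => trivial,
    fun _ _ _ _ _ _ => trivial, fun _ _ _ _ => trivial⟩⟩

theorem isTop_full (Z : Sys) : IsTop (full Z) := fun _ _ _ _ _ => trivial

theorem isTop_iff {Z : Sys} (Θ : Z.CF) : IsTop Θ ↔ ∀ i, Θ.1 i ⊥ ⊤ := by
  constructor
  · intro h i
    exact h (full Z) i ⊥ ⊤ trivial
  · intro h Ψ i s t _
    exact Θ.2.trans _ _ _ _ (Θ.2.base _ _ _ (Z.R_le _ _ _ bot_le))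
      (Θ.2.trans _ _ _ _ (h i) (Θ.2.base _ _ _ (Z.R_le _ _ _ le_top)))

theorem isBot_iff {Z : Sys} (Θ : Z.CF) : IsBot Θ ↔ ∀ i s t, Θ.1 i s t → Z.R i s t := by
  constructor
  · intro h
    exact h (least Z)
  · intro h Ψ i s t hst
    exact Ψ.2.base _ _ _ (h i s t hst)

/-- the family of the sum attached to families of the summands -/
def glue (x : ∀ p, (Y p).CF) (i : (p : P) × (Y p).ι) (s t : ∀ p, (Y p).S) : Prop :=
  (x i.1).1 i.2 (s i.1) (t i.1)

theorem glue_cl (x : ∀ p, (Y p).CF) (hx : ∀ p q, p < q → IsTop (x p) ∨ x q ≤ ζ p q) :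
    (sSys Y ζ).Cl (glue Y x) where
  base i s t h := (x i.1).2.base _ _ _ h
  trans i r s t h1 h2 := (x i.1).2.trans _ _ _ _ h1 h2
  sup i s t t' h1 h2 := (x i.1).2.sup _ _ _ _ h1 h2
  op f s t h := by
    classical
    rcases f with ⟨p, f⟩ | l
    · have h' : (x p).1 ((Y p).tgt f) (s p) (t p) := h
      show (x p).1 ((Y p).src f) (sact Y ζ (.inl ⟨p, f⟩) s p) (sact Y ζ (.inl ⟨p, f⟩) t p)
      have e : ∀ s, sact Y ζ (.inl ⟨p, f⟩) s p = (Y p).act f (s p) := fun s => by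
        simp [sact]
      rw [e, e]
      exact (x p).2.op f _ _ h'
    · have h' : (x l.q.1).1 l.q.2 (s l.q.1) (t l.q.1) := h
      show (x l.p.1).1 l.p.2 (sact Y ζ (.inr l) s l.p.1) (sact Y ζ (.inr l) t l.p.1)
      have e : ∀ s, sact Y ζ (.inr l) s l.p.1 = if s l.q.1 ∈ l.J then ⊥ else ⊤ := fun s => by
        simp [sact]
      rw [e, e]
      rcases hx _ _ l.lt with h1 | h1
      · exact h1 (full _) _ _ _ trivial
      · have h2 := h1 _ _ _ h'
        by_cases hs : s l.q.1 ∈ l.J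
        · rw [if_pos hs, if_pos (l.cl _ hs _ h2)]
          exact (x l.p.1).2.base _ _ _ ((Y l.p.1).R_le _ _ _ le_rfl)
        · rw [if_neg hs]
          exact (x l.p.1).2.base _ _ _ ((Y l.p.1).R_le _ _ _ le_top)

open Classical in
/-- the embedding of a summand -/
noncomputable def em (p : P) (a : (Y p).S) : ∀ p, (Y p).S := Function.update ⊥ p a

theorem em_self (p : P) (a : (Y p).S) : em Y p a p = a := by simp [em]

/-- the family of a summand -/
noncomputable def res (Θ : (sSys Y ζ).CF) (p : P) (i : (Y p).ι) (a b : (Y p).S) : Prop :=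
  Θ.1 ⟨p, i⟩ (em Y p a) (em Y p b)

theorem res_eq (Θ : (sSys Y ζ).CF) (p : P) (i : (Y p).ι) (s t : ∀ p, (Y p).S) :
    Θ.1 ⟨p, i⟩ s t ↔ res Y ζ Θ p i (s p) (t p) := by
  have h1 : ∀ s t : ∀ p, (Y p).S, s p = t p → Θ.1 ⟨p, i⟩ s t := by
    intro s t h
    refine Θ.2.base _ _ _ ?_
    show (Y p).R i (s p) (t p)
    rw [h]
    exact (Y p).R_le _ _ _ le_rfl
  constructor
  · intro h
    exact Θ.2.trans _ _ _ _ (h1 _ s (em_self Y p _))
      (Θ.2.trans _ _ _ _ h (h1 t _ (em_self Y p _).symm))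
  · intro h
    exact Θ.2.trans _ _ _ _ (h1 s _ (em_self Y p _).symm)
      (Θ.2.trans _ _ _ _ h (h1 _ t (em_self Y p _)))

theorem res_cl (Θ : (sSys Y ζ).CF) (p : P) : (Y p).Cl (res Y ζ Θ p) where
  base i s t h := (res_eq Y ζ Θ p i _ _).1 (by
    refine Θ.2.base ⟨p, i⟩ (em Y p s) (em Y p t) ?_
    show (Y p).R i (em Y p s p) (em Y p t p)
    rw [em_self, em_self]
    exact h) |> fun h => by rwa [em_self, em_self] at h
  trans i r s t h1 h2 := Θ.2.trans _ _ _ _ h1 h2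
  sup i s t t' h1 h2 := by
    have h3 := Θ.2.sup _ _ _ _ h1 h2
    rw [res_eq] at h3
    have h4 : res Y ζ Θ p i (em Y p s p) (em Y p t p ⊔ em Y p t' p) := h3
    rw [em_self, em_self, em_self] at h4
    exact h4
  op f s t h := by
    have h3 := Θ.2.op (.inl ⟨p, f⟩) _ _ h
    have h4 : Θ.1 ⟨p, (Y p).src f⟩ (sact Y ζ (.inl ⟨p, f⟩) (em Y p s))
      (sact Y ζ (.inl ⟨p, f⟩) (em Y p t)) := h3
    rw [res_eq] at h4
    have e : ∀ s, sact Y ζ (.inl ⟨p, f⟩) (em Y p s) p = (Y p).act f s := fun s => by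
      simp [sact, em_self]
    rw [e, e] at h4
    exact h4

/-- the family of a summand, as a closed family -/
noncomputable def resF (Θ : (sSys Y ζ).CF) (p : P) : (Y p).CF := ⟨res Y ζ Θ p, res_cl Y ζ Θ p⟩

theorem res_cond (Θ : (sSys Y ζ).CF) (p q : P) (hpq : p < q) :
    IsTop (resF Y ζ Θ p) ∨ resF Y ζ Θ q ≤ ζ p q := by
  classical
  by_contra hcon
  push Not at hcon
  obtain ⟨h1, h2⟩ := hcon
  apply h1
  rw [isTop_iff]
  intro j
  have h2' : ∃ i a b, res Y ζ Θ q i a b ∧ ¬ (ζ p q).1 i a b := by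
    by_contra hcon
    push Not at hcon
    exact h2 fun i a b hab => hcon i a b hab
  obtain ⟨i, a, b, hab, hR⟩ := h2'
  let l : Link Y ζ :=
    { q := ⟨q, i⟩
      p := ⟨p, j⟩
      lt := hpq
      J := {c | (ζ p q).1 i a c}
      bot := (ζ p q).2.base _ _ _ ((Y q).R_le _ _ _ bot_le)
      top := fun h => hR ((ζ p q).2.trans _ _ _ _ h
        ((ζ p q).2.base _ _ _ ((Y q).R_le _ _ _ le_top)))
      sup := fun s hs t ht => (ζ p q).2.sup _ _ _ _ hs ht
      cl := fun s hs t ht => (ζ p q).2.trans _ _ _ _ hs ht }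
  have h3 := Θ.2.op (.inr l) _ _ (show Θ.1 ⟨q, i⟩ (em Y q a) (em Y q b) from hab)
  have h4 : Θ.1 ⟨p, j⟩ (sact Y ζ (.inr l) (em Y q a)) (sact Y ζ (.inr l) (em Y q b)) := h3
  rw [res_eq] at h4
  have e : ∀ s : (Y q).S, sact Y ζ (.inr l) (em Y q s) p = if s ∈ l.J then ⊥ else ⊤ := by
    intro s
    have e1 : sact Y ζ (.inr l) (em Y q s) p = if em Y q s q ∈ l.J then ⊥ else ⊤ := by
      show Function.update (em Y q s) p _ p = _
      rw [Function.update_self]
    rw [e1, em_self]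
  rw [e, e, if_pos (show a ∈ l.J from (ζ p q).2.base _ _ _ ((Y q).R_le _ _ _ le_rfl)),
    if_neg (show b ∉ l.J from hR)] at h4
  exact h4

end MSum

open MSum in
/-- representable ordered sets are closed under linked products -/
theorem repMS_lProd {P : Type} [Fintype P] [PartialOrder P] (M : P → Type)
    [∀ p, PartialOrder (M p)] (z : ∀ _p q : P, M q) (h : ∀ p, RepMS (M p)) :
    RepMS (LProd M z) := by
  choose Y hY using h
  have e : ∀ p, M p ≃o (Y p).CFᵒᵈ := fun p => (hY p).some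
  let ζ : ∀ _p q : P, (Y q).CF := fun p q => OrderDual.ofDual (e q (z p q))
  have ebot : ∀ p (a : M p), IsBot a ↔ IsTop (OrderDual.ofDual (e p a)) := by
    intro p a
    constructor
    · intro h Θ
      have h1 := h ((e p).symm (OrderDual.toDual Θ))
      rw [OrderIso.le_symm_apply] at h1
      exact h1
    · intro h b
      have h1 := h (OrderDual.ofDual (e p b))
      exact (e p).le_iff_le.1 h1
  have ez : ∀ p q (a : M q), z p q ≤ a ↔ OrderDual.ofDual (e q a) ≤ ζ p q := by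
    intro p q a
    rw [← (e q).le_iff_le]
    exact Iff.rfl
  let g : LProd M z → (sSys Y ζ).CFᵒᵈ := fun x => OrderDual.toDual
    ⟨glue Y (fun p => OrderDual.ofDual (e p (x.1 p))), glue_cl Y ζ _ fun p q hpq => by
      rw [← ebot, ← ez]
      exact x.2 p q hpq⟩
  have hle : ∀ x y : LProd M z, g x ≤ g y ↔ x ≤ y := by
    intro x y
    constructor
    · intro h p
      rw [← (e p).le_iff_le]
      intro i a b hab
      have h1 := h ⟨p, i⟩ (em Y p a) (em Y p b) (by
        show (OrderDual.ofDual (e p (y.1 p))).1 i (em Y p a p) (em Y p b p)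
        rw [em_self, em_self]
        exact hab)
      have h2 : (OrderDual.ofDual (e p (x.1 p))).1 i (em Y p a p) (em Y p b p) := h1
      rw [em_self, em_self] at h2
      exact h2
    · intro h i s t hst
      have h1 : (e i.1 (x.1 i.1)) ≤ e i.1 (y.1 i.1) := (e i.1).le_iff_le.2 (h i.1)
      exact h1 i.2 _ _ hst
  have hs : Function.Surjective g := by
    intro Θ
    obtain ⟨Θ, rfl⟩ := OrderDual.toDual.surjective Θ
    refine ⟨⟨fun p => (e p).symm (OrderDual.toDual (resF Y ζ Θ p)), fun p q hpq => ?_⟩, ?_⟩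
    · rw [ebot, ez, OrderIso.apply_symm_apply, OrderIso.apply_symm_apply]
      exact res_cond Y ζ Θ p q hpq
    · show OrderDual.toDual _ = OrderDual.toDual _
      congr 1
      apply Subtype.ext
      funext i s t
      apply propext
      show (OrderDual.ofDual (e i.1 ((e i.1).symm (OrderDual.toDual
        (resF Y ζ Θ i.1))))).1 i.2 (s i.1) (t i.1) ↔ _
      rw [OrderIso.apply_symm_apply]
      exact (res_eq Y ζ Θ i.1 i.2 s t).symm
  exact ⟨sSys Y ζ, ⟨RelIso.ofSurjective (OrderEmbedding.ofMapLEIff g hle) hs⟩⟩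

end C5E17
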