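import Pool.Agent.Lib.MP_c5e17c_al.MS.Cut
import Pool.Agent.Lib.MP_c5e17c_al.MS.PSum
import Pool.Agent.Lib.MP_c5e17c_al.OA.Final

/-!
# MP_c5e17c_al, project MS: the class of lattices obtained by cuts and linked products
-/

set_option autoImplicit false
set_option linter.unusedSectionVars false

namespace C5E17

/-- join-semidistributivity, for ordered sets -/
def SDj (α : Type) [PartialOrder α] : Prop :=
  ∀ x y z s i t : α, IsLUB {x, y} s → IsLUB {x, z} s → IsGLB {y, z} i → IsLUB {x, i} t → t = s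

theorem sdj_iff {α : Type} [Lattice α] :
    SDj α ↔ ∀ x y z : α, x ⊔ y = x ⊔ z → x ⊔ (y ⊓ z) = x ⊔ y := by
  constructor
  · intro h x y z hxy
    exact h x y z (x ⊔ y) (y ⊓ z) _ isLUB_pair (hxy ▸ isLUB_pair) isGLB_pair isLUB_pair
  · intro h x y z s i t h1 h2 h3 h4
    have e1 := h1.unique isLUB_pair
    have e2 := h2.unique isLUB_pair
    have e3 := h3.unique isGLB_pair
    have e4 := h4.unique isLUB_pair
    rw [e4, e3, e1]
    exact h x y z (e1.symm.trans e2)

/-- transport of join-semidistributivity along an embedding which preserves the bounds of pairs -/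
theorem SDj.of_embedding {α β : Type} [PartialOrder α] [PartialOrder β] (f : α → β)
    (hf : Function.Injective f) (hs : ∀ x y s, IsLUB {x, y} s → IsLUB {f x, f y} (f s))
    (hi : ∀ x y s, IsGLB {x, y} s → IsGLB {f x, f y} (f s)) (h : SDj β) : SDj α :=
  fun x y z s i t h1 h2 h3 h4 => hf (h (f x) (f y) (f z) (f s) (f i) (f t) (hs _ _ _ h1)
    (hs _ _ _ h2) (hi _ _ _ h3) (hs _ _ _ h4))

theorem SDj.congr {α β : Type} [PartialOrder α] [PartialOrder β] (e : α ≃o β) (h : SDj β) :
    SDj α := by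
  refine SDj.of_embedding e e.injective ?_ ?_ h
  · intro x y s hs
    have := e.isLUB_image'.2 hs
    rwa [Set.image_pair] at this
  · intro x y s hs
    have := e.isGLB_image'.2 hs
    rwa [Set.image_pair] at this

/-- there are a least and a greatest element -/
def Bdd (α : Type) [PartialOrder α] : Prop := (∃ b : α, IsBot b) ∧ ∃ t : α, IsTop t

/-! ### bounds and join-semidistributivity of the factors -/

theorem bdd_cut {α β : Type} [PartialOrder α] [PartialOrder β] (ha : Bdd α) (hb : Bdd β)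
    (w : α) : Bdd (Cut α β w) := by
  obtain ⟨⟨a, ha⟩, ⟨a', ha'⟩⟩ := ha
  obtain ⟨⟨b, hb⟩, ⟨b', hb'⟩⟩ := hb
  refine ⟨⟨⟨(a, b), Or.inl ha⟩, fun x => ⟨ha _, hb _⟩⟩,
    ⟨⟨(a', b'), Or.inr (Or.inr (ha' w))⟩, fun x => ⟨ha' _, hb' _⟩⟩⟩

theorem bdd_lProd {P : Type} [PartialOrder P] {M : P → Type} [∀ p, PartialOrder (M p)]
    (z : ∀ _p q : P, M q) (h : ∀ p, Bdd (M p)) : Bdd (LProd M z) := by
  choose hb ht using h
  choose b hb using hb
  choose t ht using ht
  exact ⟨⟨⟨b, fun p q _ => Or.inl (hb p)⟩, fun x p => hb p (x.1 p)⟩,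
    ⟨⟨t, fun p q _ => Or.inr (ht q _)⟩, fun x p => ht p (x.1 p)⟩⟩

theorem Bdd.congr {α β : Type} [PartialOrder α] [PartialOrder β] (e : α ≃o β) (h : Bdd α) :
    Bdd β := by
  obtain ⟨⟨b, hb⟩, ⟨t, ht⟩⟩ := h
  refine ⟨⟨e b, fun x => ?_⟩, ⟨e t, fun x => ?_⟩⟩
  · have := e.monotone (hb (e.symm x))
    rwa [OrderIso.apply_symm_apply] at this
  · have := e.monotone (ht (e.symm x))
    rwa [OrderIso.apply_symm_apply] at this

theorem bdd_of_bounded (α : Type) [Lattice α] [BoundedOrder α] : Bdd α :=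
  ⟨⟨⊥, isBot_bot⟩, ⟨⊤, isTop_top⟩⟩

theorem sdj_cut_left {α β : Type} [PartialOrder α] [PartialOrder β] {w : α} (hb : Bdd β)
    (h : SDj (Cut α β w)) : SDj α := by
  obtain ⟨⟨b, hb⟩, -⟩ := hb
  let f : α → Cut α β w := fun x => ⟨(x, b), Or.inr (Or.inl hb)⟩
  have hle : ∀ x y, x ≤ y → f x ≤ f y := fun x y h => ⟨h, le_rfl⟩
  refine SDj.of_embedding f ?_ ?_ ?_ h
  · intro x y hxy
    exact congrArg (fun z : Cut α β w => z.1.1) hxy
  · intro x y s hs
    refine ⟨?_, fun u hu => ?_⟩
    · rintro _ (rfl | rfl)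
      · exact hle _ _ (hs.1 (Or.inl rfl))
      · exact hle _ _ (hs.1 (Or.inr rfl))
    · refine ⟨hs.2 ?_, hb _⟩
      rintro _ (rfl | rfl)
      · exact (hu (Or.inl rfl)).1
      · exact (hu (Or.inr rfl)).1
  · intro x y s hs
    refine ⟨?_, fun u hu => ?_⟩
    · rintro _ (rfl | rfl)
      · exact hle _ _ (hs.1 (Or.inl rfl))
      · exact hle _ _ (hs.1 (Or.inr rfl))
    · refine ⟨hs.2 ?_, (hu (Or.inl rfl)).2⟩
      rintro _ (rfl | rfl)
      · exact (hu (Or.inl rfl)).1
      · exact (hu (Or.inr rfl)).1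

theorem sdj_cut_right {α β : Type} [PartialOrder α] [PartialOrder β] {w : α} (ha : Bdd α)
    (h : SDj (Cut α β w)) : SDj β := by
  obtain ⟨⟨a, ha⟩, -⟩ := ha
  let f : β → Cut α β w := fun y => ⟨(a, y), Or.inl ha⟩
  have hle : ∀ x y, x ≤ y → f x ≤ f y := fun x y h => ⟨le_rfl, h⟩
  refine SDj.of_embedding f ?_ ?_ ?_ h
  · intro x y hxy
    exact congrArg (fun z : Cut α β w => z.1.2) hxy
  · intro x y s hs
    refine ⟨?_, fun u hu => ?_⟩
    · rintro _ (rfl | rfl)
      · exact hle _ _ (hs.1 (Or.inl rfl))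
      · exact hle _ _ (hs.1 (Or.inr rfl))
    · refine ⟨ha _, hs.2 ?_⟩
      rintro _ (rfl | rfl)
      · exact (hu (Or.inl rfl)).2
      · exact (hu (Or.inr rfl)).2
  · intro x y s hs
    refine ⟨?_, fun u hu => ?_⟩
    · rintro _ (rfl | rfl)
      · exact hle _ _ (hs.1 (Or.inl rfl))
      · exact hle _ _ (hs.1 (Or.inr rfl))
    · refine ⟨(hu (Or.inl rfl)).1, hs.2 ?_⟩
      rintro _ (rfl | rfl)
      · exact (hu (Or.inl rfl)).2
      · exact (hu (Or.inr rfl)).2

theorem sdj_lProd {P : Type} [PartialOrder P] {M : P → Type} [∀ p, PartialOrder (M p)]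
    {z : ∀ _p q : P, M q} (hB : ∀ p, Bdd (M p)) (h : SDj (LProd M z)) (p : P) : SDj (M p) := by
  classical
  choose hb ht using hB
  choose b hb using hb
  choose t ht using ht
  let g : M p → ∀ q, M q := fun x => Function.update (fun q => if p < q then t q else b q) p x
  have gp : ∀ x, g x p = x := fun x => Function.update_self _ _ _
  have gq : ∀ x q, q ≠ p → p < q → g x q = t q := by
    intro x q hq hpq
    show Function.update _ p x q = _
    rw [Function.update_of_ne hq, if_pos hpq]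
  have gr : ∀ x q, q ≠ p → ¬ p < q → g x q = b q := by
    intro x q hq hpq
    show Function.update _ p x q = _
    rw [Function.update_of_ne hq, if_neg hpq]
  let f : M p → LProd M z := fun x => ⟨g x, fun q r hqr => by
    by_cases hr : r = p
    · subst hr
      left
      rw [gr x q (ne_of_lt hqr) (not_lt_of_gt hqr)]
      exact hb q
    · by_cases hpr : p < r
      · right
        rw [gq x r hr hpr]
        exact ht r _
      · left
        have hq : q ≠ p := by
          rintro rfl
          exact hpr hqr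
        rw [gr x q hq fun h => hpr (h.trans hqr)]
        exact hb q⟩
  have hle : ∀ x y, x ≤ y → f x ≤ f y := by
    intro x y hxy q
    show g x q ≤ g y q
    by_cases hq : q = p
    · subst hq
      rw [gp, gp]
      exact hxy
    · by_cases hpq : p < q
      · rw [gq x q hq hpq, gq y q hq hpq]
      · rw [gr x q hq hpq, gr y q hq hpq]
  refine SDj.of_embedding f ?_ ?_ ?_ h
  · intro x y hxy
    have h1 : g x = g y := congrArg Subtype.val hxy
    rw [← gp x, h1, gp]
  · intro x y s hs
    refine ⟨?_, fun u hu q => ?_⟩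
    · rintro _ (rfl | rfl)
      · exact hle _ _ (hs.1 (Or.inl rfl))
      · exact hle _ _ (hs.1 (Or.inr rfl))
    · show g s q ≤ u.1 q
      have hx : g x q ≤ u.1 q := hu (Or.inl rfl) q
      have hy : g y q ≤ u.1 q := hu (Or.inr rfl) q
      by_cases hq : q = p
      · subst hq
        rw [gp] at hx hy ⊢
        refine hs.2 ?_
        rintro _ (rfl | rfl)
        · exact hx
        · exact hy
      · by_cases hpq : p < q
        · rw [gq x q hq hpq] at hx
          rw [gq s q hq hpq]
          exact hx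
        · rw [gr s q hq hpq]
          exact hb q _
  · intro x y s hs
    refine ⟨?_, fun u hu q => ?_⟩
    · rintro _ (rfl | rfl)
      · exact hle _ _ (hs.1 (Or.inl rfl))
      · exact hle _ _ (hs.1 (Or.inr rfl))
    · show u.1 q ≤ g s q
      have hx : u.1 q ≤ g x q := hu (Or.inl rfl) q
      have hy : u.1 q ≤ g y q := hu (Or.inr rfl) q
      by_cases hq : q = p
      · subst hq
        rw [gp] at hx hy ⊢
        refine hs.2 ?_
        rintro _ (rfl | rfl)
        · exact hx
        · exact hy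
      · by_cases hpq : p < q
        · rw [gq s q hq hpq]
          exact ht q _
        · rw [gr x q hq hpq] at hx
          rw [gr s q hq hpq]
          exact hx

/-! ### lattices with one atom -/

/-- a join-semidistributive finite lattice with exactly one atom is the dual of the ordered set of
closed relations of a semilattice with operators, with a new least element -/
theorem exists_iso {α : Type} [Lattice α] [BoundedOrder α] [Finite α]
    (hα : ∃! a : α, IsAtom a) (hsd : SDj α) :
    ∃ (U F₀ : Type) (_ : SemilatticeSup U) (_ : Nonempty U) (act : F₀ → U → U),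
      (∀ f s t, act f (s ⊔ t) = act f s ⊔ act f t) ∧
      Nonempty (α ≃o WithBot (MCut.NN act)ᵒᵈ) := by
  rw [sdj_iff] at hsd
  obtain ⟨a, ha, hu⟩ := hα
  have hle : ∀ x : α, x ≠ ⊥ → a ≤ x := by
    intro x hx
    obtain h | ⟨b, hb, hbx⟩ := eq_bot_or_exists_atom_le x
    · exact absurd h hx
    · have : b = a := hu b hb
      exact this ▸ hbx
  obtain ⟨e⟩ := Final.iso_withBot a (fun h => ha.1 (le_bot_iff.1 h)) hle
  let _ : BoundedOrder (Set.Ici a) :=
    { top := ⟨⊤, le_top⟩
      le_top := fun x => Subtype.coe_le_coe.1 le_top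
      bot := ⟨a, le_refl a⟩
      bot_le := fun x => x.2 }
  have sd : ∀ x y z : (Set.Ici a)ᵒᵈ, x ⊓ y = x ⊓ z → x ⊓ (y ⊔ z) = x ⊓ y := by
    intro x y z hxyz
    have h1 : ((OrderDual.ofDual x : Set.Ici a) : α) ⊔ (OrderDual.ofDual y : Set.Ici a)
        = ((OrderDual.ofDual x : Set.Ici a) : α) ⊔ (OrderDual.ofDual z : Set.Ici a) :=
      congrArg (fun t : (Set.Ici a)ᵒᵈ => ((OrderDual.ofDual t : Set.Ici a) : α)) hxyz
    have h2 := hsd _ _ _ h1
    exact Subtype.ext h2
  obtain ⟨e1⟩ := iso_closed (N := (Set.Ici a)ᵒᵈ) sd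
  refine ⟨Tree (Set.Ici a)ᵒᵈ, Contr (Set.Ici a)ᵒᵈ, inferInstance, ⟨default⟩, actC,
    fun f s t => f.map_sup' s t, ⟨e.trans (OrderIso.withBotCongr ?_)⟩⟩
  exact (show Set.Ici a ≃o ((Set.Ici a)ᵒᵈ)ᵒᵈ from OrderIso.refl _).trans e1.dual

theorem rep1_one {α : Type} [Lattice α] [BoundedOrder α] [Finite α]
    (hα : ∃! a : α, IsAtom a) (hsd : SDj α) : Rep1 α := by
  obtain ⟨U, F₀, _, _, act, hact, ⟨e⟩⟩ := exists_iso hα hsd
  exact Rep1.congr e (MBase.rep1_withBot hact)

/-- cuts of isomorphic ordered sets -/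
theorem cut_congr {α α' β : Type} [PartialOrder α] [PartialOrder α'] [PartialOrder β]
    (e : α ≃o α') (w : α) : Nonempty (Cut α β w ≃o Cut α' β (e w)) := by
  have hb : ∀ a, IsBot a ↔ IsBot (e a) := by
    intro a
    constructor
    · intro h x
      have := e.monotone (h (e.symm x))
      rwa [OrderIso.apply_symm_apply] at this
    · intro h x
      exact e.le_iff_le.1 (h (e x))
  let g : Cut α β w → Cut α' β (e w) := fun z => ⟨(e z.1.1, z.1.2), by
    rcases z.2 with h | h | h
    · exact Or.inl ((hb _).1 h)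
    · exact Or.inr (Or.inl h)
    · exact Or.inr (Or.inr (e.le_iff_le.2 h))⟩
  have hle : ∀ x y, g x ≤ g y ↔ x ≤ y := by
    intro x y
    constructor
    · intro h
      exact ⟨e.le_iff_le.1 h.1, h.2⟩
    · intro h
      exact ⟨e.le_iff_le.2 h.1, h.2⟩
  have hs : Function.Surjective g := by
    rintro ⟨⟨a, b⟩, h⟩
    refine ⟨⟨(e.symm a, b), ?_⟩, ?_⟩
    · rcases h with h | h | h
      · refine Or.inl ((hb _).2 ?_)
        rw [OrderIso.apply_symm_apply]
        exact h
      · exact Or.inr (Or.inl h)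
      · refine Or.inr (Or.inr ?_)
        have h' : e w ≤ a := h
        rw [OrderIso.le_symm_apply]
        exact h'
    · apply Subtype.ext
      show (e (e.symm a), b) = (a, b)
      rw [OrderIso.apply_symm_apply]
  exact ⟨RelIso.ofSurjective (OrderEmbedding.ofMapLEIff g hle) hs⟩

theorem gc_bdd {α : Type} {i : PartialOrder α} (h : GC α i) : Bdd α := by
  induction h with
  | one α h => exact bdd_of_bounded α
  | cut α β h w hw i hβ ih => exact bdd_cut (bdd_of_bounded α) ih w
  | iso α β i j e h ih => exact ih.congr e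

theorem gc_rep {α : Type} {i : PartialOrder α} (h : GC α i) : SDj α → Rep1 α := by
  induction h with
  | one α h => exact rep1_one h
  | cut α β h w hw i hβ ih =>
    intro hsd
    have h1 : SDj α := sdj_cut_left (gc_bdd hβ) hsd
    have h2 : Rep1 β := ih (sdj_cut_right (bdd_of_bounded α) hsd)
    obtain ⟨U, F₀, _, _, act, hact, ⟨e⟩⟩ := exists_iso h h1
    obtain ⟨e'⟩ := cut_congr (β := β) e w
    refine Rep1.congr e' ?_
    have hw' : e w ≠ ⊥ := fun hh => hw (by rw [← e.symm_apply_apply w, hh, e.symm.map_bot])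
    obtain ⟨Ω, hΩ⟩ := WithBot.ne_bot_iff_exists.1 hw'
    rw [← hΩ]
    exact MCut.rep1_cut h2 hact (OrderDual.ofDual Ω)
  | iso α β i j e h ih =>
    intro hsd
    exact Rep1.congr e.symm (ih (SDj.congr e hsd))

theorem gg_bdd {α : Type} {i : PartialOrder α} (h : GG α i) : Bdd α := by
  induction h with
  | gc α i h => exact gc_bdd h
  | lprod P M i z h ih => exact bdd_lProd z ih
  | iso α β i j e h ih => exact ih.congr e

theorem gg_rep {α : Type} {i : PartialOrder α} (h : GG α i) : SDj α → RepMS α := by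
  induction h with
  | gc α i h => exact fun hsd => (gc_rep h hsd).repMS
  | lprod P M i z h ih =>
    intro hsd
    have : Fintype P := Fintype.ofFinite P
    exact repMS_lProd M z fun p => ih p (sdj_lProd (fun p => gg_bdd (h p)) hsd p)
  | iso α β i j e h ih =>
    intro hsd
    exact RepMS.congr e.symm (ih (SDj.congr e hsd))

/-- a lattice of the class is a lattice of quasivarieties iff it is join-semidistributive -/
theorem gg_iff {α : Type} [i : Lattice α] (h : GG α i.toPartialOrder) :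
    IsLQ α ↔ ∀ x y z : α, x ⊔ y = x ⊔ z → x ⊔ (y ⊓ z) = x ⊔ y :=
  ⟨sd_of_isLQ, fun hsd => isLQ_of_repMS (gg_rep h (sdj_iff.2 hsd))⟩

end C5E17
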