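import Pool.Agent.Lib.MP_c5e17c_al.MS.Class
import Pool.Agent.Lib.MP_c5e17c_al.OA.Comp

/-!
# MP_c5e17c_al, project MS: one computable test for all presentations of lattices of the class
-/

set_option autoImplicit false

namespace C5E17

namespace Comp2

/-- `s` is a least upper bound of `i` and `j` for the relation `r` -/
private def IsS {β : Type} (r : β → β → Prop) (i j s : β) : Prop :=
  r i s ∧ r j s ∧ ∀ t, r i t → r j t → r s t

/-- `s` is a greatest lower bound of `i` and `j` for the relation `r` -/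
private def IsI {β : Type} (r : β → β → Prop) (i j s : β) : Prop :=
  r s i ∧ r s j ∧ ∀ t, r t i → r t j → r t s

private theorem isS_iff {α β : Type} [Lattice α] (e : β ≃ α) (i j s : β) :
    IsS (fun x y => e x ≤ e y) i j s ↔ e s = e i ⊔ e j := by
  constructor
  · rintro ⟨h1, h2, h3⟩
    apply le_antisymm
    · have := h3 (e.symm (e i ⊔ e j)) (by simp) (by simp)
      simpa using this
    · exact sup_le h1 h2
  · intro h
    refine ⟨?_, ?_, ?_⟩
    · show e i ≤ e s
      rw [h]; exact le_sup_left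
    · show e j ≤ e s
      rw [h]; exact le_sup_right
    · intro t h1 h2
      show e s ≤ e t
      rw [h]; exact sup_le h1 h2

private theorem isI_iff {α β : Type} [Lattice α] (e : β ≃ α) (i j s : β) :
    IsI (fun x y => e x ≤ e y) i j s ↔ e s = e i ⊓ e j := by
  constructor
  · rintro ⟨h1, h2, h3⟩
    apply le_antisymm
    · exact le_inf h1 h2
    · have := h3 (e.symm (e i ⊓ e j)) (by simp) (by simp)
      simpa using this
  · intro h
    refine ⟨?_, ?_, ?_⟩
    · show e s ≤ e i
      rw [h]; exact inf_le_left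
    · show e s ≤ e j
      rw [h]; exact inf_le_right
    · intro t h1 h2
      show e t ≤ e s
      rw [h]; exact le_inf h1 h2

/-- `s` is a least upper bound of `i` and `j` in the matrix `m` -/
private def NS (m : List (List Bool)) (i j s : ℕ) : Prop :=
  ent m i s ∧ ent m j s ∧ ∀ t < m.length, ent m i t → ent m j t → ent m s t

/-- `s` is a greatest lower bound of `i` and `j` in the matrix `m` -/
private def NI (m : List (List Bool)) (i j s : ℕ) : Prop :=
  ent m s i ∧ ent m s j ∧ ∀ t < m.length, ent m t i → ent m t j → ent m t s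

private theorem nS_iff (m : List (List Bool)) (i j s : Fin m.length) :
    IsS (fun i j : Fin m.length => ent m i j) i j s ↔ NS m i j s := by
  simp only [IsS, NS, Fin.forall_iff]

private theorem nI_iff (m : List (List Bool)) (i j s : Fin m.length) :
    IsI (fun i j : Fin m.length => ent m i j) i j s ↔ NI m i j s := by
  simp only [IsI, NI, Fin.forall_iff]

/-- the test: join-semidistributivity of the matrix -/
private def Test (m : List (List Bool)) : Prop :=
  ∀ x < m.length, ∀ y < m.length, ∀ z < m.length, ∀ s < m.length, ∀ p < m.length,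
    ∀ u < m.length, NS m x y s → NS m x z s → NI m y z p → NS m x p u → u = s

private theorem test_iff {m : List (List Bool)} {α : Type} [Lattice α] (h : Presents m α) :
    Test m ↔ ∀ x y z : α, x ⊔ y = x ⊔ z → x ⊔ (y ⊓ z) = x ⊔ y := by
  obtain ⟨e, he⟩ := h
  have h2 : (fun i j : Fin m.length => ent m i j) = (fun x y => e x ≤ e y) := by
    funext i j
    exact propext (he i j)
  have hS : ∀ i j s : Fin m.length, NS m i j s ↔ e s = e i ⊔ e j := by
    intro i j s
    rw [← nS_iff, h2]
    exact isS_iff e i j s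
  have hI : ∀ i j s : Fin m.length, NI m i j s ↔ e s = e i ⊓ e j := by
    intro i j s
    rw [← nI_iff, h2]
    exact isI_iff e i j s
  constructor
  · intro ht x y z hxy
    have := ht (e.symm x) (e.symm x).2 (e.symm y) (e.symm y).2 (e.symm z) (e.symm z).2
      (e.symm (x ⊔ y)) (e.symm _).2 (e.symm (y ⊓ z)) (e.symm _).2
      (e.symm (x ⊔ (y ⊓ z))) (e.symm _).2 ((hS _ _ _).2 (by simp)) ((hS _ _ _).2 (by simp [hxy]))
      ((hI _ _ _).2 (by simp)) ((hS _ _ _).2 (by simp))
    exact e.symm.injective (Fin.ext this)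
  · intro hsd x hx y hy z hz s hs p hp u hu h1 h2 h3 h4
    have k1 := (hS ⟨x, hx⟩ ⟨y, hy⟩ ⟨s, hs⟩).1 h1
    have k2 := (hS ⟨x, hx⟩ ⟨z, hz⟩ ⟨s, hs⟩).1 h2
    have k3 := (hI ⟨y, hy⟩ ⟨z, hz⟩ ⟨p, hp⟩).1 h3
    have k4 := (hS ⟨x, hx⟩ ⟨p, hp⟩ ⟨u, hu⟩).1 h4
    have : (⟨u, hu⟩ : Fin m.length) = ⟨s, hs⟩ := by
      apply e.injective
      rw [k4, k3, hsd _ _ _ (k1.symm.trans k2), k1]
    exact congrArg Fin.val this

open Primrec in
private theorem all_lt {γ : Type} [Primcodable γ] {b : γ → ℕ} (hb : Primrec b)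
    {p : γ → ℕ → Prop} (hp : PrimrecPred fun q : γ × ℕ => p q.1 q.2) :
    PrimrecPred fun c => ∀ i < b c, p c i := by
  have h1 : PrimrecRel fun (i : ℕ) (c : γ) => p c i :=
    hp.comp (Primrec.pair Primrec.snd Primrec.fst)
  exact (h1.forall_mem_list.comp (list_range.comp hb) Primrec.id).of_eq (by simp)

private theorem imp {γ : Type} [Primcodable γ] {p q : γ → Prop} (hp : PrimrecPred p)
    (hq : PrimrecPred q) : PrimrecPred fun c => p c → q c := by
  classical
  exact (hp.not.or hq).of_eq fun c => by tauto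

private theorem pent {γ : Type} [Primcodable γ] {f : γ → List (List Bool)} {g h : γ → ℕ}
    (hf : Primrec f) (hg : Primrec g) (hh : Primrec h) :
    PrimrecPred fun c => ent (f c) (g c) (h c) :=
  Primrec.eq.comp ((Primrec.list_getD false).comp ((Primrec.list_getD []).comp hf hg) hh)
    (Primrec.const true)

private theorem pNS {γ : Type} [Primcodable γ] {f : γ → List (List Bool)} {g h k : γ → ℕ}
    (hf : Primrec f) (hg : Primrec g) (hh : Primrec h) (hk : Primrec k) :
    PrimrecPred fun c => NS (f c) (g c) (h c) (k c) :=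
  (pent hf hg hk).and ((pent hf hh hk).and (all_lt (Primrec.list_length.comp hf)
    (imp (pent (hf.comp Primrec.fst) (hg.comp Primrec.fst) Primrec.snd)
      (imp (pent (hf.comp Primrec.fst) (hh.comp Primrec.fst) Primrec.snd)
        (pent (hf.comp Primrec.fst) (hk.comp Primrec.fst) Primrec.snd)))))

private theorem pNI {γ : Type} [Primcodable γ] {f : γ → List (List Bool)} {g h k : γ → ℕ}
    (hf : Primrec f) (hg : Primrec g) (hh : Primrec h) (hk : Primrec k) :
    PrimrecPred fun c => NI (f c) (g c) (h c) (k c) :=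
  (pent hf hk hg).and ((pent hf hk hh).and (all_lt (Primrec.list_length.comp hf)
    (imp (pent (hf.comp Primrec.fst) Primrec.snd (hg.comp Primrec.fst))
      (imp (pent (hf.comp Primrec.fst) Primrec.snd (hh.comp Primrec.fst))
        (pent (hf.comp Primrec.fst) Primrec.snd (hk.comp Primrec.fst))))))

open Primrec in
private theorem primrec_test : PrimrecPred Test := by
  have l0 : Primrec fun m : List (List Bool) => m.length := list_length
  refine all_lt l0 (all_lt (l0.comp fst) (all_lt (l0.comp (fst.comp fst))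
    (all_lt (l0.comp (fst.comp (fst.comp fst)))
    (all_lt (l0.comp (fst.comp (fst.comp (fst.comp fst))))
    (all_lt (l0.comp (fst.comp (fst.comp (fst.comp (fst.comp fst))))) ?_)))))
  have m0 : Primrec fun q : ((((((List (List Bool) × ℕ) × ℕ) × ℕ) × ℕ) × ℕ) × ℕ) =>
    q.1.1.1.1.1.1 := fst.comp (fst.comp (fst.comp (fst.comp (fst.comp fst))))
  have x0 : Primrec fun q : ((((((List (List Bool) × ℕ) × ℕ) × ℕ) × ℕ) × ℕ) × ℕ) =>
    q.1.1.1.1.1.2 := snd.comp (fst.comp (fst.comp (fst.comp (fst.comp fst))))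
  have y0 : Primrec fun q : ((((((List (List Bool) × ℕ) × ℕ) × ℕ) × ℕ) × ℕ) × ℕ) =>
    q.1.1.1.1.2 := snd.comp (fst.comp (fst.comp (fst.comp fst)))
  have z0 : Primrec fun q : ((((((List (List Bool) × ℕ) × ℕ) × ℕ) × ℕ) × ℕ) × ℕ) =>
    q.1.1.1.2 := snd.comp (fst.comp (fst.comp fst))
  have s0 : Primrec fun q : ((((((List (List Bool) × ℕ) × ℕ) × ℕ) × ℕ) × ℕ) × ℕ) =>
    q.1.1.2 := snd.comp (fst.comp fst)
  have p0 : Primrec fun q : ((((((List (List Bool) × ℕ) × ℕ) × ℕ) × ℕ) × ℕ) × ℕ) =>
    q.1.2 := snd.comp fst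
  have u0 : Primrec fun q : ((((((List (List Bool) × ℕ) × ℕ) × ℕ) × ℕ) × ℕ) × ℕ) =>
    q.2 := snd
  exact imp (pNS m0 x0 y0 s0) (imp (pNS m0 x0 z0 s0) (imp (pNI m0 y0 z0 p0)
    (imp (pNS m0 x0 p0 u0) (Primrec.eq.comp u0 s0))))

end Comp2

/-- one computable test decides, for all presentations of lattices of the class, whether the
presented lattice is a lattice of quasivarieties -/
theorem exists_test : ∃ D : List (List Bool) → Prop, ComputablePred D ∧
    ∀ (m : List (List Bool)) (α : Type) [i : Lattice α], Presents m α → GG α i.toPartialOrder →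
      (D m ↔ IsLQ α) :=
  ⟨Comp2.Test, Comp2.primrec_test.computablePred, fun _ _ _ h1 h2 =>
    (Comp2.test_iff h1).trans (gg_iff h2).symm⟩

end C5E17
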