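import Pool.Agent.Lib.MP_c5e17c_al.MS.Base
import Pool.Agent.Lib.MP_c5e17c_al.MS.CDefs

/-!
# MP_c5e17c_al, project MS: cuts

`Cut A B w`: the pairs `(x, y)` such that `x` or `y` is the least element or `w ≤ x`.
-/

set_option autoImplicit false
set_option linter.unusedSectionVars false

namespace C5E17

namespace MCut

variable {Y : Sys1} {U F₀ : Type}

/-- the elements of the new system -/
abbrev CS (Y : Sys1) (U : Type) : Type := WithTop (WithBot Y.S × WithBot U)

/-- pairs -/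
def el (s : WithBot Y.S) (x : WithBot U) : CS Y U := ((s, x) : WithBot Y.S × WithBot U)

theorem cs_cases (z : CS Y U) : z = (none : CS Y U) ∨ ∃ s x, z = el s x := by
  match z with
  | none => exact Or.inl rfl
  | some (s, x) => exact Or.inr ⟨s, x, rfl⟩

/-- the value of an element -/
def bar (s : WithBot Y.S) : Y.S := s.recBotCoe ⊥ id

theorem bar_bot : bar (⊥ : WithBot Y.S) = ⊥ := rfl

theorem bar_coe (a : Y.S) : bar (a : WithBot Y.S) = a := rfl

/-- the extension of a relation by a new least element -/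
def lift (Θ : U → U → Prop) (x y : WithBot U) : Prop :=
  y = ⊥ ∨ ∃ a b : U, x = a ∧ y = b ∧ Θ a b

/-- the family attached to `C`, `B`, `Θ` -/
def fam (W : U → U → Prop) (C : Prop) (B : Y.S → Y.S → Prop) (Θ : U → U → Prop) :
    CS Y U → CS Y U → Prop
  | none, _ => True
  | some (s, _), none => (C ∨ s ≠ ⊥) ∧ B (bar s) ⊤
  | some (s, x), some (t, y) => ((C ∨ s ≠ ⊥) ∧ B (bar s) ⊤) ∨
      ((t ≠ ⊥ → (C ∨ s ≠ ⊥) ∧ B (bar s) (bar t)) ∧ ((C ∨ s ≠ ⊥) → lift W x y) ∧
        (¬ (C ∨ s ≠ ⊥) → lift Θ x y))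

section

variable {W : U → U → Prop} {C : Prop} {B : Y.S → Y.S → Prop} {Θ : U → U → Prop}

theorem fam_top (z : CS Y U) : fam W C B Θ (none : CS Y U) z := trivial

theorem fam_el_top (s : WithBot Y.S) (x : WithBot U) :
    fam W C B Θ (el s x) (none : CS Y U) ↔ (C ∨ s ≠ ⊥) ∧ B (bar s) ⊤ := Iff.rfl

theorem fam_el (s t : WithBot Y.S) (x y : WithBot U) :
    fam W C B Θ (el s x) (el t y) ↔ ((C ∨ s ≠ ⊥) ∧ B (bar s) ⊤) ∨
      ((t ≠ ⊥ → (C ∨ s ≠ ⊥) ∧ B (bar s) (bar t)) ∧ ((C ∨ s ≠ ⊥) → lift W x y) ∧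
        (¬ (C ∨ s ≠ ⊥) → lift Θ x y)) := Iff.rfl

theorem fam_full {s : WithBot Y.S} (h : (C ∨ s ≠ ⊥) ∧ B (bar s) ⊤) (x : WithBot U)
    (z : CS Y U) : fam W C B Θ (el s x) z := by
  rcases cs_cases z with rfl | ⟨t, y, rfl⟩
  · exact h
  · exact Or.inl h

end

variable [SemilatticeSup U]

theorem el_sup (s t : WithBot Y.S) (x y : WithBot U) :
    (el s x ⊔ el t y : CS Y U) = el (s ⊔ t) (x ⊔ y) := rfl

theorem top_sup' (z : CS Y U) : (none ⊔ z : CS Y U) = none := top_sup_eq z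

theorem sup_top' (z : CS Y U) : (z ⊔ none : CS Y U) = none := sup_top_eq z

theorem el_le (s t : WithBot Y.S) (x y : WithBot U) :
    (el s x : CS Y U) ≤ el t y ↔ s ≤ t ∧ x ≤ y := by
  unfold el
  rw [WithTop.coe_le_coe]
  exact Iff.rfl

theorem top_not_le (s : WithBot Y.S) (x : WithBot U) : ¬ (⊤ : CS Y U) ≤ el s x :=
  WithTop.not_top_le_coe _

theorem bar_sup (s t : WithBot Y.S) : bar (s ⊔ t) = bar s ⊔ bar t := by
  induction s using WithBot.recBotCoe with
  | bot => rw [bar_bot, bot_sup_eq, bot_sup_eq]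
  | coe a =>
    induction t using WithBot.recBotCoe with
    | bot => rw [bar_bot, sup_bot_eq, sup_bot_eq]
    | coe b => rfl

variable {act : F₀ → U → U}

theorem lift_le {Θ : U → U → Prop} (hΘ : Closed act Θ) {x y : WithBot U} (h : y ≤ x) :
    lift Θ x y := by
  induction y using WithBot.recBotCoe with
  | bot => exact Or.inl rfl
  | coe b =>
    induction x using WithBot.recBotCoe with
    | bot => exact absurd h (WithBot.not_coe_le_bot b)
    | coe a => exact Or.inr ⟨a, b, rfl, rfl, hΘ.refl _ _ (WithBot.coe_le_coe.1 h)⟩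

theorem lift_coe {Θ : U → U → Prop} (a b : U) : lift Θ (a : WithBot U) b ↔ Θ a b := by
  constructor
  · rintro (h | ⟨a', b', h1, h2, h3⟩)
    · exact absurd h WithBot.coe_ne_bot
    · cases WithBot.coe_inj.1 h1
      cases WithBot.coe_inj.1 h2
      exact h3
  · exact fun h => Or.inr ⟨a, b, rfl, rfl, h⟩

theorem lift_bot_coe {Θ : U → U → Prop} (b : U) : ¬ lift Θ (⊥ : WithBot U) b := by
  rintro (h | ⟨a', b', h1, h2, h3⟩)
  · exact absurd h WithBot.coe_ne_bot
  · exact absurd h1.symm WithBot.coe_ne_bot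

theorem lift_trans {Θ : U → U → Prop} (hΘ : Closed act Θ) {x y z : WithBot U}
    (h1 : lift Θ x y) (h2 : lift Θ y z) : lift Θ x z := by
  rcases h2 with rfl | ⟨b, c, rfl, rfl, h2⟩
  · exact Or.inl rfl
  · rcases h1 with h1 | ⟨a, b', rfl, h3, h1⟩
    · exact absurd h1 WithBot.coe_ne_bot
    · cases WithBot.coe_inj.1 h3
      exact Or.inr ⟨a, c, rfl, rfl, hΘ.trans _ _ _ h1 h2⟩

theorem lift_sup {Θ : U → U → Prop} (hΘ : Closed act Θ) {x y z : WithBot U}
    (h1 : lift Θ x y) (h2 : lift Θ x z) : lift Θ x (y ⊔ z) := by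
  rcases h1 with rfl | ⟨a, b, rfl, rfl, h1⟩
  · rw [bot_sup_eq]
    exact h2
  · rcases h2 with rfl | ⟨a', c, h3, rfl, h2⟩
    · rw [sup_bot_eq]
      exact Or.inr ⟨a, b, rfl, rfl, h1⟩
    · cases WithBot.coe_inj.1 h3
      exact Or.inr ⟨a, b ⊔ c, rfl, rfl, hΘ.sup _ _ _ h1 h2⟩

theorem lift_mono {Θ Θ' : U → U → Prop} (h : ∀ a b, Θ a b → Θ' a b) {x y : WithBot U}
    (h1 : lift Θ x y) : lift Θ' x y := by
  rcases h1 with rfl | ⟨a, b, rfl, rfl, h1⟩
  · exact Or.inl rfl
  · exact Or.inr ⟨a, b, rfl, rfl, h _ _ h1⟩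

/-- the hypotheses on the parameters of a family -/
structure Good (act : F₀ → U → U) (W : U → U → Prop) (B : Y.S → Y.S → Prop)
    (Θ : U → U → Prop) : Prop where
  w : Closed act W
  b : Y.Cl B
  t : Closed act Θ
  h : (∀ x y, Θ x y → W x y) ∨ B ⊥ ⊤

variable {W : U → U → Prop} {C : Prop} {B : Y.S → Y.S → Prop} {Θ : U → U → Prop}

theorem b_le (hg : Good act W B Θ) {s t : Y.S} (h : t ≤ s) : B s t := hg.b.base _ _ (Y.R_le _ _ h)

theorem key1 (hg : Good act W B Θ) {s t : WithBot Y.S} (ht : C ∨ t ≠ ⊥)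
    (h : t ≠ ⊥ → (C ∨ s ≠ ⊥) ∧ B (bar s) (bar t)) : (C ∨ s ≠ ⊥) ∧ B (bar s) (bar t) := by
  by_cases h0 : t = ⊥
  · subst h0
    exact ⟨Or.inl (ht.resolve_right fun h => h rfl), b_le hg bot_le⟩
  · exact h h0

theorem fam_le (hg : Good act W B Θ) {a b : CS Y U} (h : b ≤ a) : fam W C B Θ a b := by
  rcases cs_cases a with rfl | ⟨s, x, rfl⟩
  · trivial
  · rcases cs_cases b with rfl | ⟨t, y, rfl⟩
    · exact absurd h (top_not_le s x)
    · rw [el_le] at h
      refine Or.inr ⟨fun ht => ⟨Or.inr fun hs => ht ?_, b_le hg ?_⟩, fun _ => lift_le hg.w h.2,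
        fun _ => lift_le hg.t h.2⟩
      · rw [hs] at h
        exact le_bot_iff.1 h.1
      · have h1 : bar (t ⊔ s) = bar t ⊔ bar s := bar_sup t s
        rw [sup_eq_right.2 h.1] at h1
        rw [h1]
        exact le_sup_left

theorem fam_trans (hg : Good act W B Θ) {a b c : CS Y U} (h1 : fam W C B Θ a b)
    (h2 : fam W C B Θ b c) : fam W C B Θ a c := by
  rcases cs_cases a with rfl | ⟨s, x, rfl⟩
  · trivial
  by_cases h0 : (C ∨ s ≠ ⊥) ∧ B (bar s) ⊤
  · exact fam_full h0 x c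
  rcases cs_cases b with rfl | ⟨t, y, rfl⟩
  · exact absurd h1 h0
  rw [fam_el] at h1
  obtain ⟨ha, hb, hc⟩ := h1.resolve_left h0
  have hfull : ¬ ((C ∨ t ≠ ⊥) ∧ B (bar t) ⊤) := by
    rintro ⟨h3, h4⟩
    obtain ⟨h5, h6⟩ := key1 hg h3 ha
    exact h0 ⟨h5, hg.b.trans _ _ _ h6 h4⟩
  rcases cs_cases c with rfl | ⟨r, z, rfl⟩
  · exact absurd h2 hfull
  rw [fam_el] at h2 ⊢
  obtain ⟨ha', hb', hc'⟩ := h2.resolve_left hfull
  refine Or.inr ⟨fun hr => ?_, fun hs => ?_, fun hs => ?_⟩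
  · obtain ⟨h3, h4⟩ := ha' hr
    obtain ⟨h5, h6⟩ := key1 hg h3 ha
    exact ⟨h5, hg.b.trans _ _ _ h6 h4⟩
  · by_cases ht : C ∨ t ≠ ⊥
    · exact lift_trans hg.w (hb hs) (hb' ht)
    · refine lift_trans hg.w (hb hs) (lift_mono ?_ (hc' ht))
      rcases hg.h with h | h
      · exact h
      · exact absurd ⟨hs, hg.b.trans _ _ _ (b_le hg bot_le) h⟩ h0
  · have ht : ¬ (C ∨ t ≠ ⊥) := fun ht => hs (key1 hg ht ha).1
    exact lift_trans hg.t (hc hs) (hc' ht)

theorem fam_sup (hg : Good act W B Θ) {a b c : CS Y U} (h1 : fam W C B Θ a b)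
    (h2 : fam W C B Θ a c) : fam W C B Θ a (b ⊔ c) := by
  rcases cs_cases a with rfl | ⟨s, x, rfl⟩
  · trivial
  by_cases h0 : (C ∨ s ≠ ⊥) ∧ B (bar s) ⊤
  · exact fam_full h0 x _
  rcases cs_cases b with rfl | ⟨t, y, rfl⟩
  · exact absurd h1 h0
  rcases cs_cases c with rfl | ⟨r, z, rfl⟩
  · exact absurd h2 h0
  rw [fam_el] at h1 h2
  rw [el_sup, fam_el]
  obtain ⟨ha, hb, hc⟩ := h1.resolve_left h0
  obtain ⟨ha', hb', hc'⟩ := h2.resolve_left h0
  refine Or.inr ⟨fun hr => ?_, fun hs => lift_sup hg.w (hb hs) (hb' hs),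
    fun hs => lift_sup hg.t (hc hs) (hc' hs)⟩
  by_cases ht : t = ⊥
  · subst ht
    rw [bot_sup_eq] at hr ⊢
    exact ha' hr
  · obtain ⟨h3, h4⟩ := ha ht
    refine ⟨h3, ?_⟩
    rw [bar_sup]
    refine hg.b.sup _ _ _ h4 ?_
    by_cases hr' : r = ⊥
    · subst hr'
      exact b_le hg bot_le
    · exact (ha' hr').2

/-- the operators of the new system -/
inductive CL (Y : Sys1) (U F₀ : Type) : Type
  | y (f : Y.F) : CL Y U F₀
  | g (f : F₀) : CL Y U F₀
  | lo : CL Y U F₀
  | hi : CL Y U F₀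
  | k (a : U) : CL Y U F₀

open Classical in
/-- the action on the second components -/
noncomputable def ψ (act : F₀ → U → U) (W : U → U → Prop) : CL Y U F₀ → U → CS Y U
  | .y _, x => el ⊥ x
  | .g f, x => el ⊥ (act f x : U)
  | .lo, _ => el ⊥ ⊥
  | .hi, _ => (none : CS Y U)
  | .k a, x => if W a x then el ((⊥ : Y.S) : WithBot Y.S) ⊥ else (none : CS Y U)

open Classical in
theorem ψ_k (act : F₀ → U → U) (W : U → U → Prop) (a x : U) :
    (ψ act W (.k a : CL Y U F₀) x : CS Y U) =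
      if W a x then el ((⊥ : Y.S) : WithBot Y.S) ⊥ else (none : CS Y U) := rfl

/-- the action on the second components, with a new least element -/
noncomputable def ψ' (act : F₀ → U → U) (W : U → U → Prop) (l : CL Y U F₀) (x : WithBot U) :
    CS Y U := x.recBotCoe (el ⊥ ⊥) (ψ act W l)

/-- the action on the first components -/
def φ : CL Y U F₀ → WithBot Y.S → WithBot Y.S
  | .y f, s => s.recBotCoe ⊥ (fun a => (Y.act f a : Y.S))
  | _, s => s

/-- the action -/
noncomputable def cact (act : F₀ → U → U) (W : U → U → Prop) (l : CL Y U F₀) : CS Y U → CS Y U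
  | none => (none : CS Y U)
  | some (s, x) => el (φ l s) ⊥ ⊔ ψ' act W l x

theorem cact_top (l : CL Y U F₀) : cact act W l (none : CS Y U) = none := rfl

theorem cact_el (l : CL Y U F₀) (s : WithBot Y.S) (x : WithBot U) :
    cact act W l (el s x) = el (φ l s) ⊥ ⊔ ψ' act W l x := rfl

theorem el_bot : (el ⊥ ⊥ : CS Y U) = ⊥ := rfl

theorem φ_bot (l : CL Y U F₀) : φ l ⊥ = ⊥ := by
  cases l <;> rfl

theorem φ_coe_ne (l : CL Y U F₀) (a : Y.S) : φ l (a : WithBot Y.S) ≠ ⊥ := by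
  cases l <;> exact WithBot.coe_ne_bot

theorem φ_ne (l : CL Y U F₀) {s : WithBot Y.S} (h : s ≠ ⊥) : φ l s ≠ ⊥ := by
  induction s using WithBot.recBotCoe with
  | bot => exact absurd rfl h
  | coe a => exact φ_coe_ne l a

theorem φ_ne' (l : CL Y U F₀) {s : WithBot Y.S} (h : φ l s ≠ ⊥) : s ≠ ⊥ := by
  rintro rfl
  exact h (φ_bot l)

theorem φ_sup (l : CL Y U F₀) (s t : WithBot Y.S) : φ l (s ⊔ t) = φ l s ⊔ φ l t := by
  induction s using WithBot.recBotCoe with
  | bot => rw [φ_bot, bot_sup_eq, bot_sup_eq]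
  | coe a =>
    induction t using WithBot.recBotCoe with
    | bot => rw [φ_bot, sup_bot_eq, sup_bot_eq]
    | coe b =>
      cases l with
      | y f =>
        show ((Y.act f (a ⊔ b) : Y.S) : WithBot Y.S) = ((Y.act f a ⊔ Y.act f b : Y.S) :
          WithBot Y.S)
        rw [Y.act_sup]
      | g f => rfl
      | lo => rfl
      | hi => rfl
      | k a => rfl

theorem bar_φ (hb : Y.Cl B) (l : CL Y U F₀) {s t : WithBot Y.S} (h : B (bar s) (bar t)) :
    B (bar (φ l s)) (bar (φ l t)) := by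
  have e : ∀ s : WithBot Y.S, ∀ f : Y.F, bar (φ (.y f : CL Y U F₀) s) = Y.act f (bar s) := by
    intro s f
    induction s using WithBot.recBotCoe with
    | bot => exact (Y.act_bot f).symm
    | coe a => rfl
  cases l with
  | y f => rw [e, e]; exact hb.op _ _ _ h
  | g f => exact h
  | lo => exact h
  | hi => exact h
  | k a => exact h

theorem bar_φ_top (hb : Y.Cl B) (l : CL Y U F₀) {s : WithBot Y.S} (h : B (bar s) ⊤) :
    B (bar (φ l s)) ⊤ := by
  have h1 := bar_φ hb l (s := s) (t := ((⊤ : Y.S) : WithBot Y.S)) h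
  have e : bar (φ l ((⊤ : Y.S) : WithBot Y.S)) = ⊤ := by
    cases l with
    | y f => exact Y.act_top f
    | g f => rfl
    | lo => rfl
    | hi => rfl
    | k a => rfl
  rw [e] at h1
  exact h1

theorem ψ_sup (hact : ∀ f s t, act f (s ⊔ t) = act f s ⊔ act f t) (hw : Closed act W)
    (l : CL Y U F₀) (x y : U) : ψ act W l (x ⊔ y) = ψ act W l x ⊔ ψ act W l y := by
  cases l with
  | y f => rfl
  | g f =>
    show el ⊥ ((act f (x ⊔ y) : U) : WithBot U) = el ⊥ ((act f x ⊔ act f y : U) : WithBot U)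
    rw [hact]
  | lo => rfl
  | hi => rfl
  | k a =>
    rw [ψ_k, ψ_k, ψ_k]
    by_cases hx : W a x
    · by_cases hy : W a y
      · rw [if_pos (hw.sup _ _ _ hx hy), if_pos hx, if_pos hy, sup_idem]
      · rw [if_neg fun h => hy (hw.trans _ _ _ h (hw.refl _ _ le_sup_right)), if_neg hy,
          sup_top']
    · rw [if_neg fun h => hx (hw.trans _ _ _ h (hw.refl _ _ le_sup_left)), if_neg hx,
        top_sup']

theorem ψ'_sup (hact : ∀ f s t, act f (s ⊔ t) = act f s ⊔ act f t) (hw : Closed act W)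
    (l : CL Y U F₀) (x y : WithBot U) : ψ' act W l (x ⊔ y) = ψ' act W l x ⊔ ψ' act W l y := by
  have e : ψ' act W l ⊥ = ⊥ := rfl
  induction x using WithBot.recBotCoe with
  | bot => rw [e, bot_sup_eq, bot_sup_eq]
  | coe a =>
    induction y using WithBot.recBotCoe with
    | bot => rw [e, sup_bot_eq, sup_bot_eq]
    | coe b => exact ψ_sup hact hw l a b

theorem cact_sup (hact : ∀ f s t, act f (s ⊔ t) = act f s ⊔ act f t) (hw : Closed act W)
    (l : CL Y U F₀) (a b : CS Y U) : cact act W l (a ⊔ b) = cact act W l a ⊔ cact act W l b := by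
  rcases cs_cases a with rfl | ⟨s, x, rfl⟩
  · rw [top_sup', cact_top, top_sup']
  rcases cs_cases b with rfl | ⟨t, y, rfl⟩
  · rw [sup_top', cact_top, sup_top']
  rw [el_sup, cact_el, cact_el, cact_el, φ_sup, ψ'_sup hact hw, sup_sup_sup_comm, el_sup,
    bot_sup_eq]

theorem cact_bot (l : CL Y U F₀) : cact act W l (⊥ : CS Y U) = ⊥ := by
  have e : cact act W l (el ⊥ ⊥ : CS Y U) = ⊥ := by
    rw [cact_el, φ_bot, el_bot, bot_sup_eq]
    rfl
  exact e

theorem fam_cact (hact : ∀ f s t, act f (s ⊔ t) = act f s ⊔ act f t) (hg : Good act W B Θ)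
    (l : CL Y U F₀) {a b : CS Y U} (h : fam W C B Θ a b) :
    fam W C B Θ (cact act W l a) (cact act W l b) := by
  rcases cs_cases a with rfl | ⟨s, x, rfl⟩
  · trivial
  have hfull : (C ∨ s ≠ ⊥) ∧ B (bar s) ⊤ → ∀ z, fam W C B Θ (cact act W l (el s x)) z := by
    intro h0 z
    rw [cact_el]
    refine fam_trans hg (fam_le hg le_sup_left) (fam_full ⟨?_, bar_φ_top hg.b l h0.2⟩ _ z)
    exact h0.1.imp id (φ_ne l)
  rcases cs_cases b with rfl | ⟨t, y, rfl⟩
  · exact hfull h _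
  by_cases h0 : (C ∨ s ≠ ⊥) ∧ B (bar s) ⊤
  · exact hfull h0 _
  rw [fam_el] at h
  obtain ⟨ha, hb, hc⟩ := h.resolve_left h0
  rw [cact_el l t y]
  refine fam_sup hg ?_ ?_
  · rw [cact_el]
    refine fam_trans hg (fam_le hg le_sup_left) ?_
    rw [fam_el]
    refine Or.inr ⟨fun ht => ?_, fun _ => Or.inl rfl, fun _ => Or.inl rfl⟩
    obtain ⟨h3, h4⟩ := ha (φ_ne' l ht)
    exact ⟨h3.imp id (φ_ne l), bar_φ hg.b l h4⟩
  · induction y using WithBot.recBotCoe with
    | bot => exact fam_le hg bot_le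
    | coe y =>
      induction x using WithBot.recBotCoe with
      | bot =>
        exfalso
        by_cases hs : C ∨ s ≠ ⊥
        · exact lift_bot_coe y (hb hs)
        · exact lift_bot_coe y (hc hs)
      | coe x =>
        rw [lift_coe] at hb hc
        rw [cact_el]
        change fam W C B Θ (el (φ l s) ⊥ ⊔ ψ act W l x) (ψ act W l y)
        -- the case of a second component
        have key : ∀ x' y' : U, (W x y → W x' y') → (Θ x y → Θ x' y') →
            fam W C B Θ (el (φ l s) ⊥ ⊔ el ⊥ (x' : WithBot U)) (el ⊥ (y' : WithBot U)) := by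
          intro x' y' h5 h6
          rw [el_sup, sup_bot_eq, bot_sup_eq, fam_el]
          refine Or.inr ⟨fun h => absurd rfl h, fun hs => ?_, fun hs => ?_⟩
          · rw [lift_coe]
            exact h5 (hb (hs.imp id (φ_ne' l)))
          · rw [lift_coe]
            exact h6 (hc fun h => hs (h.imp id (φ_ne l)))
        cases l with
        | y f => exact key x y id id
        | g f => exact key _ _ (hg.w.op f _ _) (hg.t.op f _ _)
        | lo => exact fam_le hg bot_le
        | hi =>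
          refine fam_trans hg (fam_le hg le_sup_right) ?_
          trivial
        | k a =>
          refine fam_trans hg (fam_le hg le_sup_right) ?_
          rw [ψ_k, ψ_k]
          by_cases hx : W a x
          · by_cases hy : W a y
            · rw [if_pos hx, if_pos hy]
              exact fam_le hg le_rfl
            · rw [if_pos hx, if_neg hy]
              have hxy : ¬ W x y := fun h => hy (hg.w.trans _ _ _ hx h)
              have hs : ¬ (C ∨ s ≠ ⊥) := fun h => hxy (hb h)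
              rcases hg.h with h | h
              · exact absurd (h _ _ (hc hs)) hxy
              · exact ⟨Or.inr WithBot.coe_ne_bot, h⟩
          · rw [if_neg hx]
            trivial

/-- the new system -/
noncomputable def cSys (Y : Sys1) {act : F₀ → U → U}
    (hact : ∀ f s t, act f (s ⊔ t) = act f s ⊔ act f t) {W : U → U → Prop}
    (hw : Closed act W) : Sys1 :=
  have hg : Good act W Y.R (fun x y => y ≤ x) :=
    { w := hw
      b := ⟨fun _ _ h => h, Y.R_trans, Y.R_sup, Y.R_op⟩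
      t :=
        { refl := fun _ _ h => h
          trans := fun _ _ _ h1 h2 => h2.trans h1
          sup := fun _ _ _ h1 h2 => sup_le h1 h2
          op := fun f s t h => by
            have h1 := hact f s t
            rw [sup_eq_left.2 h] at h1
            rw [h1]
            exact le_sup_right }
      h := Or.inl hw.refl }
  { S := CS Y U
    F := CL Y U F₀
    act := cact act W
    R := fam W False Y.R (fun x y => y ≤ x)
    act_sup := cact_sup hact hw
    act_bot := cact_bot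
    act_top := fun _ => rfl
    R_le := fun _ _ h => fam_le hg h
    R_trans := fun _ _ _ h1 h2 => fam_trans hg h1 h2
    R_sup := fun _ _ _ h1 h2 => fam_sup hg h1 h2
    R_op := fun l _ _ h => fam_cact hact hg l h }

/-- `{Θ // Closed act Θ}` -/
abbrev NN [SemilatticeSup U] (act : F₀ → U → U) : Type := {Θ : U → U → Prop // Closed act Θ}

/-- the relation of an element of the first factor -/
def thR (act : F₀ → U → U) (a : WithBot (NN act)ᵒᵈ) : U → U → Prop :=
  a.recBotCoe (fun x y => y ≤ x) (fun Θ => (OrderDual.ofDual Θ).1)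

theorem closed_le (hact : ∀ f s t, act f (s ⊔ t) = act f s ⊔ act f t) :
    Closed act (fun x y : U => y ≤ x) where
  refl := fun _ _ h => h
  trans := fun _ _ _ h1 h2 => h2.trans h1
  sup := fun _ _ _ h1 h2 => sup_le h1 h2
  op := fun f s t h => by
    have h1 := hact f s t
    rw [sup_eq_left.2 h] at h1
    rw [h1]
    exact le_sup_right

theorem thR_closed (hact : ∀ f s t, act f (s ⊔ t) = act f s ⊔ act f t)
    (a : WithBot (NN act)ᵒᵈ) : Closed act (thR act a) := by
  induction a using WithBot.recBotCoe with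
  | bot => exact closed_le hact
  | coe Θ => exact (OrderDual.ofDual Θ).2

theorem isTop_iff {Y : Sys1} (Θ : Y.CF) : IsTop Θ ↔ Θ.1 ⊥ ⊤ := by
  constructor
  · intro h
    exact h ⟨fun _ _ => True, ⟨fun _ _ _ => trivial, fun _ _ _ _ _ => trivial,
      fun _ _ _ _ _ => trivial, fun _ _ _ _ => trivial⟩⟩ ⊥ ⊤ trivial
  · intro h Ψ s t _
    exact Θ.2.trans _ _ _ (Θ.2.base _ _ (Y.R_le _ _ bot_le))
      (Θ.2.trans _ _ _ h (Θ.2.base _ _ (Y.R_le _ _ le_top)))

section surj

variable {hact : ∀ f s t, act f (s ⊔ t) = act f s ⊔ act f t} {hw : Closed act W}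

theorem r_el (s t : WithBot Y.S) (x y : WithBot U) :
    (cSys Y hact hw).R (el s x) (el t y) ↔ ((False ∨ s ≠ ⊥) ∧ Y.R (bar s) ⊤) ∨
      ((t ≠ ⊥ → (False ∨ s ≠ ⊥) ∧ Y.R (bar s) (bar t)) ∧ ((False ∨ s ≠ ⊥) → lift W x y) ∧
        (¬ (False ∨ s ≠ ⊥) → lift (fun x y => y ≤ x) x y)) := Iff.rfl

/-- the least element of the old system -/
def pp' (Y : Sys1) (U : Type) : CS Y U := el ((⊥ : Y.S) : WithBot Y.S) ⊥

theorem ex_le (Ψ : (cSys Y hact hw).CF) {s t : WithBot Y.S} {x y : WithBot U} (h1 : t ≤ s)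
    (h2 : y ≤ x) : Ψ.1 (el s x) (el t y) :=
  Ψ.2.base _ _ ((cSys Y hact hw).R_le _ _ ((el_le _ _ _ _).2 ⟨h1, h2⟩))

theorem ex_top_le (Ψ : (cSys Y hact hw).CF) (z : CS Y U) : Ψ.1 (none : CS Y U) z :=
  Ψ.2.base _ _ trivial

theorem ex_lo (Ψ : (cSys Y hact hw).CF) {s t : WithBot Y.S} {x y : WithBot U}
    (h : Ψ.1 (el s x) (el t y)) : Ψ.1 (el s ⊥) (el t ⊥) := by
  have h1 := Ψ.2.op (CL.lo : CL Y U F₀) _ _ h
  have e : ∀ (s : WithBot Y.S) (x : WithBot U),
      cact act W (CL.lo : CL Y U F₀) (el s x : CS Y U) = el s ⊥ := by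
    intro s x
    induction x using WithBot.recBotCoe <;> exact sup_bot_eq _
  have h2 : Ψ.1 (cact act W (CL.lo : CL Y U F₀) (el s x : CS Y U))
    (cact act W (CL.lo : CL Y U F₀) (el t y : CS Y U)) := h1
  rw [e, e] at h2
  exact h2

theorem ex_lo_top (Ψ : (cSys Y hact hw).CF) {s : WithBot Y.S} {x : WithBot U}
    (h : Ψ.1 (el s x) (none : CS Y U)) : Ψ.1 (el s ⊥) (none : CS Y U) := by
  have h1 := Ψ.2.op (CL.lo : CL Y U F₀) _ _ h
  have e : cact act W (CL.lo : CL Y U F₀) (el s x : CS Y U) = el s ⊥ := by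
    induction x using WithBot.recBotCoe <;> exact sup_bot_eq _
  have h2 : Ψ.1 (cact act W (CL.lo : CL Y U F₀) (el s x : CS Y U)) (none : CS Y U) := h1
  rw [e] at h2
  exact h2

/-- the condition `C` -/
def exC (Ψ : (cSys Y hact hw).CF) : Prop := Ψ.1 (el ⊥ ⊥) (pp' Y U)

/-- the relation `B` -/
def exB (Ψ : (cSys Y hact hw).CF) (s t : Y.S) : Prop :=
  Ψ.1 (el (s : WithBot Y.S) ⊥) (el (t : WithBot Y.S) ⊥)

/-- the relation `Θ` -/
def exT (Ψ : (cSys Y hact hw).CF) (x y : U) : Prop :=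
  Ψ.1 (el ⊥ (x : WithBot U)) (el ⊥ (y : WithBot U))

theorem exB_cl (Ψ : (cSys Y hact hw).CF) : Y.Cl (exB Ψ) where
  base s t h := Ψ.2.base _ _ (by
    show (cSys Y hact hw).R (el (s : WithBot Y.S) ⊥) (el (t : WithBot Y.S) ⊥)
    rw [r_el]
    exact Or.inr ⟨fun _ => ⟨Or.inr WithBot.coe_ne_bot, h⟩, fun _ => Or.inl rfl,
      fun _ => Or.inl rfl⟩)
  trans r s t h1 h2 := Ψ.2.trans _ _ _ h1 h2
  sup s t t' h1 h2 := Ψ.2.sup _ _ _ h1 h2
  op f s t h := by
    have h1 : Ψ.1 (cact act W (CL.y f) (el (s : WithBot Y.S) ⊥))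
      (cact act W (CL.y f) (el (t : WithBot Y.S) ⊥)) := Ψ.2.op (CL.y f : CL Y U F₀) _ _ h
    have e : ∀ s : Y.S, cact act W (CL.y f : CL Y U F₀) (el (s : WithBot Y.S) ⊥) =
        el ((Y.act f s : Y.S) : WithBot Y.S) ⊥ := fun s => sup_bot_eq _
    rw [e, e] at h1
    exact h1

theorem exT_cl (Ψ : (cSys Y hact hw).CF) : Closed act (exT Ψ) where
  refl x y h := ex_le Ψ le_rfl (WithBot.coe_le_coe.2 h)
  trans r s t h1 h2 := Ψ.2.trans _ _ _ h1 h2
  sup s t t' h1 h2 := Ψ.2.sup _ _ _ h1 h2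
  op f s t h := by
    have h1 : Ψ.1 (cact act W (CL.g f) (el ⊥ (s : WithBot U)))
      (cact act W (CL.g f) (el ⊥ (t : WithBot U))) := Ψ.2.op (CL.g f : CL Y U F₀) _ _ h
    have e : ∀ s : U, cact act W (CL.g f : CL Y U F₀) (el ⊥ (s : WithBot U)) =
        el ⊥ ((act f s : U) : WithBot U) := fun s => bot_sup_eq _
    rw [e, e] at h1
    exact h1

theorem coe_top_top (Ψ : (cSys Y hact hw).CF) :
    Ψ.1 (el ((⊤ : Y.S) : WithBot Y.S) ⊥) (none : CS Y U) :=
  Ψ.2.base _ _ ⟨Or.inr WithBot.coe_ne_bot, Y.R_le _ _ le_rfl⟩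

theorem ex_el_top (Ψ : (cSys Y hact hw).CF) (s : WithBot Y.S) (x : WithBot U) :
    Ψ.1 (el s x) (none : CS Y U) ↔ (exC Ψ ∨ s ≠ ⊥) ∧ exB Ψ (bar s) ⊤ := by
  have key : Ψ.1 (el s ⊥) (none : CS Y U) ↔ (exC Ψ ∨ s ≠ ⊥) ∧ exB Ψ (bar s) ⊤ := by
    induction s using WithBot.recBotCoe with
    | bot =>
      constructor
      · intro h
        exact ⟨Or.inl (Ψ.2.trans _ _ _ h (ex_top_le Ψ _)),
          Ψ.2.trans _ _ _ (ex_le Ψ bot_le le_rfl) (Ψ.2.trans _ _ _ h (ex_top_le Ψ _))⟩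
      · rintro ⟨h1, h2⟩
        exact Ψ.2.trans _ _ _ (h1.resolve_right fun h => h rfl)
          (Ψ.2.trans _ _ _ h2 (coe_top_top Ψ))
    | coe a =>
      constructor
      · intro h
        exact ⟨Or.inr WithBot.coe_ne_bot, Ψ.2.trans _ _ _ h (ex_top_le Ψ _)⟩
      · rintro ⟨-, h2⟩
        exact Ψ.2.trans _ _ _ h2 (coe_top_top Ψ)
  rw [← key]
  exact ⟨ex_lo_top Ψ, fun h => Ψ.2.trans _ _ _ (ex_le Ψ le_rfl bot_le) h⟩

theorem ex_hi (Ψ : (cSys Y hact hw).CF) {s : WithBot Y.S} {y : U}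
    (h : Ψ.1 (el s ⊥) (el ⊥ (y : WithBot U))) : Ψ.1 (el s ⊥) (none : CS Y U) := by
  have h1 : Ψ.1 (cact act W (CL.hi) (el s ⊥)) (cact act W (CL.hi) (el ⊥ (y : WithBot U))) :=
    Ψ.2.op (CL.hi : CL Y U F₀) _ _ h
  have e1 : cact act W (CL.hi : CL Y U F₀) (el s ⊥ : CS Y U) = el s ⊥ := sup_bot_eq _
  have e2 : cact act W (CL.hi : CL Y U F₀) (el ⊥ (y : WithBot U) : CS Y U) = (none : CS Y U) :=
    sup_top_eq _
  rw [e1, e2] at h1
  exact h1

theorem ex_k (Ψ : (cSys Y hact hw).CF) {s : WithBot Y.S} {x y : U} (hxy : ¬ W x y)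
    (h : Ψ.1 (el s (x : WithBot U)) (el ⊥ (y : WithBot U))) :
    Ψ.1 (el (s ⊔ ((⊥ : Y.S) : WithBot Y.S)) ⊥) (none : CS Y U) := by
  classical
  have h1 : Ψ.1 (cact act W (CL.k x) (el s (x : WithBot U)))
    (cact act W (CL.k x) (el ⊥ (y : WithBot U))) := Ψ.2.op (CL.k x : CL Y U F₀) _ _ h
  have e1 : cact act W (CL.k x : CL Y U F₀) (el s (x : WithBot U) : CS Y U) =
      el (s ⊔ ((⊥ : Y.S) : WithBot Y.S)) ⊥ := by
    show el s ⊥ ⊔ ψ act W (CL.k x : CL Y U F₀) x = _
    rw [ψ_k, if_pos (hw.refl _ _ le_rfl), el_sup, sup_idem]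
  have e2 : cact act W (CL.k x : CL Y U F₀) (el ⊥ (y : WithBot U) : CS Y U) =
      (none : CS Y U) := by
    show el ⊥ ⊥ ⊔ ψ act W (CL.k x : CL Y U F₀) y = _
    rw [ψ_k, if_neg hxy, sup_top']
  rw [e1, e2] at h1
  exact h1

/-- the closed relations of the new system are determined by the three parameters -/
theorem ex_eq (Ψ : (cSys Y hact hw).CF) (Θ : U → U → Prop) (hΘ : ¬ exC Ψ → Θ = exT Ψ)
    (a b : CS Y U) : Ψ.1 a b ↔ fam W (exC Ψ) (exB Ψ) Θ a b := by
  rcases cs_cases a with rfl | ⟨s, x, rfl⟩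
  · exact ⟨fun _ => trivial, fun _ => ex_top_le Ψ _⟩
  rcases cs_cases b with rfl | ⟨t, y, rfl⟩
  · rw [fam_el_top]
    exact ex_el_top Ψ s x
  rw [fam_el]
  constructor
  · intro h
    by_cases h0 : (exC Ψ ∨ s ≠ ⊥) ∧ exB Ψ (bar s) ⊤
    · exact Or.inl h0
    have h0' : ∀ x, ¬ Ψ.1 (el s x) (none : CS Y U) := fun x hx => h0 ((ex_el_top Ψ s x).1 hx)
    have h1 := ex_lo Ψ h
    have h2 : Ψ.1 (el s x) (el ⊥ y) := Ψ.2.trans _ _ _ h (ex_le Ψ bot_le le_rfl)
    refine Or.inr ⟨fun ht => ?_, fun hs => ?_, fun hs => ?_⟩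
    · induction t using WithBot.recBotCoe with
      | bot => exact absurd rfl ht
      | coe c =>
        induction s using WithBot.recBotCoe with
        | bot =>
          exact ⟨Or.inl (Ψ.2.trans _ _ _ h1 (ex_le Ψ (WithBot.coe_le_coe.2 bot_le) le_rfl)),
            Ψ.2.trans _ _ _ (ex_le Ψ bot_le le_rfl) h1⟩
        | coe a => exact ⟨Or.inr WithBot.coe_ne_bot, h1⟩
    · induction y using WithBot.recBotCoe with
      | bot => exact Or.inl rfl
      | coe y =>
        induction x using WithBot.recBotCoe with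
        | bot => exact absurd (ex_hi Ψ h2) (h0' _)
        | coe x =>
          rw [lift_coe]
          by_contra hxy
          have h3 := ex_k Ψ hxy h2
          apply h0' ⊥
          refine Ψ.2.trans _ _ _ ?_ h3
          induction s using WithBot.recBotCoe with
          | bot =>
            rw [bot_sup_eq]
            exact hs.resolve_right fun h => h rfl
          | coe a =>
            refine ex_le Ψ ?_ le_rfl
            exact sup_le le_rfl (WithBot.coe_le_coe.2 bot_le)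
    · push Not at hs
      obtain ⟨hC, rfl⟩ := hs
      rw [hΘ hC]
      induction y using WithBot.recBotCoe with
      | bot => exact Or.inl rfl
      | coe y =>
        induction x using WithBot.recBotCoe with
        | bot => exact absurd (ex_hi Ψ h2) (h0' _)
        | coe x =>
          rw [lift_coe]
          exact h2
  · rintro (h | ⟨ha, hb, hc⟩)
    · exact Ψ.2.trans _ _ _ ((ex_el_top Ψ s x).2 h) (ex_top_le Ψ _)
    · have h1 : Ψ.1 (el s x) (el t ⊥) := by
        induction t using WithBot.recBotCoe with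
        | bot => exact ex_le Ψ bot_le bot_le
        | coe c =>
          obtain ⟨h3, h4⟩ := ha WithBot.coe_ne_bot
          refine Ψ.2.trans _ _ _ (ex_le Ψ le_rfl bot_le) ?_
          induction s using WithBot.recBotCoe with
          | bot => exact Ψ.2.trans _ _ _ (h3.resolve_right fun h => h rfl) h4
          | coe a => exact h4
      have h2 : Ψ.1 (el s x) (el ⊥ y) := by
        by_cases hs : exC Ψ ∨ s ≠ ⊥
        · rcases hb hs with rfl | ⟨x, y, rfl, rfl, hxy⟩
          · exact ex_le Ψ bot_le bot_le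
          · have h3 : Ψ.1 (el s (x : WithBot U))
                (el ((⊥ : Y.S) : WithBot Y.S) (x : WithBot U)) := by
              induction s using WithBot.recBotCoe with
              | bot =>
                have h4 := Ψ.2.sup (el ⊥ (x : WithBot U)) (el ⊥ (x : WithBot U)) (pp' Y U)
                  (ex_le Ψ le_rfl le_rfl)
                  (Ψ.2.trans _ _ _ (ex_le Ψ le_rfl bot_le) (hs.resolve_right fun h => h rfl))
                exact Ψ.2.trans _ _ _ h4 (ex_le Ψ le_sup_right le_sup_left)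
              | coe a => exact ex_le Ψ (WithBot.coe_le_coe.2 bot_le) le_rfl
            have h4 : Ψ.1 (el ((⊥ : Y.S) : WithBot Y.S) (x : WithBot U))
                (el ((⊥ : Y.S) : WithBot Y.S) (y : WithBot U)) := by
              refine Ψ.2.base _ _ ?_
              show (cSys Y hact hw).R _ _
              rw [r_el]
              exact Or.inr ⟨fun _ => ⟨Or.inr WithBot.coe_ne_bot, Y.R_le _ _ le_rfl⟩,
                fun _ => (lift_coe _ _).2 hxy, fun h => absurd (Or.inr WithBot.coe_ne_bot) h⟩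
            exact Ψ.2.trans _ _ _ h3 (Ψ.2.trans _ _ _ h4 (ex_le Ψ bot_le le_rfl))
        · have hs' := hs
          push Not at hs'
          obtain ⟨hC, rfl⟩ := hs'
          have h3 := hc hs
          rw [hΘ hC] at h3
          rcases h3 with rfl | ⟨x, y, rfl, rfl, hxy⟩
          · exact ex_le Ψ bot_le bot_le
          · exact hxy
      have h3 := Ψ.2.sup _ _ _ h1 h2
      refine Ψ.2.trans _ _ _ h3 (ex_le Ψ le_sup_left le_sup_right)

end surj

theorem good_of (hact : ∀ f s t, act f (s ⊔ t) = act f s ⊔ act f t) (hw : Closed act W)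
    (a : WithBot (NN act)ᵒᵈ) (B : Y.CF)
    (h : a = ⊥ ∨ B.1 ⊥ ⊤ ∨ ((OrderDual.toDual ⟨W, hw⟩ : (NN act)ᵒᵈ) : WithBot _) ≤ a) :
    Good act W B.1 (thR act a) where
  w := hw
  b := B.2
  t := thR_closed hact a
  h := by
    rcases h with rfl | h | h
    · exact Or.inl hw.refl
    · exact Or.inr h
    · left
      induction a using WithBot.recBotCoe with
      | bot => exact hw.refl
      | coe Θ =>
        rw [WithBot.coe_le_coe] at h
        exact h

theorem fam_cl (hact : ∀ f s t, act f (s ⊔ t) = act f s ⊔ act f t) (hg : Good act W B Θ) :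
    (cSys Y hact hg.w).Cl (fam W C B Θ) where
  base a b h := by
    rcases cs_cases a with rfl | ⟨s, x, rfl⟩
    · trivial
    rcases cs_cases b with rfl | ⟨t, y, rfl⟩
    · have h' : (False ∨ s ≠ ⊥) ∧ Y.R (bar s) ⊤ := h
      exact ⟨Or.inr (h'.1.resolve_left id), hg.b.base _ _ h'.2⟩
    · rw [r_el] at h
      rw [fam_el]
      rcases h with h | ⟨ha, hb, hc⟩
      · exact Or.inl ⟨Or.inr (h.1.resolve_left id), hg.b.base _ _ h.2⟩
      · have h1 : (s ≠ ⊥ → lift W x y) ∧ (s = ⊥ → lift (fun x y : U => y ≤ x) x y) :=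
          ⟨fun h => hb (Or.inr h), fun h => hc (by simp [h])⟩
        refine Or.inr ⟨fun ht => ?_, fun _ => ?_, fun _ => ?_⟩
        · obtain ⟨h2, h3⟩ := ha ht
          exact ⟨Or.inr (h2.resolve_left id), hg.b.base _ _ h3⟩
        · by_cases hs : s = ⊥
          · exact lift_mono hg.w.refl (h1.2 hs)
          · exact h1.1 hs
        · rename_i hs
          push Not at hs
          exact lift_mono hg.t.refl (h1.2 hs.2)
  trans _ _ _ h1 h2 := fam_trans hg h1 h2
  sup _ _ _ h1 h2 := fam_sup hg h1 h2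
  op l _ _ h := fam_cact hact hg l h

/-- representability by systems with one sort is preserved by cuts -/
theorem rep1_cut {β : Type} [PartialOrder β] (hβ : Rep1 β)
    (hact : ∀ f s t, act f (s ⊔ t) = act f s ⊔ act f t) (Ω : NN act) :
    Rep1 (Cut (WithBot (NN act)ᵒᵈ) β ((OrderDual.toDual Ω : (NN act)ᵒᵈ) : WithBot _)) := by
  obtain ⟨Y, ⟨e⟩⟩ := hβ
  obtain ⟨W, hw⟩ := Ω
  let eb : β → Y.CF := fun b => OrderDual.ofDual (e b)
  have eb_le : ∀ b b', b ≤ b' ↔ eb b' ≤ eb b := by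
    intro b b'
    rw [← e.le_iff_le]
    exact Iff.rfl
  have eb_bot : ∀ b, IsBot b ↔ (eb b).1 ⊥ ⊤ := by
    intro b
    rw [← isTop_iff]
    constructor
    · intro h Θ
      have h1 := h (e.symm (OrderDual.toDual Θ))
      rw [OrderIso.le_symm_apply] at h1
      exact h1
    · intro h b'
      rw [eb_le]
      exact h _
  have hgd : ∀ z : Cut (WithBot (NN act)ᵒᵈ) β
      ((OrderDual.toDual ⟨W, hw⟩ : (NN act)ᵒᵈ) : WithBot _),
      Good act W (eb z.1.2).1 (thR act z.1.1) := by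
    intro z
    refine good_of hact hw _ _ ?_
    rcases z.2 with h | h | h
    · exact Or.inl (le_bot_iff.1 (h ⊥))
    · exact Or.inr (Or.inl ((eb_bot _).1 h))
    · exact Or.inr (Or.inr h)
  let g : Cut (WithBot (NN act)ᵒᵈ) β ((OrderDual.toDual ⟨W, hw⟩ : (NN act)ᵒᵈ) : WithBot _) →
      (cSys Y hact hw).CFᵒᵈ := fun z =>
    OrderDual.toDual ⟨fam W (z.1.1 = ⊥) (eb z.1.2).1 (thR act z.1.1), fam_cl hact (hgd z)⟩
  have hle : ∀ z z', g z ≤ g z' ↔ z ≤ z' := by
    intro z z'
    constructor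
    · intro h
      have h' : ∀ a b, fam W (z'.1.1 = ⊥) (eb z'.1.2).1 (thR act z'.1.1) a b →
          fam W (z.1.1 = ⊥) (eb z.1.2).1 (thR act z.1.1) a b := h
      obtain ⟨⟨a, b⟩, hz⟩ := z
      obtain ⟨⟨a', b'⟩, hz'⟩ := z'
      change ∀ x y, fam W (a' = ⊥) (eb b').1 (thR act a') x y →
          fam W (a = ⊥) (eb b).1 (thR act a) x y at h'
      have hb : b ≤ b' := by
        rw [eb_le]
        intro s t hst
        have h1 := h' (el (s : WithBot Y.S) ⊥) (el (t : WithBot Y.S) ⊥)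
          (Or.inr ⟨fun _ => ⟨Or.inr WithBot.coe_ne_bot, hst⟩, fun _ => Or.inl rfl,
            fun _ => Or.inl rfl⟩)
        rw [fam_el] at h1
        rcases h1 with h1 | h1
        · exact (eb b).2.trans _ _ _ h1.2 ((eb b).2.base _ _ (Y.R_le _ _ le_top))
        · exact (h1.1 WithBot.coe_ne_bot).2
      have ha : a ≤ a' := by
        induction a using WithBot.recBotCoe with
        | bot => exact bot_le
        | coe Θ =>
          induction a' using WithBot.recBotCoe with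
          | bot =>
            exfalso
            have h1 := h' (el ⊥ ⊥) (pp' Y U) (Or.inr ⟨fun _ => ⟨Or.inl rfl,
              (eb b').2.base _ _ (Y.R_le _ _ le_rfl)⟩, fun _ => Or.inl rfl, fun _ => Or.inl rfl⟩)
            unfold pp' at h1
            rw [fam_el] at h1
            have h2 : ¬ (((Θ : WithBot (NN act)ᵒᵈ) = ⊥) ∨ (⊥ : WithBot Y.S) ≠ ⊥) := by
              rintro (h | h)
              · exact WithBot.coe_ne_bot h
              · exact h rfl
            rcases h1 with h1 | h1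
            · exact h2 h1.1
            · exact h2 (h1.1 WithBot.coe_ne_bot).1
          | coe Θ' =>
            rw [WithBot.coe_le_coe]
            show (OrderDual.ofDual Θ').1 ≤ (OrderDual.ofDual Θ).1
            intro x y hxy
            have h2 : ∀ Ξ : (NN act)ᵒᵈ,
                ¬ (((Ξ : WithBot (NN act)ᵒᵈ) = ⊥) ∨ (⊥ : WithBot Y.S) ≠ ⊥) := by
              rintro Ξ (h | h)
              · exact WithBot.coe_ne_bot h
              · exact h rfl
            have h1 := h' (el ⊥ (x : WithBot U)) (el ⊥ (y : WithBot U))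
              (Or.inr ⟨fun h => absurd rfl h, fun h => absurd h (h2 _),
                fun _ => (lift_coe _ _).2 hxy⟩)
            rw [fam_el] at h1
            rcases h1 with h1 | h1
            · exact absurd h1.1 (h2 _)
            · exact (lift_coe _ _).1 (h1.2.2 (h2 _))
      exact (⟨ha, hb⟩ : (a, b) ≤ (a', b'))
    · intro h
      have hgz := hgd z
      have hgz' := hgd z'
      obtain ⟨⟨a, b⟩, hz⟩ := z
      obtain ⟨⟨a', b'⟩, hz'⟩ := z'
      change Good act W (eb b).1 (thR act a) at hgz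
      change Good act W (eb b').1 (thR act a') at hgz'
      have ha : a ≤ a' := h.1
      have hb : eb b' ≤ eb b := (eb_le _ _).1 h.2
      have hC : a' = ⊥ → a = ⊥ := fun h => le_bot_iff.1 (h ▸ ha)
      show ∀ x y, fam W (a' = ⊥) (eb b').1 (thR act a') x y →
          fam W (a = ⊥) (eb b).1 (thR act a) x y
      intro p q hpq
      rcases cs_cases p with rfl | ⟨s, x, rfl⟩
      · trivial
      by_cases h0 : (a = ⊥ ∨ s ≠ ⊥) ∧ (eb b).1 (bar s) ⊤
      · exact fam_full h0 x _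
      have h0' : ¬ ((a' = ⊥ ∨ s ≠ ⊥) ∧ (eb b').1 (bar s) ⊤) :=
        fun h => h0 ⟨h.1.imp hC id, hb _ _ h.2⟩
      rcases cs_cases q with rfl | ⟨t, y, rfl⟩
      · exact absurd hpq h0'
      rw [fam_el] at hpq ⊢
      obtain ⟨h1, h2, h3⟩ := hpq.resolve_left h0'
      refine Or.inr ⟨fun ht => ?_, fun hs => ?_, fun hs => ?_⟩
      · exact ⟨(h1 ht).1.imp hC id, hb _ _ (h1 ht).2⟩
      · by_cases hs' : a' = ⊥ ∨ s ≠ ⊥
        · exact h2 hs'
        · refine lift_mono ?_ (h3 hs')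
          rcases hgz'.h with h | h
          · exact h
          · exact absurd ⟨hs, (eb b).2.trans _ _ _ ((eb b).2.base _ _ (Y.R_le _ _ bot_le))
              (hb _ _ h)⟩ h0
      · have hs' : ¬ (a' = ⊥ ∨ s ≠ ⊥) := fun h => hs (h.imp hC id)
        refine lift_mono ?_ (h3 hs')
        have ha0 : a ≠ ⊥ := fun h => hs (Or.inl h)
        have ha0' : a' ≠ ⊥ := fun h => hs' (Or.inl h)
        obtain ⟨Θ, rfl⟩ := WithBot.ne_bot_iff_exists.1 ha0
        obtain ⟨Θ', rfl⟩ := WithBot.ne_bot_iff_exists.1 ha0'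
        rw [WithBot.coe_le_coe] at ha
        exact ha
  have hs : Function.Surjective g := by
    intro Ψ
    obtain ⟨Ψ, rfl⟩ := OrderDual.toDual.surjective Ψ
    classical
    let a : WithBot (NN act)ᵒᵈ := if exC Ψ then ⊥ else
      ((OrderDual.toDual ⟨exT Ψ, exT_cl Ψ⟩ : (NN act)ᵒᵈ) : WithBot _)
    let b : β := e.symm (OrderDual.toDual ⟨exB Ψ, exB_cl Ψ⟩)
    have hb : eb b = ⟨exB Ψ, exB_cl Ψ⟩ := by
      show OrderDual.ofDual (e (e.symm _)) = _
      rw [OrderIso.apply_symm_apply]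
      rfl
    have ha : a = ⊥ ↔ exC Ψ := by
      by_cases hC : exC Ψ
      · exact ⟨fun _ => hC, fun _ => if_pos hC⟩
      · refine ⟨fun h => ?_, fun h => absurd h hC⟩
        exfalso
        have h1 : a = ((OrderDual.toDual ⟨exT Ψ, exT_cl Ψ⟩ : (NN act)ᵒᵈ) : WithBot _) :=
          if_neg hC
        rw [h1] at h
        exact WithBot.coe_ne_bot h
    have hT : ¬ exC Ψ → thR act a = exT Ψ := by
      intro hC
      have h1 : a = ((OrderDual.toDual ⟨exT Ψ, exT_cl Ψ⟩ : (NN act)ᵒᵈ) : WithBot _) :=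
        if_neg hC
      rw [h1]
      rfl
    have hm : IsBot a ∨ IsBot b ∨
        ((OrderDual.toDual ⟨W, hw⟩ : (NN act)ᵒᵈ) : WithBot _) ≤ a := by
      by_cases hC : exC Ψ
      · left
        rw [ha.2 hC]
        exact isBot_bot
      · by_cases hTW : ∀ x y, exT Ψ x y → W x y
        · right; right
          have h1 : a = ((OrderDual.toDual ⟨exT Ψ, exT_cl Ψ⟩ : (NN act)ᵒᵈ) : WithBot _) :=
            if_neg hC
          rw [h1, WithBot.coe_le_coe]
          exact hTW
        · right; left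
          push Not at hTW
          obtain ⟨x, y, h1, h2⟩ := hTW
          rw [eb_bot, hb]
          have h3 := ex_k Ψ h2 h1
          rw [bot_sup_eq] at h3
          exact Ψ.2.trans _ _ _ h3 (ex_top_le Ψ _)
    refine ⟨⟨(a, b), hm⟩, ?_⟩
    show OrderDual.toDual _ = OrderDual.toDual _
    congr 1
    apply Subtype.ext
    funext p q
    apply propext
    show fam W (a = ⊥) (eb b).1 (thR act a) p q ↔ Ψ.1 p q
    rw [hb, ex_eq Ψ (thR act a) hT, propext ha]
  exact ⟨cSys Y hact hw, ⟨RelIso.ofSurjective (OrderEmbedding.ofMapLEIff g hle) hs⟩⟩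

end MCut

end C5E17
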