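import Pool.Agent.Lib.MP_c5e17c_al.MS.PSum

/-!
# MP_c5e17c_al, project MS: systems whose sorts have different semilattices
-/

set_option autoImplicit false

namespace C5E17

/-- many-sorted semilattices with operators, the semilattices depending on the sort -/
structure DSys where
  ι : Type
  S : ι → Type
  F : Type
  [fin : Fintype ι]
  [dec : DecidableEq ι]
  [sl : ∀ i, SemilatticeSup (S i)]
  [ob : ∀ i, OrderBot (S i)]
  [ot : ∀ i, OrderTop (S i)]
  src : F → ι
  tgt : F → ι
  act : ∀ f : F, S (tgt f) → S (src f)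
  R : ∀ i, S i → S i → Prop
  act_sup : ∀ f s t, act f (s ⊔ t) = act f s ⊔ act f t
  act_bot : ∀ f, act f ⊥ = ⊥
  act_top : ∀ f, act f ⊤ = ⊤
  R_le : ∀ i s t, t ≤ s → R i s t
  R_trans : ∀ i r s t, R i r s → R i s t → R i r t
  R_sup : ∀ i s t t', R i s t → R i s t' → R i s (t ⊔ t')
  R_op : ∀ f s t, R (tgt f) s t → R (src f) (act f s) (act f t)

attribute [instance] DSys.fin DSys.dec DSys.sl DSys.ob DSys.ot

namespace DSys

variable (D : DSys)

/-- closed families of a system with different semilattices -/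
structure Cl (Θ : ∀ i, D.S i → D.S i → Prop) : Prop where
  base : ∀ i s t, D.R i s t → Θ i s t
  trans : ∀ i r s t, Θ i r s → Θ i s t → Θ i r t
  sup : ∀ i s t t', Θ i s t → Θ i s t' → Θ i s (t ⊔ t')
  op : ∀ f s t, Θ (D.tgt f) s t → Θ (D.src f) (D.act f s) (D.act f t)

/-- the ordered set of closed families -/
def CF : Type := {Θ : ∀ i, D.S i → D.S i → Prop // D.Cl Θ}

instance : PartialOrder D.CF :=
  inferInstanceAs (PartialOrder {Θ : ∀ i, D.S i → D.S i → Prop // D.Cl Θ})

/-- the system with one semilattice -/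
def toSys : Sys where
  ι := D.ι
  S := ∀ i, D.S i
  F := D.F
  src := D.src
  tgt := D.tgt
  act f s := Function.update s (D.src f) (D.act f (s (D.tgt f)))
  R i s t := D.R i (s i) (t i)
  act_sup f s t := by
    funext q
    by_cases hq : q = D.src f
    · subst hq
      simp [D.act_sup]
    · simp [hq]
  act_bot f := by
    funext q
    by_cases hq : q = D.src f
    · subst hq
      simp [D.act_bot]
    · simp [hq]
  act_top f := by
    funext q
    by_cases hq : q = D.src f
    · subst hq
      simp [D.act_top]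
    · simp [hq]
  R_le i s t h := by
    have h' : ∀ p, t p ≤ s p := h
    exact D.R_le _ _ _ (h' i)
  R_trans i r s t h1 h2 := D.R_trans _ _ _ _ h1 h2
  R_sup i s t t' h1 h2 := D.R_sup _ _ _ _ h1 h2
  R_op f s t h := by
    rw [Function.update_self, Function.update_self]
    exact D.R_op f _ _ h

/-- the embedding of a sort -/
def em (i : D.ι) (a : D.S i) : ∀ i, D.S i := Function.update ⊥ i a

theorem em_self (i : D.ι) (a : D.S i) : D.em i a i = a := by simp [em]

theorem eq_em (Θ : D.toSys.CF) (i : D.ι) (s t : ∀ i, D.S i) :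
    Θ.1 i s t ↔ Θ.1 i (D.em i (s i)) (D.em i (t i)) := by
  have h1 : ∀ s t : ∀ i, D.S i, s i = t i → Θ.1 i s t := by
    intro s t h
    refine Θ.2.base i s t ?_
    show D.R i (s i) (t i)
    rw [h]
    exact D.R_le _ _ _ le_rfl
  constructor
  · intro h
    exact Θ.2.trans _ _ _ _ (h1 _ s (D.em_self i _))
      (Θ.2.trans _ _ _ _ h (h1 t _ (D.em_self i _).symm))
  · intro h
    exact Θ.2.trans _ _ _ _ (h1 s _ (D.em_self i _).symm)
      (Θ.2.trans _ _ _ _ h (h1 _ t (D.em_self i _)))

/-- the two ordered sets of closed families are isomorphic -/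
theorem iso_toSys : Nonempty (D.CF ≃o D.toSys.CF) := by
  let g : D.CF → D.toSys.CF := fun Θ => ⟨fun i s t => Θ.1 i (s i) (t i),
    ⟨fun i s t h => Θ.2.base _ _ _ h, fun i r s t h1 h2 => Θ.2.trans _ _ _ _ h1 h2,
      fun i s t t' h1 h2 => Θ.2.sup _ _ _ _ h1 h2, fun f s t h => by
        show Θ.1 (D.src f) (Function.update s (D.src f) (D.act f (s (D.tgt f))) (D.src f))
          (Function.update t (D.src f) (D.act f (t (D.tgt f))) (D.src f))
        rw [Function.update_self, Function.update_self]
        exact Θ.2.op f _ _ h⟩⟩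
  have hle : ∀ Θ Ψ, g Θ ≤ g Ψ ↔ Θ ≤ Ψ := by
    intro Θ Ψ
    constructor
    · intro h i a b hab
      have h1 := h i (D.em i a) (D.em i b) (by
        show Θ.1 i (D.em i a i) (D.em i b i)
        rw [em_self, em_self]
        exact hab)
      have h2 : Ψ.1 i (D.em i a i) (D.em i b i) := h1
      rw [em_self, em_self] at h2
      exact h2
    · intro h i s t hst
      exact h i _ _ hst
  have hs : Function.Surjective g := by
    intro Θ
    refine ⟨⟨fun i a b => Θ.1 i (D.em i a) (D.em i b), ⟨?_, ?_, ?_, ?_⟩⟩, ?_⟩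
    · intro i a b h
      refine Θ.2.base i (D.em i a) (D.em i b) ?_
      show D.R i (D.em i a i) (D.em i b i)
      rw [em_self, em_self]
      exact h
    · intro i r s t h1 h2
      exact Θ.2.trans _ _ _ _ h1 h2
    · intro i s t t' h1 h2
      have h3 := Θ.2.sup i _ _ _ h1 h2
      have h4 := (D.eq_em Θ i _ _).1 h3
      have h5 : Θ.1 i (D.em i (D.em i s i)) (D.em i (D.em i t i ⊔ D.em i t' i)) := h4
      rw [em_self, em_self, em_self] at h5
      exact h5
    · intro f s t h
      have h1 := Θ.2.op f _ _ h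
      have h2 := (D.eq_em Θ _ _ _).1 h1
      have e : ∀ s, (D.toSys.act f (D.em (D.tgt f) s) : ∀ i, D.S i) (D.src f) = D.act f s := by
        intro s
        show Function.update (D.em (D.tgt f) s) (D.src f)
          (D.act f (D.em (D.tgt f) s (D.tgt f))) (D.src f) = _
        rw [Function.update_self, em_self]
      have h3 : Θ.1 (D.src f) (D.em (D.src f) ((D.toSys.act f (D.em (D.tgt f) s) :
        ∀ i, D.S i) (D.src f))) (D.em (D.src f) ((D.toSys.act f (D.em (D.tgt f) t) :
        ∀ i, D.S i) (D.src f))) := h2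
      rw [e, e] at h3
      exact h3
    · apply Subtype.ext
      funext i s t
      exact propext (D.eq_em Θ i s t).symm
  exact ⟨RelIso.ofSurjective (OrderEmbedding.ofMapLEIff g hle) hs⟩

/-- the dual of the ordered set of closed families is representable -/
theorem repMS : RepMS D.CFᵒᵈ := by
  obtain ⟨e⟩ := D.iso_toSys
  exact ⟨D.toSys, ⟨e.dual⟩⟩

end DSys

end C5E17
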