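import Pool.Agent.Lib.MP_c5e17c_al.OA.Defs

/-!
# MP_c5e17c_al, project MS: many-sorted semilattices with operators

`Sys`: finitely many sorts; the sort `i` carries the join semilattice `S` (with `⊥`, `⊤`) modulo
the relation `R i`; every operator `f` is a join homomorphism from the sort `tgt f` to the sort
`src f` which preserves `⊥` and `⊤`.
`Sys.Cl`: the closed families of relations (one relation for every sort).
`KAx`: the quasivariety attached to a system.
-/

set_option autoImplicit false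

namespace C5E17

open FirstOrder

/-- a many-sorted semilattice with operators -/
structure Sys where
  /-- the sorts -/
  ι : Type
  /-- the elements -/
  S : Type
  /-- the operators -/
  F : Type
  [fin : Fintype ι]
  [dec : DecidableEq ι]
  [sl : SemilatticeSup S]
  [ob : OrderBot S]
  [ot : OrderTop S]
  src : F → ι
  tgt : F → ι
  act : F → S → S
  R : ι → S → S → Prop
  act_sup : ∀ f s t, act f (s ⊔ t) = act f s ⊔ act f t
  act_bot : ∀ f, act f ⊥ = ⊥
  act_top : ∀ f, act f ⊤ = ⊤
  R_le : ∀ i s t, t ≤ s → R i s t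
  R_trans : ∀ i r s t, R i r s → R i s t → R i r t
  R_sup : ∀ i s t t', R i s t → R i s t' → R i s (t ⊔ t')
  R_op : ∀ f s t, R (tgt f) s t → R (src f) (act f s) (act f t)

attribute [instance] Sys.fin Sys.dec Sys.sl Sys.ob Sys.ot

variable {Y : Sys}

/-- closed families -/
structure Sys.Cl (Y : Sys) (Θ : Y.ι → Y.S → Y.S → Prop) : Prop where
  base : ∀ i s t, Y.R i s t → Θ i s t
  trans : ∀ i r s t, Θ i r s → Θ i s t → Θ i r t
  sup : ∀ i s t t', Θ i s t → Θ i s t' → Θ i s (t ⊔ t')
  op : ∀ f s t, Θ (Y.tgt f) s t → Θ (Y.src f) (Y.act f s) (Y.act f t)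

/-- the ordered set of closed families -/
def Sys.CF (Y : Sys) : Type := {Θ : Y.ι → Y.S → Y.S → Prop // Y.Cl Θ}

instance (Y : Sys) : PartialOrder Y.CF :=
  inferInstanceAs (PartialOrder {Θ : Y.ι → Y.S → Y.S → Prop // Y.Cl Θ})

/-- `α` is isomorphic to the dual of the ordered set of closed families of some system -/
def RepMS (α : Type) [LE α] : Prop := ∃ Y : Sys, Nonempty (α ≃o Y.CFᵒᵈ)

/-! ### The signature and the quasivariety -/

/-- function symbols -/
inductive FunY (Y : Sys) : ℕ → Type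
  | o : FunY Y 0
  | u (f : Y.F) : FunY Y 1
  | d (i : Y.ι) : FunY Y 2

/-- relation symbols -/
inductive RelY (Y : Sys) : ℕ → Type
  | P (i : Y.ι) (s : Y.S) : RelY Y 1

/-- the signature -/
def LY (Y : Sys) : FirstOrder.Language.{0, 0} := ⟨FunY Y, RelY Y⟩

/-- the point -/
def oo (A : Str (LY Y)) : A.carrier :=
  FirstOrder.Language.Structure.funMap (L := LY Y) (FunY.o : FunY Y 0) ![]

/-- the operation `u_f` -/
def uu (A : Str (LY Y)) (f : Y.F) (x : A.carrier) : A.carrier :=
  FirstOrder.Language.Structure.funMap (L := LY Y) (FunY.u f : FunY Y 1) ![x]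

/-- the operation `d_i` -/
def dd (A : Str (LY Y)) (i : Y.ι) (x y : A.carrier) : A.carrier :=
  FirstOrder.Language.Structure.funMap (L := LY Y) (FunY.d i : FunY Y 2) ![x, y]

/-- the predicate `P_{i,s}` -/
def pp (A : Str (LY Y)) (i : Y.ι) (s : Y.S) (x : A.carrier) : Prop :=
  FirstOrder.Language.Structure.RelMap (L := LY Y) (RelY.P i s : RelY Y 1) ![x]

/-- the component of sort `i` -/
def cp (A : Str (LY Y)) (i : Y.ι) (x : A.carrier) : A.carrier := dd A i (oo A) x

/-- the action of words (the head is applied last) -/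
def uW (A : Str (LY Y)) : List Y.F → A.carrier → A.carrier
  | [], x => x
  | f :: w, x => uu A f (uW A w x)

/-- the axioms of the quasivariety attached to `Y` -/
structure YAx (A : Str (LY Y)) : Prop where
  ext : ∀ x y, (∀ i, cp A i x = cp A i y) → x = y
  cp_d : ∀ i x y, cp A i (dd A i x y) = cp A i y
  cp_d' : ∀ i j x y, i ≠ j → cp A i (dd A j x y) = cp A i x
  cp_o : ∀ i, cp A i (oo A) = oo A
  u_cp : ∀ f x, uu A f (cp A (Y.src f) x) = uu A f x
  cp_u : ∀ f x, cp A (Y.tgt f) (uu A f x) = uu A f x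
  u_o : ∀ f, uu A f (oo A) = oo A
  inj : ∀ f x y, uu A f x = uu A f y → cp A (Y.src f) x = cp A (Y.src f) y
  disj : ∀ f g, f ≠ g → ∀ x y, uu A f x = uu A g y → cp A (Y.src f) x = oo A
  acyc : ∀ w, w ≠ [] → ∀ x, uW A w x = x → x = oo A
  base : ∀ i s t, Y.R i s t → ∀ x, pp A i s x → pp A i t x
  sup : ∀ i s t x, pp A i s x → pp A i t x → pp A i (s ⊔ t) x
  bot : ∀ i x, pp A i ⊥ x
  top : ∀ i x, pp A i ⊤ x → cp A i x = oo A
  pr_o : ∀ i s, pp A i s (oo A)
  pr_cp : ∀ i s x, pp A i s (cp A i x) ↔ pp A i s x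
  op : ∀ f s x, pp A (Y.tgt f) s (uu A f x) ↔ pp A (Y.src f) (Y.act f s) x

/-- the quasivariety attached to `Y` -/
def KY (Y : Sys) : Set (Str (LY Y)) := {A | YAx A}

end C5E17
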