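import Pool.Agent.Lib.MP_c5e17c_al.MS.Main

/-!
# MP_c5e17c_al, project MS: the free model on one element of a closed family; the lattice of
subquasivarieties of `KY`
-/

set_option autoImplicit false

namespace C5E17

variable {Y : Sys}

namespace MModel

/-- the carrier: for every sort a word of this sort, or nothing -/
def Car (Y : Sys) (r : Y.ι) : Type :=
  {z : Y.ι → Option (List Y.F) // ∀ k u, z k = some u → okw r u ∧ ew r u = k}

variable {r : Y.ι}

/-- the point -/
def cO (Y : Sys) (r : Y.ι) : Car Y r := ⟨fun _ => none, fun k u h => by cases h⟩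

/-- the operation `d_i` -/
def cD (i : Y.ι) (x y : Car Y r) : Car Y r :=
  ⟨fun k => if k = i then y.1 k else x.1 k, fun k u h => by
    dsimp only at h
    split_ifs at h with hk
    · exact y.2 k u h
    · exact x.2 k u h⟩

/-- the operation `u_f` -/
def cU (f : Y.F) (x : Car Y r) : Car Y r :=
  ⟨fun k => if k = Y.tgt f then (x.1 (Y.src f)).map (fun u => f :: u) else none, fun k u h => by
    dsimp only at h
    split_ifs at h with hk
    · rw [Option.map_eq_some_iff] at h
      obtain ⟨u', hu', rfl⟩ := h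
      have := x.2 _ u' hu'
      exact ⟨⟨this.1, this.2.symm⟩, hk.symm⟩⟩

/-- the functions -/
def funM : {n : ℕ} → FunY Y n → (Fin n → Car Y r) → Car Y r
  | _, .o, _ => cO Y r
  | _, .u f, xs => cU f (xs 0)
  | _, .d i, xs => cD i (xs 0) (xs 1)

/-- the relations -/
def relM (Θ : Y.ι → Y.S → Y.S → Prop) (s₀ : Y.S) :
    {n : ℕ} → RelY Y n → (Fin n → Car Y r) → Prop
  | _, .P i s, xs => ∀ u, (xs 0).1 i = some u → Θ r s₀ (aW Y u s)

/-- the structure -/
def strM (r : Y.ι) (Θ : Y.ι → Y.S → Y.S → Prop) (s₀ : Y.S) : Str (LY Y) :=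
  { carrier := Car Y r
    str := { funMap := fun {_} a xs => funM a xs, RelMap := fun {_} R xs => relM Θ s₀ R xs }
    ne := ⟨cO Y r⟩ }

variable {Θ : Y.ι → Y.S → Y.S → Prop} {s₀ : Y.S}

theorem oo_eq : oo (strM r Θ s₀) = cO Y r := rfl

theorem uu_eq (f : Y.F) (x : Car Y r) : uu (strM r Θ s₀) f x = cU f x := rfl

theorem dd_eq (i : Y.ι) (x y : Car Y r) : dd (strM r Θ s₀) i x y = cD i x y := rfl

theorem pp_eq (i : Y.ι) (s : Y.S) (x : Car Y r) :
    pp (strM r Θ s₀) i s x ↔ ∀ u, x.1 i = some u → Θ r s₀ (aW Y u s) := Iff.rfl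

theorem cp_eq (i : Y.ι) (x : Car Y r) (k : Y.ι) :
    (cp (strM r Θ s₀) i x : Car Y r).1 k = if k = i then x.1 k else none := rfl

theorem cU_some {f : Y.F} {x : Car Y r} {k : Y.ι} {u : List Y.F}
    (h : (cU f x).1 k = some u) : ∃ u', x.1 (Y.src f) = some u' ∧ u = f :: u' := by
  have h' : (if k = Y.tgt f then (x.1 (Y.src f)).map (fun u => f :: u) else none) = some u := h
  split_ifs at h' with hk
  rw [Option.map_eq_some_iff] at h'
  obtain ⟨u', hu', e⟩ := h'
  exact ⟨u', hu', e.symm⟩

theorem uW_some (w : List Y.F) : ∀ {x : Car Y r} {k : Y.ι} {u : List Y.F},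
    (uW (strM r Θ s₀) w x : Car Y r).1 k = some u → ∃ k' u', x.1 k' = some u' ∧ u = w ++ u' := by
  induction w with
  | nil => exact fun h => ⟨_, _, h, rfl⟩
  | cons f w ih =>
    intro x k u h
    have h1 : (cU f (uW (strM r Θ s₀) w x : Car Y r)).1 k = some u := h
    obtain ⟨u', hu', rfl⟩ := cU_some h1
    obtain ⟨k', u'', h2, h3⟩ := ih hu'
    exact ⟨k', u'', h2, by rw [h3]; rfl⟩

theorem word_cl (hΘ : Y.Cl Θ) : ∀ (u : List Y.F) (s t : Y.S), okw r u → Θ (ew r u) s t →
    Θ r (aW Y u s) (aW Y u t)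
  | [], _, _, _, h => h
  | f :: u, s, t, hu, h => by
    refine word_cl hΘ u _ _ hu.1 ?_
    rw [← hu.2]
    exact hΘ.op f s t h

theorem aW_sup (u : List Y.F) (s t : Y.S) : aW Y u (s ⊔ t) = aW Y u s ⊔ aW Y u t := by
  induction u generalizing s t with
  | nil => rfl
  | cons f u ih =>
    show aW Y u (Y.act f (s ⊔ t)) = _
    rw [Y.act_sup]
    exact ih _ _

theorem aW_bot (u : List Y.F) : aW Y u ⊥ = ⊥ := by
  induction u with
  | nil => rfl
  | cons f u ih =>
    show aW Y u (Y.act f ⊥) = _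
    rw [Y.act_bot]
    exact ih

theorem aW_top (u : List Y.F) : aW Y u ⊤ = ⊤ := by
  induction u with
  | nil => rfl
  | cons f u ih =>
    show aW Y u (Y.act f ⊤) = _
    rw [Y.act_top]
    exact ih

theorem tr (hΘ : Y.Cl Θ) {i : Y.ι} {s t : Y.S} (h : Θ i s t) (x : Car Y r)
    (hx : pp (strM r Θ s₀) i s x) : pp (strM r Θ s₀) i t x := by
  rw [pp_eq] at hx ⊢
  intro u hu
  obtain ⟨h1, h2⟩ := x.2 i u hu
  refine hΘ.trans _ _ _ _ (hx u hu) (word_cl hΘ u s t h1 ?_)
  rw [h2]
  exact h

theorem yAx (hΘ : Y.Cl Θ) (h0 : ¬ Θ r s₀ ⊤) : YAx (strM r Θ s₀) := by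
  refine
    { ext := ?_, cp_d := ?_, cp_d' := ?_, cp_o := ?_, u_cp := ?_, cp_u := ?_, u_o := ?_,
      inj := ?_, disj := ?_, acyc := ?_, base := ?_, sup := ?_, bot := ?_, top := ?_,
      pr_o := ?_, pr_cp := ?_, op := ?_ }
  · intro x y h
    apply Subtype.ext
    funext k
    have h1 : (cp (strM r Θ s₀) k x : Car Y r).1 k = (cp (strM r Θ s₀) k y : Car Y r).1 k :=
      congrArg (fun z : Car Y r => z.1 k) (h k)
    rw [cp_eq, cp_eq, if_pos rfl, if_pos rfl] at h1
    exact h1
  · intro i x y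
    apply Subtype.ext
    funext k
    rw [cp_eq, cp_eq]
    by_cases hk : k = i
    · rw [if_pos hk, if_pos hk]
      exact if_pos hk
    · rw [if_neg hk, if_neg hk]
  · intro i j x y hij
    apply Subtype.ext
    funext k
    rw [cp_eq, cp_eq]
    by_cases hk : k = i
    · rw [if_pos hk, if_pos hk]
      exact if_neg (fun h => hij (hk.symm.trans h))
    · rw [if_neg hk, if_neg hk]
  · intro i
    apply Subtype.ext
    funext k
    rw [cp_eq]
    by_cases hk : k = i
    · rw [if_pos hk]
    · rw [if_neg hk]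
      rfl
  · intro f x
    apply Subtype.ext
    funext k
    show (if k = Y.tgt f then ((cp (strM r Θ s₀) (Y.src f) x : Car Y r).1 (Y.src f)).map
      (fun u => f :: u) else none) = if k = Y.tgt f then (x.1 (Y.src f)).map
      (fun u => f :: u) else none
    rw [cp_eq, if_pos rfl]
  · intro f x
    apply Subtype.ext
    funext k
    rw [cp_eq]
    by_cases hk : k = Y.tgt f
    · rw [if_pos hk]
    · rw [if_neg hk]
      exact (if_neg hk).symm
  · intro f
    apply Subtype.ext
    funext k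
    show (if k = Y.tgt f then _ else none) = none
    split_ifs
    · rfl
    · rfl
  · intro f x y h
    have h1 : (uu (strM r Θ s₀) f x : Car Y r).1 (Y.tgt f)
        = (uu (strM r Θ s₀) f y : Car Y r).1 (Y.tgt f) :=
      congrArg (fun z : Car Y r => z.1 (Y.tgt f)) h
    have h2 : (x.1 (Y.src f)).map (fun u => f :: u) = (y.1 (Y.src f)).map (fun u => f :: u) := by
      have e : ∀ z : Car Y r, (uu (strM r Θ s₀) f z : Car Y r).1 (Y.tgt f)
          = (z.1 (Y.src f)).map (fun u => f :: u) := fun z => if_pos rfl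
      rw [e, e] at h1
      exact h1
    have h3 : x.1 (Y.src f) = y.1 (Y.src f) :=
      Option.map_injective (fun a b hab => (List.cons.inj hab).2) h2
    apply Subtype.ext
    funext k
    rw [cp_eq, cp_eq]
    by_cases hk : k = Y.src f
    · rw [if_pos hk, if_pos hk, hk]
      exact h3
    · rw [if_neg hk, if_neg hk]
  · intro f g hfg x y h
    have h1 : (uu (strM r Θ s₀) f x : Car Y r).1 (Y.tgt f)
        = (uu (strM r Θ s₀) g y : Car Y r).1 (Y.tgt f) :=
      congrArg (fun z : Car Y r => z.1 (Y.tgt f)) h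
    have h2 : x.1 (Y.src f) = none := by
      cases hx : x.1 (Y.src f) with
      | none => rfl
      | some u =>
        exfalso
        have e1 : (uu (strM r Θ s₀) f x : Car Y r).1 (Y.tgt f) = some (f :: u) := by
          have : (uu (strM r Θ s₀) f x : Car Y r).1 (Y.tgt f)
            = (x.1 (Y.src f)).map (fun u => f :: u) := if_pos rfl
          rw [this, hx]
          rfl
        rw [e1] at h1
        obtain ⟨u', -, hu'⟩ := cU_some (f := g) (x := y) h1.symm
        exact hfg (List.cons.inj hu').1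
    apply Subtype.ext
    funext k
    rw [cp_eq]
    by_cases hk : k = Y.src f
    · rw [if_pos hk, hk]
      exact h2
    · rw [if_neg hk]
      rfl
  · intro w hw x h
    have key : ∀ (n : ℕ) (k : Y.ι) (u : List Y.F), u.length ≤ n → (x : Car Y r).1 k ≠ some u := by
      intro n
      induction n with
      | zero =>
        intro k u hu hk
        rw [← h] at hk
        obtain ⟨k', u', -, rfl⟩ := uW_some w hk
        rw [List.length_append] at hu
        exact hw (List.length_eq_zero_iff.1 (by omega))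
      | succ n ih =>
        intro k u hu hk
        rw [← h] at hk
        obtain ⟨k', u', hk', rfl⟩ := uW_some w hk
        rw [List.length_append] at hu
        have := List.length_pos_iff.2 hw
        exact ih k' u' (by omega) hk'
    apply Subtype.ext
    funext k
    cases hx : (x : Car Y r).1 k with
    | none => rfl
    | some u => exact absurd hx (key _ k u le_rfl)
  · intro i s t hst x hx
    exact tr hΘ (hΘ.base i s t hst) x hx
  · intro i s t x hs ht
    rw [pp_eq] at hs ht ⊢
    intro u hu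
    rw [aW_sup]
    exact hΘ.sup _ _ _ _ (hs u hu) (ht u hu)
  · intro i x
    rw [pp_eq]
    intro u _
    rw [aW_bot]
    exact hΘ.base _ _ _ (Y.R_le _ _ _ bot_le)
  · intro i x hx
    rw [pp_eq] at hx
    apply Subtype.ext
    funext k
    rw [cp_eq]
    by_cases hk : k = i
    · rw [if_pos hk]
      cases hxk : (x : Car Y r).1 k with
      | none => rfl
      | some u =>
        subst hk
        have := hx u hxk
        rw [aW_top] at this
        exact absurd this h0
    · rw [if_neg hk]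
      rfl
  · intro i s
    rw [pp_eq]
    intro u hu
    cases hu
  · intro i s x
    rw [pp_eq, pp_eq, cp_eq, if_pos rfl]
  · intro f s x
    rw [pp_eq, pp_eq]
    constructor
    · intro h u hu
      refine h (f :: u) ?_
      have : (uu (strM r Θ s₀) f x : Car Y r).1 (Y.tgt f)
            = (x.1 (Y.src f)).map (fun u => f :: u) := if_pos rfl
      rw [this, hu]
      rfl
    · intro h u hu
      obtain ⟨u', hu', rfl⟩ := cU_some (f := f) (x := x) hu
      exact h u' hu'

/-- the generator -/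
def gen (Y : Sys) (r : Y.ι) : Car Y r :=
  ⟨fun k => if k = r then some [] else none, fun k u h => by
    dsimp only at h
    split_ifs at h with hk
    cases h
    exact ⟨trivial, hk.symm⟩⟩

theorem pp_gen (t : Y.S) : pp (strM r Θ s₀) r t (gen Y r) ↔ Θ r s₀ t := by
  rw [pp_eq]
  have e : (gen Y r).1 r = some [] := if_pos rfl
  constructor
  · intro h
    exact h [] e
  · intro h u hu
    rw [e] at hu
    cases hu
    exact h

end MModel

open MModel

/-! ### The isomorphism -/

namespace MIso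

open MT

/-- the family of a class -/
def th (C : Set (Str (LY Y))) (i : Y.ι) (s t : Y.S) : Prop :=
  ∀ B ∈ C, ∀ x : B.carrier, pp B i s x → pp B i t x

theorem th_cl {C : Set (Str (LY Y))} (hC : C ⊆ KY Y) : Y.Cl (th C) where
  base i s t h B hB x hx := (hC hB : YAx B).base i s t h x hx
  trans i r s t h1 h2 B hB x hx := h2 B hB x (h1 B hB x hx)
  sup i s t t' h1 h2 B hB x hx := (hC hB : YAx B).sup i t t' x (h1 B hB x hx) (h2 B hB x hx)
  op f s t h B hB x hx := by
    have hK : YAx B := hC hB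
    exact (hK.op f t x).1 (h B hB _ ((hK.op f s x).2 hx))

/-- the class of a family -/
def cls (Y : Sys) (Θ : Y.ι → Y.S → Y.S → Prop) : Set (Str (LY Y)) :=
  {A | YAx A ∧ ∀ i s t, Θ i s t → ∀ x, pp A i s x → pp A i t x}

theorem cls_isQV (Θ : Y.ι → Y.S → Y.S → Prop) : IsQV (cls Y Θ) := by
  refine ⟨QY Y ∪ {φ | ∃ i s t, Θ i s t ∧ φ = ⟨[aP i s (tV 0)], aP i t (tV 0)⟩}, ?_⟩
  ext A
  constructor
  · rintro ⟨h1, h2⟩ φ (hφ | ⟨i, s, t, hst, rfl⟩)
    · exact hφ A h1
    · intro v hv
      rw [h_P]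
      refine h2 i s t hst _ ?_
      have := hv (aP i s (tV 0)) List.mem_cons_self
      rw [h_P] at this
      exact this
  · intro h
    refine ⟨yAx_of_mem fun φ hφ => h φ (Or.inl hφ), fun i s t hst x hx => ?_⟩
    have := h _ (Or.inr ⟨i, s, t, hst, rfl⟩) (fun _ => x) (by
      intro a ha
      rw [List.mem_singleton] at ha
      subst ha
      rw [h_P]
      exact hx)
    rw [h_P] at this
    exact this

theorem cls_sub (Θ : Y.ι → Y.S → Y.S → Prop) : cls Y Θ ⊆ KY Y := fun _ h => h.1

theorem th_cls {Θ : Y.ι → Y.S → Y.S → Prop} (hΘ : Y.Cl Θ) {i : Y.ι} {s t : Y.S}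
    (h : th (cls Y Θ) i s t) : Θ i s t := by
  by_cases h0 : Θ i s ⊤
  · exact hΘ.trans _ _ _ _ h0 (hΘ.base _ _ _ (Y.R_le _ _ _ le_top))
  · have h1 := h (strM i Θ s) ⟨yAx hΘ h0, fun j a b hab x hx => tr hΘ hab x hx⟩ (gen Y i)
      ((pp_gen s).2 (hΘ.base _ _ _ (Y.R_le _ _ _ le_rfl)))
    exact (pp_gen t).1 h1

end MIso

open MIso in
/-- the lattice of subquasivarieties of `KY` is dually isomorphic to the ordered set of closed
families -/
theorem subQ_iso_CF (Y : Sys) : Nonempty (SubQ (KY Y) ≃o Y.CFᵒᵈ) := by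
  let g : Y.CFᵒᵈ → SubQ (KY Y) := fun Θ =>
    ⟨cls Y (OrderDual.ofDual Θ).1, cls_isQV _, cls_sub _⟩
  have hle : ∀ Θ Θ' : Y.CFᵒᵈ, g Θ ≤ g Θ' ↔ Θ ≤ Θ' := by
    intro Θ Θ'
    constructor
    · intro h
      show (OrderDual.ofDual Θ').1 ≤ (OrderDual.ofDual Θ).1
      intro i s t hst
      refine th_cls (OrderDual.ofDual Θ).2 ?_
      intro B hB x hx
      exact (h hB).2 i s t hst x hx
    · intro h A hA
      have h' : (OrderDual.ofDual Θ').1 ≤ (OrderDual.ofDual Θ).1 := h
      exact ⟨hA.1, fun i s t hst => hA.2 i s t (h' i s t hst)⟩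
  have hs : Function.Surjective g := by
    intro C
    refine ⟨OrderDual.toDual ⟨th C.1, th_cl C.2.2⟩, ?_⟩
    apply Subtype.ext
    show cls Y (th C.1) = C.1
    apply Set.Subset.antisymm
    · intro A hA
      exact mem_of_th C.2.1 C.2.2 hA.1 (fun i s t h => hA.2 i s t h)
    · intro A hA
      exact ⟨C.2.2 hA, fun i s t h => h A hA⟩
  exact ⟨(RelIso.ofSurjective (OrderEmbedding.ofMapLEIff g hle) hs).symm⟩

/-- representable ordered sets are lattices of quasivarieties -/
theorem isLQ_of_repMS {α : Type} [LE α] (h : RepMS α) : IsLQ α := by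
  obtain ⟨Y, ⟨e⟩⟩ := h
  obtain ⟨e'⟩ := subQ_iso_CF Y
  exact ⟨LY Y, KY Y, isQV_KY Y, ⟨e.trans e'.symm⟩⟩

end C5E17
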