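import Pool.Agent.Lib.MP_c5e17c_al.MS.MDefs
import Pool.Agent.Lib.MP_c5e17c_al.MS.DSys
import Pool.Agent.Lib.MP_c5e17c_al.MS.Model

/-!
# MP_c5e17c_al, project MS: the dual of the congruence lattice is a lattice of quasivarieties
-/

set_option autoImplicit false

namespace C5E17

namespace MSL

variable (D : MSL)

/-- the system of a many-sorted semilattice with operators -/
noncomputable def toD : DSys :=
  letI := Fintype.ofFinite D.ι
  letI := Classical.decEq D.ι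
  { ι := D.ι
    S := D.S
    F := D.F
    src := D.cod
    tgt := D.dom
    act := D.act
    R := fun _ s t => t ≤ s
    act_sup := D.act_sup
    act_bot := D.act_bot
    act_top := D.act_top
    R_le := fun _ _ _ h => h
    R_trans := fun _ _ _ _ h1 h2 => h2.trans h1
    R_sup := fun _ _ _ _ h1 h2 => sup_le h1 h2
    R_op := fun f s t h => by
      rw [← sup_eq_left.2 h, D.act_sup]
      exact le_sup_right }

/-- the closed family of a congruence -/
def toFam (θ : D.Con) : ∀ i, D.S i → D.S i → Prop := fun i s t => (θ.1 i) s (s ⊔ t)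

theorem toFam_cl (θ : D.Con) : D.toD.Cl (D.toFam θ) := by
  obtain ⟨θ, h1, h2⟩ := θ
  have f1 : ∀ (i : D.ι) (s t : D.S i), t ≤ s → (θ i) s (s ⊔ t) := by
    intro i s t h
    have e : s ⊔ t = s := sup_eq_left.2 h
    exact e.symm ▸ (θ i).refl s
  have f2 : ∀ (i : D.ι) (r s t : D.S i), (θ i) r (r ⊔ s) → (θ i) s (s ⊔ t) →
      (θ i) r (r ⊔ t) := by
    intro i r s t a1 a2
    have b1 : (θ i) (r ⊔ s) (r ⊔ s ⊔ t) := by
      have := h1 i _ _ r a2
      rwa [sup_comm s r, sup_comm (s ⊔ t) r, ← sup_assoc] at this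
    have b2 : (θ i) (r ⊔ t) (r ⊔ s ⊔ t) := h1 i _ _ t a1
    exact (θ i).trans a1 ((θ i).trans b1 ((θ i).symm b2))
  have f3 : ∀ (i : D.ι) (s t t' : D.S i), (θ i) s (s ⊔ t) → (θ i) s (s ⊔ t') →
      (θ i) s (s ⊔ (t ⊔ t')) := by
    intro i s t t' a1 a2
    have b1 : (θ i) (s ⊔ t') (s ⊔ (t ⊔ t')) := by
      have := h1 i _ _ t' a1
      rwa [sup_assoc] at this
    exact (θ i).trans a2 b1
  have f4 : ∀ (f : D.F) (s t : D.S (D.dom f)), (θ (D.dom f)) s (s ⊔ t) →
      (θ (D.cod f)) (D.act f s) (D.act f s ⊔ D.act f t) := by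
    intro f s t a1
    rw [← D.act_sup]
    exact h2 f _ _ a1
  exact ⟨f1, f2, f3, f4⟩

/-- the congruences and the closed families are isomorphic ordered sets -/
theorem iso_con : Nonempty (D.Con ≃o D.toD.CF) := by
  let g : D.Con → D.toD.CF := fun θ => ⟨D.toFam θ, D.toFam_cl θ⟩
  have key : ∀ (θ : D.Con) i a b, (θ.1 i) a b → (θ.1 i) a (a ⊔ b) := by
    intro θ i a b h
    have := θ.2.1 i _ _ a h
    rwa [sup_idem, sup_comm b a] at this
  have hle : ∀ θ ψ, g θ ≤ g ψ ↔ θ ≤ ψ := by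
    intro θ ψ
    constructor
    · intro h i a b hab
      have e1 : (ψ.1 i) a (a ⊔ b) := h i a b (key θ i a b hab)
      have e2 : (ψ.1 i) b (b ⊔ a) := h i b a (key θ i b a ((θ.1 i).symm hab))
      rw [sup_comm b a] at e2
      exact (ψ.1 i).trans e1 ((ψ.1 i).symm e2)
    · intro h i s t hst
      exact h i hst
  have hs : Function.Surjective g := by
    intro Θ
    have hr : ∀ i a, Θ.1 i a a := fun i a => Θ.2.base i a a (le_refl a)
    have hl : ∀ i a b, b ≤ a → Θ.1 i a b := fun i a b h => Θ.2.base i a b h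
    have hj : ∀ i a b c, Θ.1 i a b → Θ.1 i (a ⊔ c) (b ⊔ c) := by
      intro i a b c h
      exact Θ.2.sup i _ _ _ (Θ.2.trans i _ _ _ (hl i _ _ le_sup_left) h)
        (hl i _ _ le_sup_right)
    refine ⟨⟨fun i => ⟨fun a b => Θ.1 i a b ∧ Θ.1 i b a, ⟨fun a => ⟨hr i a, hr i a⟩,
      fun h => ⟨h.2, h.1⟩, fun h k => ⟨Θ.2.trans i _ _ _ h.1 k.1, Θ.2.trans i _ _ _ k.2 h.2⟩⟩⟩,
      fun i a b c h => ⟨hj i a b c h.1, hj i b a c h.2⟩,
      fun f a b h => ⟨Θ.2.op f a b h.1, Θ.2.op f b a h.2⟩⟩, ?_⟩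
    apply Subtype.ext
    funext i s t
    apply propext
    constructor
    · intro h
      have h' : Θ.1 i s (s ⊔ t) ∧ Θ.1 i (s ⊔ t) s := h
      exact Θ.2.trans i _ _ _ h'.1 (hl i _ _ le_sup_right)
    · intro h
      show Θ.1 i s (s ⊔ t) ∧ Θ.1 i (s ⊔ t) s
      exact ⟨Θ.2.sup i _ _ _ (hr i s) h, hl i _ _ le_sup_left⟩
  exact ⟨RelIso.ofSurjective (OrderEmbedding.ofMapLEIff g hle) hs⟩

/-- the dual of the ordered set of congruences is a lattice of quasivarieties -/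
theorem isLQ_con : IsLQ D.Conᵒᵈ := by
  obtain ⟨e⟩ := D.iso_con
  obtain ⟨Y, ⟨e'⟩⟩ := D.toD.repMS
  exact isLQ_of_repMS ⟨Y, ⟨e.dual.trans e'⟩⟩

end MSL

end C5E17
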