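import Mathlib

/-!
# MP_c5e17c_al, project MS: many-sorted semilattices with operators and their congruences

`MSL`: finitely many sorts, every sort carries a join semilattice with least element `⊥` and
greatest element `⊤`; a set of operators, each from the semilattice of a sort to the semilattice of
a sort, which preserve joins, `⊥` and `⊤`.
`MSL.Con`: the congruences, that is, the families of equivalence relations (one on every sort)
which are compatible with joins and are carried by the operators; ordered by inclusion.
-/

set_option autoImplicit false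

namespace C5E17

/-- a many-sorted bounded join semilattice with operators which preserve joins, `⊥` and `⊤` -/
structure MSL where
  /-- the sorts -/
  ι : Type
  [fin : Finite ι]
  /-- the semilattices -/
  S : ι → Type
  [sl : ∀ i, SemilatticeSup (S i)]
  [ob : ∀ i, OrderBot (S i)]
  [ot : ∀ i, OrderTop (S i)]
  /-- the operators -/
  F : Type
  dom : F → ι
  cod : F → ι
  act : ∀ f : F, S (dom f) → S (cod f)
  act_sup : ∀ f a b, act f (a ⊔ b) = act f a ⊔ act f b
  act_bot : ∀ f, act f ⊥ = ⊥
  act_top : ∀ f, act f ⊤ = ⊤

attribute [instance] MSL.fin MSL.sl MSL.ob MSL.ot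

/-- the congruences of a many-sorted semilattice with operators -/
def MSL.Con (D : MSL) : Type :=
  {θ : ∀ i, Setoid (D.S i) //
    (∀ i a b c, θ i a b → θ i (a ⊔ c) (b ⊔ c)) ∧
      ∀ f a b, θ (D.dom f) a b → θ (D.cod f) (D.act f a) (D.act f b)}

/-- the congruences are ordered by inclusion -/
instance (D : MSL) : PartialOrder D.Con :=
  inferInstanceAs (PartialOrder {θ : ∀ i, Setoid (D.S i) //
    (∀ i a b c, θ i a b → θ i (a ⊔ c) (b ⊔ c)) ∧
      ∀ f a b, θ (D.dom f) a b → θ (D.cod f) (D.act f a) (D.act f b)})

end C5E17
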