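import Pool.Agent.Lib.MP_c5e17c_al.MS.Rep

/-!
# MP_c5e17c_al, project MS: a subquasivariety of `KY` is determined by the implications
`P_{i,s} → P_{i,t}` that it satisfies
-/

set_option autoImplicit false

namespace C5E17

variable {Y : Sys}

theorem YAx.mono {A : Str (LY Y)} (hA : YAx A) {i : Y.ι} {s t : Y.S} (h : t ≤ s) {x : A.carrier}
    (hx : pp A i s x) : pp A i t x := hA.base i s t (Y.R_le i s t h) x hx

namespace MMain

open MT

/-- a bound for the variables of a normal form -/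
def nb : Nf Y → ℕ
  | none => 0
  | some (_, _, n) => n + 1

/-- a bound for the variables of a literal -/
def lb : Lit Y → ℕ
  | .e o o' => nb o + nb o'
  | .p _ _ o => nb o

theorem exists_bd {α : Type} (b : α → ℕ) (l : List α) : ∃ n, ∀ a ∈ l, b a ≤ n := by
  induction l with
  | nil => exact ⟨0, by simp⟩
  | cons a l ih =>
    obtain ⟨n, hn⟩ := ih
    refine ⟨max (b a) n, fun c hc => ?_⟩
    rcases List.mem_cons.mp hc with rfl | hc
    · exact le_max_left _ _
    · exact (hn c hc).trans (le_max_right _ _)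

theorem exists_sup {A : Str (LY Y)} (hA : YAx A) (i : Y.ι) (x : A.carrier) {α : Type}
    (D : α → Y.S → Prop) (hu : ∀ a s s', D a s → D a s' → s = s') (l : List α)
    (hp : ∀ a ∈ l, ∀ s, D a s → pp A i s x) :
    ∃ s₀, pp A i s₀ x ∧ ∀ a ∈ l, ∀ s, D a s → s ≤ s₀ := by
  induction l with
  | nil => exact ⟨⊥, hA.bot i x, fun a ha => absurd ha List.not_mem_nil⟩
  | cons a l ih =>
    obtain ⟨s₁, h1, h2⟩ := ih fun b hb => hp b (List.mem_cons_of_mem _ hb)
    by_cases hD : ∃ s, D a s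
    · obtain ⟨s₂, hs₂⟩ := hD
      refine ⟨s₂ ⊔ s₁, hA.sup i _ _ x (hp a List.mem_cons_self s₂ hs₂) h1, fun b hb s hs => ?_⟩
      rcases List.mem_cons.1 hb with rfl | hb
      · rw [hu _ _ _ hs hs₂]
        exact le_sup_left
      · exact (h2 b hb s hs).trans le_sup_right
    · refine ⟨s₁, h1, fun b hb s hs => ?_⟩
      rcases List.mem_cons.1 hb with rfl | hb
      · exact absurd ⟨s, hs⟩ hD
      · exact h2 b hb s hs

open Classical in
/-- the transfer map -/
noncomputable def G {A B : Str (LY Y)} (X : Finset A.carrier) (w : A.carrier → List Y.F)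
    (m : A.carrier → A.carrier) (r : A.carrier) (y : B.carrier) (e : A.carrier) : B.carrier :=
  if e ∈ X ∧ m e = r then uW B (w e) y else oo B

section

variable {A : Str (LY Y)} (hA : YAx A) {X : Finset A.carrier}
  (hX : ∀ x ∈ X, x ≠ oo A ∧ ∃ k, cp A k x = x)
  {w : A.carrier → List Y.F} {m : A.carrier → A.carrier}
  (hwm : ∀ x ∈ X, m x ∈ X ∧ uW A (w x) (m x) = x)
  (hind : ∀ x ∈ X, ∀ y ∈ X, ∀ u u' : List Y.F, uW A u (m x) = uW A u' (m y) →
        uW A u (m x) ≠ oo A → m x = m y ∧ u = u')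
  {c : Y.ι → ℕ → A.carrier} {N : ℕ} (hc : ∀ k n, n < N → c k n = oo A ∨ c k n ∈ X)

include hA hX hwm hind hc

omit hX hind in
theorem val_ne {u : List Y.F} {k : Y.ι} {n : ℕ} (hn : n < N) (h : uW A u (c k n) ≠ oo A) :
    c k n ∈ X ∧ uW A (u ++ w (c k n)) (m (c k n)) = uW A u (c k n) := by
  have h1 : c k n ∈ X := by
    rcases hc k n hn with h0 | h0
    · rw [h0, hA.uW_o] at h
      exact absurd rfl h
    · exact h0
  exact ⟨h1, by rw [uW_append, (hwm _ h1).2]⟩

theorem eq_transfer {B : Str (LY Y)} (hB : YAx B) {r : A.carrier} {kr : Y.ι}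
    (hr : cp A kr r = r) {y : B.carrier} (hy : cp B kr y = y) {o o' : Nf Y}
    (ho : nb o ≤ N) (ho' : nb o' ≤ N) (h : o.val A c = o'.val A c) :
    o.val B (fun k n => G X w m r y (c k n)) = o'.val B (fun k n => G X w m r y (c k n)) := by
  classical
  -- values `o`
  have key : ∀ o : Nf Y, nb o ≤ N → o.val A c = oo A →
      o.val B (fun k n => G X w m r y (c k n)) = oo B := by
    intro o ho h
    cases o with
    | none => rfl
    | some q =>
      obtain ⟨u, k, n⟩ := q
      show uW B u (G X w m r y (c k n)) = oo B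
      have h' : uW A u (c k n) = oo A := h
      unfold G
      split_ifs with hG
      · rw [← uW_append]
        refine hB.uW_eq_o hy _ fun hok => ?_
        obtain ⟨hm, -⟩ := hX _ (hwm _ hG.1).1
        rw [hG.2] at hm
        refine hA.uW_ne hr hm _ hok ?_
        rw [← hG.2, uW_append, (hwm _ hG.1).2, h']
      · exact hB.uW_o u
  by_cases h0 : o.val A c = oo A
  · rw [key o ho h0, key o' ho' (h ▸ h0)]
  · cases o with
    | none => exact absurd rfl h0
    | some q =>
      cases o' with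
      | none => exact absurd h h0
      | some q' =>
        obtain ⟨u, k, n⟩ := q
        obtain ⟨u', k', n'⟩ := q'
        have h1 : uW A u (c k n) = uW A u' (c k' n') := h
        have h2 : uW A u (c k n) ≠ oo A := h0
        obtain ⟨e1, e2⟩ := val_ne hA hwm hc ho h2
        obtain ⟨e3, e4⟩ := val_ne hA hwm hc ho' (h1 ▸ h2)
        obtain ⟨e5, e6⟩ := hind _ e1 _ e3 _ _ (by rw [e2, e4, h1]) (by rw [e2]; exact h2)
        show uW B u (G X w m r y (c k n)) = uW B u' (G X w m r y (c k' n'))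
        unfold G
        by_cases hm : m (c k n) = r
        · rw [if_pos ⟨e1, hm⟩, if_pos ⟨e3, e5 ▸ hm⟩, ← uW_append, ← uW_append, e6]
        · rw [if_neg fun h => hm h.2, if_neg fun h => hm (e5.trans h.2), hB.uW_o, hB.uW_o]

omit hind in
theorem ne_transfer {o o' : Nf Y} (ho : nb o ≤ N) (ho' : nb o' ≤ N) (h : o.val A c ≠ o'.val A c)
    (h0 : o.val A c ≠ oo A) :
    ∃ (r : A.carrier) (kr : Y.ι), r ∈ X ∧ cp A kr r = r ∧ ∀ (B : Str (LY Y)), YAx B →
      ∀ y : B.carrier, cp B kr y = y → y ≠ oo B →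
        o.val B (fun k n => G X w m r y (c k n)) ≠ o'.val B (fun k n => G X w m r y (c k n)) := by
  classical
  cases o with
  | none => exact absurd rfl h0
  | some q =>
    obtain ⟨u, k, n⟩ := q
    have h2 : uW A u (c k n) ≠ oo A := h0
    obtain ⟨e1, e2⟩ := val_ne hA hwm hc ho h2
    obtain ⟨hm, kr, hkr⟩ := hX _ (hwm _ e1).1
    refine ⟨m (c k n), kr, (hwm _ e1).1, hkr, fun B hB y hy hyo => ?_⟩
    have hok : okw kr (u ++ w (c k n)) := hA.okw_of_ne hkr _ (by rw [e2]; exact h2)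
    have hne := hB.uW_ne hy hyo _ hok
    have hL : Nf.val B (fun k n' => G X w m (m (c k n)) y (c k n')) (some (u, k, n))
        = uW B (u ++ w (c k n)) y := by
      show uW B u (G X w m (m (c k n)) y (c k n)) = _
      unfold G
      rw [if_pos ⟨e1, rfl⟩, ← uW_append]
    intro heq
    have hL' : Nf.val B (fun k' n' => G X w m (m (c k n)) y (c k' n')) (some (u, k, n))
        = uW B (u ++ w (c k n)) y := by
      show uW B u (G X w m (m (c k n)) y (c k n)) = _
      unfold G
      rw [if_pos ⟨e1, rfl⟩, ← uW_append]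
    rw [hL'] at heq
    cases o' with
    | none => exact hne heq
    | some q' =>
      obtain ⟨u', k', n'⟩ := q'
      have heq' : uW B (u ++ w (c k n)) y = uW B u' (G X w m (m (c k n)) y (c k' n')) := heq
      unfold G at heq'
      split_ifs at heq' with hG
      · rw [← uW_append] at heq'
        have h3 := hB.word_eq hy heq' hne
        apply h
        show uW A u (c k n) = uW A u' (c k' n')
        rw [← e2, h3, uW_append, ← hG.2, (hwm _ hG.1).2]
      · rw [hB.uW_o] at heq'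
        exact hne heq'

/-- a false literal remains false under the transfer attached to a suitable root -/
theorem false_transfer {x₀ : Lit Y} (hb : lb x₀ ≤ N) (h : ¬ x₀.H A c) :
    ∃ (r : A.carrier) (kr : Y.ι) (t : Y.S), r ∈ X ∧ cp A kr r = r ∧ ¬ pp A kr t r ∧
      ∀ (B : Str (LY Y)), YAx B → ∀ y : B.carrier, cp B kr y = y → ¬ pp B kr t y →
        ¬ x₀.H B (fun k n => G X w m r y (c k n)) := by
  classical
  have ptop : ∀ (r : A.carrier) (kr : Y.ι), r ∈ X → cp A kr r = r → ¬ pp A kr ⊤ r := by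
    intro r kr hr hk hp
    exact (hX r hr).1 (hk.symm.trans (hA.top kr r hp))
  have yne : ∀ (B : Str (LY Y)), YAx B → ∀ (kr : Y.ι) (t : Y.S) (y : B.carrier),
      ¬ pp B kr t y → y ≠ oo B := by
    intro B hB kr t y hp hy
    exact hp (hy ▸ hB.pr_o kr t)
  cases x₀ with
  | e o o' =>
    have hb1 : nb o ≤ N := (Nat.le_add_right _ _).trans hb
    have hb2 : nb o' ≤ N := (Nat.le_add_left _ _).trans hb
    have h1 : o.val A c ≠ o'.val A c := h
    by_cases h0 : o.val A c = oo A
    · have h2 : o'.val A c ≠ oo A := fun h3 => h1 (h0.trans h3.symm)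
      obtain ⟨r, kr, hr, hk, hB⟩ := ne_transfer hA hX hwm hc hb2 hb1 h1.symm h2
      refine ⟨r, kr, ⊤, hr, hk, ptop r kr hr hk, fun B hBA y hy hp heq => ?_⟩
      exact hB B hBA y hy (yne B hBA kr ⊤ y hp) heq.symm
    · obtain ⟨r, kr, hr, hk, hB⟩ := ne_transfer hA hX hwm hc hb1 hb2 h1 h0
      refine ⟨r, kr, ⊤, hr, hk, ptop r kr hr hk, fun B hBA y hy hp heq => ?_⟩
      exact hB B hBA y hy (yne B hBA kr ⊤ y hp) heq
  | p i s o =>
    cases o with
    | none => exact absurd (hA.pr_o i s) h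
    | some q =>
      obtain ⟨u, k, n⟩ := q
      have h1 : ¬ pp A i s (uW A u (c k n)) := h
      have h2 : uW A u (c k n) ≠ oo A := fun h0 => h1 (h0 ▸ hA.pr_o i s)
      obtain ⟨e1, e2⟩ := val_ne hA hwm hc hb h2
      obtain ⟨hm, kr, hkr⟩ := hX _ (hwm _ e1).1
      rw [← e2, hA.pp_uW hkr] at h1
      push Not at h1
      obtain ⟨h3, h4, h5⟩ := h1
      refine ⟨m (c k n), kr, aW Y (u ++ w (c k n)) s, (hwm _ e1).1, hkr, h5,
        fun B hB y hy hp => ?_⟩
      intro hH
      have hH' : pp B i s (uW B u (G X w m (m (c k n)) y (c k n))) := hH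
      unfold G at hH'
      rw [if_pos ⟨e1, rfl⟩, ← uW_append, hB.pp_uW hy] at hH'
      exact hp (hH' h3 h4)

end

/-- transfer of finitely many literals -/
theorem core {C : Set (Str (LY Y))} (hCK : C ⊆ KY Y) {A : Str (LY Y)} (hA : YAx A)
    (h : ∀ i s t, (∀ B ∈ C, ∀ x, pp B i s x → pp B i t x) → ∀ x, pp A i s x → pp A i t x)
    (L : List (Lit Y)) (x₀ : Lit Y) (v : ℕ → A.carrier)
    (hL : ∀ x ∈ L, x.H A (fun k n => cp A k (v n))) (h0 : ¬ x₀.H A (fun k n => cp A k (v n))) :
    ∃ B ∈ C, ∃ v' : ℕ → B.carrier, (∀ x ∈ L, x.H B (fun k n => cp B k (v' n))) ∧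
      ¬ x₀.H B (fun k n => cp B k (v' n)) := by
  classical
  obtain ⟨N, hN⟩ := exists_bd lb (x₀ :: L)
  set c : Y.ι → ℕ → A.carrier := fun k n => cp A k (v n) with hcdef
  set X : Finset A.carrier := ((Finset.univ ×ˢ Finset.range N).image
    (fun q : Y.ι × ℕ => c q.1 q.2)).filter (fun x => x ≠ oo A) with hXdef
  have hX : ∀ x ∈ X, x ≠ oo A ∧ ∃ k, cp A k x = x := by
    intro x hx
    rw [hXdef, Finset.mem_filter, Finset.mem_image] at hx
    obtain ⟨⟨q, -, rfl⟩, h2⟩ := hx
    exact ⟨h2, q.1, hA.cp_cp _ _⟩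
  have hc : ∀ k n, n < N → c k n = oo A ∨ c k n ∈ X := by
    intro k n hn
    by_cases h1 : c k n = oo A
    · exact Or.inl h1
    · right
      rw [hXdef, Finset.mem_filter, Finset.mem_image]
      exact ⟨⟨(k, n), Finset.mem_product.2 ⟨Finset.mem_univ _, Finset.mem_range.2 hn⟩, rfl⟩, h1⟩
  obtain ⟨w, m, hwm, hind⟩ := hA.exists_rep X hX
  obtain ⟨r, kr, t, hr, hk, hp, hB⟩ := false_transfer hA hX hwm hind hc
    (hN x₀ List.mem_cons_self) h0
  -- the premises at the root
  let D : Lit Y → Y.S → Prop := fun x s' => ∃ (i : Y.ι) (s : Y.S) (u : List Y.F) (k : Y.ι)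
    (n : ℕ), x = .p i s (some (u, k, n)) ∧ c k n ∈ X ∧ m (c k n) = r ∧
      okw kr (u ++ w (c k n)) ∧ i = ew kr (u ++ w (c k n)) ∧ s' = aW Y (u ++ w (c k n)) s
  obtain ⟨s₀, hs₀, hs₁⟩ := exists_sup hA kr r D (by
      rintro x s₁ s₂ ⟨i, s, u, k, n, rfl, -, -, -, -, e1⟩ ⟨i', s', u', k', n', e, -, -, -, -, e2⟩
      cases e
      rw [e1, e2]) L (by
      rintro x hx s' ⟨i, s, u, k, n, rfl, e1, e2, e3, e4, rfl⟩
      have h1 : pp A i s (uW A u (c k n)) := hL _ hx
      rw [← (hwm _ e1).2, ← uW_append, e2, hA.pp_uW hk] at h1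
      exact h1 e3 e4)
  have h1 : ¬ ∀ B ∈ C, ∀ x, pp B kr s₀ x → pp B kr t x := fun h1 => hp (h kr s₀ t h1 r hs₀)
  push Not at h1
  obtain ⟨B, hBC, y₀, hy1, hy2⟩ := h1
  have hBA : YAx B := hCK hBC
  set y : B.carrier := cp B kr y₀ with hydef
  have hy : cp B kr y = y := hBA.cp_cp _ _
  rw [← hBA.pr_cp, ← hydef] at hy1 hy2
  -- the assignment
  have hG : ∀ k n, cp B k (G X w m r y (c k n)) = G X w m r y (c k n) := by
    intro k n
    unfold G
    split_ifs with hG
    · have e1 : cp A k (c k n) = c k n := hA.cp_cp _ _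
      have e2 := (hX _ hG.1).1
      have e3 := (hwm _ hG.1).2
      rw [hG.2] at e3
      have e4 := hA.cp_uW hk (w (c k n))
      rw [e3] at e4
      have e5 : k = ew kr (w (c k n)) := by
        by_contra hne
        have := hA.cp_cp' hne (c k n)
        rw [e4, e1] at this
        exact e2 this
      have e6 := hBA.cp_uW hy (w (c k n))
      rw [← e5] at e6
      exact e6
    · exact hBA.cp_o k
  have hv' : ∀ n, ∃ z, ∀ k, cp B k z = G X w m r y (c k n) := by
    intro n
    obtain ⟨z, hz⟩ := hBA.exists_tuple (fun k => G X w m r y (c k n))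
    exact ⟨z, fun k => (hz k).trans (hG k n)⟩
  choose v' hv' using hv'
  have hcc : (fun k n => cp B k (v' n)) = fun k n => G X w m r y (c k n) := by
    funext k n
    exact hv' n k
  refine ⟨B, hBC, v', ?_, ?_⟩
  · intro x hx
    rw [hcc]
    have hxN := hN x (List.mem_cons_of_mem _ hx)
    have hxL := hL x hx
    cases x with
    | e o o' =>
      exact eq_transfer hA hX hwm hind hc hBA hk hy ((Nat.le_add_right _ _).trans hxN)
        ((Nat.le_add_left _ _).trans hxN) hxL
    | p i s o =>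
      cases o with
      | none => exact hBA.pr_o i s
      | some q =>
        obtain ⟨u, k, n⟩ := q
        show pp B i s (uW B u (G X w m r y (c k n)))
        unfold G
        split_ifs with hG'
        · rw [← uW_append, hBA.pp_uW hy]
          intro h3 h4
          exact hBA.mono (hs₁ _ hx _ ⟨i, s, u, k, n, rfl, hG'.1, hG'.2, h3, h4, rfl⟩) hy1
        · rw [hBA.uW_o]
          exact hBA.pr_o i s
  · rw [hcc]
    exact hB B hBA y hy hy2

end MMain

open MT MMain in
theorem mem_of_th {C : Set (Str (LY Y))} (hC : IsQV C) (hCK : C ⊆ KY Y) {A : Str (LY Y)}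
    (hA : YAx A)
    (h : ∀ i s t, (∀ B ∈ C, ∀ x, pp B i s x → pp B i t x) → ∀ x, pp A i s x → pp A i t x) :
    A ∈ C := by
  classical
  obtain ⟨Qs, rfl⟩ := hC
  intro φ hφ v hv
  by_contra hcon
  choose lit hlit using atom_form (Y := Y)
  rw [hlit φ.concl A hA v] at hcon
  push Not at hcon
  obtain ⟨x₀, hx₀, hx₁⟩ := hcon
  obtain ⟨B, hB, v', h1, h2⟩ := core hCK hA h (φ.prem.flatMap lit) x₀ v (by
    intro x hx
    obtain ⟨a, ha, hxa⟩ := List.mem_flatMap.1 hx
    exact (hlit a A hA v).1 (hv a ha) x hxa) hx₁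
  have hBA : YAx B := hCK hB
  have h3 : φ.concl.Holds B v' := hB φ hφ v' fun a ha => (hlit a B hBA v').2 fun x hx =>
    h1 x (List.mem_flatMap.2 ⟨a, ha, hx⟩)
  exact h2 ((hlit φ.concl B hBA v').1 h3 x₀ hx₀)

end C5E17
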