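import Pool.Agent.Lib.MP_c5e17c_al.MS.Terms

/-!
# MP_c5e17c_al, project MS: words, cancellation, free representation
-/

set_option autoImplicit false

namespace C5E17

variable {Y : Sys}

theorem uW_append (A : Str (LY Y)) (w w' : List Y.F) (x : A.carrier) :
    uW A (w ++ w') x = uW A w (uW A w' x) := by
  induction w with
  | nil => rfl
  | cons f w ih =>
    show uu A f (uW A (w ++ w') x) = uu A f (uW A w (uW A w' x))
    rw [ih]

/-- the sort of `w(x)` for `x` of sort `k` -/
def ew (k : Y.ι) : List Y.F → Y.ι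
  | [] => k
  | f :: _ => Y.tgt f

/-- composable words -/
def okw (k : Y.ι) : List Y.F → Prop
  | [] => True
  | f :: w => okw k w ∧ Y.src f = ew k w

/-- the action of a word on the semilattice -/
def aW (Y : Sys) : List Y.F → Y.S → Y.S
  | [], s => s
  | f :: w, s => aW Y w (Y.act f s)

section

variable {A : Str (LY Y)} (hA : YAx A)

include hA

theorem YAx.uW_o (w : List Y.F) : uW A w (oo A) = oo A := by
  induction w with
  | nil => rfl
  | cons f w ih =>
    show uu A f (uW A w (oo A)) = oo A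
    rw [ih]
    exact hA.u_o f

theorem YAx.cp_uW {k : Y.ι} {x : A.carrier} (hx : cp A k x = x) (w : List Y.F) :
    cp A (ew k w) (uW A w x) = uW A w x := by
  cases w with
  | nil => exact hx
  | cons f w => exact hA.cp_u f _

theorem YAx.uW_ne {k : Y.ι} {x : A.carrier} (hx : cp A k x = x) (h : x ≠ oo A) (w : List Y.F)
    (hw : okw k w) : uW A w x ≠ oo A := by
  induction w with
  | nil => exact h
  | cons f w ih =>
    intro h0
    have h1 : uu A f (uW A w x) = uu A f (oo A) := h0.trans (hA.u_o f).symm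
    have h2 := hA.inj f _ _ h1
    rw [hw.2, hA.cp_uW hx, hA.cp_o] at h2
    exact ih hw.1 h2

theorem YAx.uW_eq_o {k : Y.ι} {x : A.carrier} (hx : cp A k x = x) (w : List Y.F)
    (hw : ¬ okw k w) : uW A w x = oo A := by
  induction w with
  | nil => exact absurd trivial hw
  | cons f w ih =>
    show uu A f (uW A w x) = oo A
    by_cases h1 : okw k w
    · have h2 : Y.src f ≠ ew k w := fun h => hw ⟨h1, h⟩
      rw [← hA.u_cp, ← hA.cp_uW hx w, hA.cp_cp' h2]
      exact hA.u_o f
    · rw [ih h1]
      exact hA.u_o f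

theorem YAx.okw_of_ne {k : Y.ι} {x : A.carrier} (hx : cp A k x = x) (w : List Y.F)
    (h : uW A w x ≠ oo A) : okw k w := by
  by_contra hw
  exact h (hA.uW_eq_o hx w hw)

/-- evaluation of the predicates -/
theorem YAx.pp_uW {k : Y.ι} {x : A.carrier} (hx : cp A k x = x) (i : Y.ι) (s : Y.S)
    (w : List Y.F) : pp A i s (uW A w x) ↔ (okw k w → i = ew k w → pp A k (aW Y w s) x) := by
  by_cases hw : okw k w
  · by_cases hi : i = ew k w
    · subst hi
      rw [show (okw k w → ew k w = ew k w → pp A k (aW Y w s) x) ↔ pp A k (aW Y w s) x from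
        ⟨fun h => h hw rfl, fun h _ _ => h⟩]
      induction w generalizing s with
      | nil => exact Iff.rfl
      | cons f w ih =>
        show pp A (Y.tgt f) s (uu A f (uW A w x)) ↔ pp A k (aW Y w (Y.act f s)) x
        rw [hA.op, hw.2]
        exact ih _ hw.1
    · constructor
      · exact fun _ _ h => absurd h hi
      · intro _
        rw [← hA.pr_cp, ← hA.cp_uW hx w, hA.cp_cp' hi]
        exact hA.pr_o i s
  · constructor
    · exact fun _ h => absurd h hw
    · intro _
      rw [hA.uW_eq_o hx w hw]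
      exact hA.pr_o i s

/-- cancellation -/
theorem YAx.uW_cancel {k l : Y.ι} {x y : A.carrier} (hx : cp A k x = x) (hy : cp A l y = y)
    {w w' : List Y.F} (h : uW A w x = uW A w' y) (hne : uW A w x ≠ oo A) :
    (∃ v, w = w' ++ v ∧ uW A v x = y) ∨ (∃ v, w' = w ++ v ∧ uW A v y = x) := by
  induction w generalizing w' with
  | nil => exact Or.inr ⟨w', rfl, h.symm⟩
  | cons f w ih =>
    cases w' with
    | nil => exact Or.inl ⟨f :: w, rfl, h⟩
    | cons g w' =>
      have h' : uu A f (uW A w x) = uu A g (uW A w' y) := h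
      have ok1 := hA.okw_of_ne hx _ hne
      have ok2 := hA.okw_of_ne hy (g :: w') (h ▸ hne)
      have hfg : f = g := by
        by_contra hfg
        have h1 := hA.disj f g hfg _ _ h'
        apply hne
        show uu A f (uW A w x) = oo A
        rw [← hA.u_cp, h1]
        exact hA.u_o f
      subst hfg
      have h1 := hA.inj f _ _ h'
      have e1 : cp A (Y.src f) (uW A w x) = uW A w x := by
        rw [ok1.2]; exact hA.cp_uW hx w
      have e2 : cp A (Y.src f) (uW A w' y) = uW A w' y := by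
        rw [ok2.2]; exact hA.cp_uW hy w'
      rw [e1, e2] at h1
      rcases ih h1 (hA.uW_ne hx (fun h0 => hne (by
          rw [h0]; exact hA.uW_o _)) w ok1.1) with ⟨v, hv, hx'⟩ | ⟨v, hv, hx'⟩
      · exact Or.inl ⟨v, by rw [hv, List.cons_append], hx'⟩
      · exact Or.inr ⟨v, by rw [hv, List.cons_append], hx'⟩

theorem YAx.word_eq {k : Y.ι} {x : A.carrier} (hx : cp A k x = x) {w w' : List Y.F}
    (h : uW A w x = uW A w' x) (hne : uW A w x ≠ oo A) : w = w' := by
  have hxo : x ≠ oo A := fun h0 => hne (by rw [h0]; exact hA.uW_o _)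
  rcases hA.uW_cancel hx hx h hne with ⟨v, hv, hx'⟩ | ⟨v, hv, hx'⟩
  · have : v = [] := by
      by_contra hv0
      exact hxo (hA.acyc v hv0 x hx')
    rw [hv, this, List.append_nil]
  · have : v = [] := by
      by_contra hv0
      exact hxo (hA.acyc v hv0 x hx')
    rw [hv, this, List.append_nil]

/-- free representation of a finite set of elements with sorts -/
theorem YAx.exists_rep (X : Finset A.carrier)
    (hX : ∀ x ∈ X, x ≠ oo A ∧ ∃ k, cp A k x = x) :
    ∃ (w : A.carrier → List Y.F) (m : A.carrier → A.carrier),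
      (∀ x ∈ X, m x ∈ X ∧ uW A (w x) (m x) = x) ∧
      ∀ x ∈ X, ∀ y ∈ X, ∀ u u' : List Y.F, uW A u (m x) = uW A u' (m y) →
        uW A u (m x) ≠ oo A → m x = m y ∧ u = u' := by
  classical
  have hfix : ∀ (t : List Y.F) (x : A.carrier), x ≠ oo A → uW A t x = x → t = [] := by
    intro t x hx h
    by_contra ht
    exact hx (hA.acyc t ht x h)
  let P : PartialOrder A.carrier :=
    { le := fun x y => ∃ u, uW A u x = y
      le_refl := fun x => ⟨[], rfl⟩
      le_trans := fun x y z hxy hyz => by
        obtain ⟨u, hu⟩ := hxy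
        obtain ⟨u', hu'⟩ := hyz
        exact ⟨u' ++ u, by rw [uW_append, hu, hu']⟩
      le_antisymm := fun x y hxy hyx => by
        obtain ⟨u, hu⟩ := hxy
        obtain ⟨u', hu'⟩ := hyx
        have h1 : uW A (u' ++ u) x = x := by rw [uW_append, hu, hu']
        by_cases hx : x = oo A
        · rw [hx, hA.uW_o] at hu
          rw [hx, hu]
        · have h2 := hfix _ _ hx h1
          have h3 : u = [] := (List.append_eq_nil_iff.1 h2).2
          rw [h3] at hu
          exact hu }
  have hmin : ∀ x : A.carrier, ∃ (w : List Y.F) (m : A.carrier), x ∈ X →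
      m ∈ X ∧ uW A w m = x ∧ ∀ (z : A.carrier) (t : List Y.F), z ∈ X → uW A t z = m → z = m := by
    intro x
    by_cases hx : x ∈ X
    · obtain ⟨m, hm, hmin⟩ := X.finite_toSet.exists_le_minimal (a := x) (Finset.mem_coe.2 hx)
      obtain ⟨w, hw⟩ := hm
      refine ⟨w, m, fun _ => ⟨Finset.mem_coe.1 hmin.prop, hw, ?_⟩⟩
      intro z t hz ht
      exact hmin.eq_of_le (Finset.mem_coe.2 hz) ⟨t, ht⟩
    · exact ⟨[], x, fun h => absurd h hx⟩
  choose w m hwm using hmin
  refine ⟨w, m, fun x hx => ⟨(hwm x hx).1, (hwm x hx).2.1⟩, ?_⟩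
  intro x hx y hy u u' h hne
  obtain ⟨hmx, k, hk⟩ := hX _ (hwm x hx).1
  obtain ⟨hmy, l, hl⟩ := hX _ (hwm y hy).1
  rcases hA.uW_cancel hk hl h hne with ⟨t, ht, hx'⟩ | ⟨t, ht, hx'⟩
  · have hmm : m x = m y := (hwm y hy).2.2 (m x) t (hwm x hx).1 hx'
    refine ⟨hmm, ?_⟩
    rw [← hmm] at hx'
    rw [ht, hfix t _ hmx hx', List.append_nil]
  · have hmm : m y = m x := (hwm x hx).2.2 (m y) t (hwm y hy).1 hx'
    refine ⟨hmm.symm, ?_⟩
    rw [← hmm] at hx'
    rw [ht, hfix t _ hmy hx', List.append_nil]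

end

end C5E17
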