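import Pool.Agent.Lib.MP_c5e17c_al.MS.Model

/-!
# MP_c5e17c_al, project MS: systems with one sort
-/

set_option autoImplicit false

namespace C5E17

theorem RepMS.congr {α β : Type} [LE α] [LE β] (e : α ≃o β) (h : RepMS β) : RepMS α := by
  obtain ⟨Y, ⟨e'⟩⟩ := h
  exact ⟨Y, ⟨e.trans e'⟩⟩

/-- a semilattice with operators which fix the least and the greatest element -/
structure Sys1 where
  S : Type
  F : Type
  [sl : SemilatticeSup S]
  [ob : OrderBot S]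
  [ot : OrderTop S]
  act : F → S → S
  R : S → S → Prop
  act_sup : ∀ f s t, act f (s ⊔ t) = act f s ⊔ act f t
  act_bot : ∀ f, act f ⊥ = ⊥
  act_top : ∀ f, act f ⊤ = ⊤
  R_le : ∀ s t, t ≤ s → R s t
  R_trans : ∀ r s t, R r s → R s t → R r t
  R_sup : ∀ s t t', R s t → R s t' → R s (t ⊔ t')
  R_op : ∀ f s t, R s t → R (act f s) (act f t)

attribute [instance] Sys1.sl Sys1.ob Sys1.ot

/-- closed relations -/
structure Sys1.Cl (Y : Sys1) (Θ : Y.S → Y.S → Prop) : Prop where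
  base : ∀ s t, Y.R s t → Θ s t
  trans : ∀ r s t, Θ r s → Θ s t → Θ r t
  sup : ∀ s t t', Θ s t → Θ s t' → Θ s (t ⊔ t')
  op : ∀ f s t, Θ s t → Θ (Y.act f s) (Y.act f t)

/-- the ordered set of closed relations -/
def Sys1.CF (Y : Sys1) : Type := {Θ : Y.S → Y.S → Prop // Y.Cl Θ}

instance (Y : Sys1) : PartialOrder Y.CF :=
  inferInstanceAs (PartialOrder {Θ : Y.S → Y.S → Prop // Y.Cl Θ})

/-- `α` is isomorphic to the dual of the ordered set of closed relations of some system with one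
sort -/
def Rep1 (α : Type) [LE α] : Prop := ∃ Y : Sys1, Nonempty (α ≃o Y.CFᵒᵈ)

theorem Rep1.congr {α β : Type} [LE α] [LE β] (e : α ≃o β) (h : Rep1 β) : Rep1 α := by
  obtain ⟨Y, ⟨e'⟩⟩ := h
  exact ⟨Y, ⟨e.trans e'⟩⟩

/-- the system with one sort as a many-sorted system -/
def Sys1.toSys (Y : Sys1) : Sys where
  ι := Unit
  S := Y.S
  F := Y.F
  src _ := ()
  tgt _ := ()
  act := Y.act
  R _ := Y.R
  act_sup := Y.act_sup
  act_bot := Y.act_bot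
  act_top := Y.act_top
  R_le _ := Y.R_le
  R_trans _ := Y.R_trans
  R_sup _ := Y.R_sup
  R_op := Y.R_op

theorem Sys1.iso_toSys (Y : Sys1) : Nonempty (Y.CF ≃o Y.toSys.CF) := by
  let g : Y.CF → Y.toSys.CF := fun Θ => ⟨fun _ => Θ.1, ⟨fun _ => Θ.2.base, fun _ => Θ.2.trans,
    fun _ => Θ.2.sup, Θ.2.op⟩⟩
  have hle : ∀ Θ Ψ, g Θ ≤ g Ψ ↔ Θ ≤ Ψ :=
    fun Θ Ψ => ⟨fun h s t hst => h () s t hst, fun h _ s t hst => h s t hst⟩
  have hs : Function.Surjective g := fun Θ =>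
    ⟨⟨Θ.1 (), ⟨Θ.2.base (), Θ.2.trans (), Θ.2.sup (), Θ.2.op⟩⟩, rfl⟩
  exact ⟨RelIso.ofSurjective (OrderEmbedding.ofMapLEIff g hle) hs⟩

theorem Rep1.repMS {α : Type} [LE α] (h : Rep1 α) : RepMS α := by
  obtain ⟨Y, ⟨e⟩⟩ := h
  obtain ⟨e'⟩ := Y.iso_toSys
  exact ⟨Y.toSys, ⟨e.trans e'.dual⟩⟩

end C5E17
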