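import Pool.Agent.Lib.MP_c5e17c_al.MS.Defs

/-!
# MP_c5e17c_al, project MS: terms, atomic formulas, and the quasivariety `KY`
-/

set_option autoImplicit false

namespace C5E17

open FirstOrder

variable {Y : Sys}

namespace MT

/-- the term `o` -/
def tO : (LY Y).Term ℕ := FirstOrder.Language.Term.func (L := LY Y) (FunY.o : FunY Y 0) ![]

/-- the term `u_f(t)` -/
def tU (f : Y.F) (t : (LY Y).Term ℕ) : (LY Y).Term ℕ :=
  FirstOrder.Language.Term.func (L := LY Y) (FunY.u f : FunY Y 1) ![t]

/-- the term `d_i(s, t)` -/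
def tD (i : Y.ι) (s t : (LY Y).Term ℕ) : (LY Y).Term ℕ :=
  FirstOrder.Language.Term.func (L := LY Y) (FunY.d i : FunY Y 2) ![s, t]

/-- the term for the component -/
def tC (i : Y.ι) (t : (LY Y).Term ℕ) : (LY Y).Term ℕ := tD i tO t

/-- the term for the action of a word -/
def tW : List Y.F → (LY Y).Term ℕ → (LY Y).Term ℕ
  | [], t => t
  | f :: w, t => tU f (tW w t)

/-- variables -/
def tV (n : ℕ) : (LY Y).Term ℕ := FirstOrder.Language.Term.var n

/-- the atomic formula `P_{i,s}(t)` -/
def aP (i : Y.ι) (s : Y.S) (t : (LY Y).Term ℕ) : Atom (LY Y) :=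
  Atom.rel (L := LY Y) (RelY.P i s : RelY Y 1) ![t]

variable (A : Str (LY Y)) (v : ℕ → A.carrier)

theorem r_O : (tO : (LY Y).Term ℕ).realize v = oo A := by
  show FirstOrder.Language.Structure.funMap (L := LY Y) (FunY.o : FunY Y 0) _ = _
  unfold oo
  congr 1
  funext j
  exact j.elim0

theorem r_V (n : ℕ) : (tV n : (LY Y).Term ℕ).realize v = v n := rfl

theorem r_U (f : Y.F) (t : (LY Y).Term ℕ) : (tU f t).realize v = uu A f (t.realize v) := by
  show FirstOrder.Language.Structure.funMap (L := LY Y) (FunY.u f : FunY Y 1) _ = _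
  unfold uu
  congr 1
  funext j
  fin_cases j
  rfl

theorem r_D (i : Y.ι) (s t : (LY Y).Term ℕ) :
    (tD i s t).realize v = dd A i (s.realize v) (t.realize v) := by
  show FirstOrder.Language.Structure.funMap (L := LY Y) (FunY.d i : FunY Y 2) _ = _
  unfold dd
  congr 1
  funext j
  fin_cases j
  · rfl
  · rfl

theorem r_C (i : Y.ι) (t : (LY Y).Term ℕ) : (tC i t).realize v = cp A i (t.realize v) := by
  unfold tC cp
  rw [r_D, r_O]

theorem r_W (w : List Y.F) (t : (LY Y).Term ℕ) : (tW w t).realize v = uW A w (t.realize v) := by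
  induction w with
  | nil => rfl
  | cons f w ih =>
    show (tU f (tW w t)).realize v = uu A f (uW A w (t.realize v))
    rw [r_U, ih]

theorem h_P (i : Y.ι) (s : Y.S) (t : (LY Y).Term ℕ) :
    (aP i s t).Holds A v ↔ pp A i s (t.realize v) := by
  show FirstOrder.Language.Structure.RelMap (L := LY Y) (RelY.P i s : RelY Y 1) _ ↔ _
  unfold pp
  have : (fun j => ((![t] : Fin 1 → (LY Y).Term ℕ) j).realize v) = ![t.realize v] := by
    funext j
    fin_cases j
    rfl
  rw [this]

theorem h_E (s t : (LY Y).Term ℕ) : (Atom.eq s t).Holds A v ↔ s.realize v = t.realize v := Iff.rfl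

/-- the assignment with two given values -/
def vv {α : Type} (x y : α) : ℕ → α
  | 0 => x
  | _ => y

end MT

open MT

/-- the quasi-identities valid in all structures satisfying the axioms -/
def QY (Y : Sys) : Set (QId (LY Y)) := {φ | ∀ A : Str (LY Y), YAx A → φ.Holds A}

theorem yAx_of_mem {A : Str (LY Y)} (hA : A ∈ Mod (QY Y)) : YAx A := by
  -- one premise
  have one : ∀ (a c : Atom (LY Y)), (∀ B : Str (LY Y), YAx B → ∀ v, a.Holds B v → c.Holds B v) →
      ∀ v : ℕ → A.carrier, a.Holds A v → c.Holds A v := by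
    intro a c h v ha
    refine hA ⟨[a], c⟩ (fun B hB v' hv => h B hB v' (hv a (List.mem_singleton.2 rfl))) v ?_
    intro b hb
    rw [List.mem_singleton] at hb
    rw [hb]
    exact ha
  -- no premise
  have zero : ∀ (c : Atom (LY Y)), (∀ B : Str (LY Y), YAx B → ∀ v, c.Holds B v) →
      ∀ v : ℕ → A.carrier, c.Holds A v := fun c h v =>
    hA ⟨[], c⟩ (fun B hB v' _ => h B hB v') v (fun b hb => absurd hb List.not_mem_nil)
  refine
    { ext := ?_, cp_d := ?_, cp_d' := ?_, cp_o := ?_, u_cp := ?_, cp_u := ?_, u_o := ?_,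
      inj := ?_, disj := ?_, acyc := ?_, base := ?_, sup := ?_, bot := ?_, top := ?_,
      pr_o := ?_, pr_cp := ?_, op := ?_ }
  · intro x y h
    refine hA ⟨Finset.univ.toList.map (fun i => Atom.eq (tC i (tV 0)) (tC i (tV 1))),
      Atom.eq (tV 0) (tV 1)⟩ ?_ (vv x y) ?_
    · intro B hB v hv
      refine hB.ext _ _ fun i => ?_
      have := hv (Atom.eq (tC i (tV 0)) (tC i (tV 1)))
        (List.mem_map.2 ⟨i, Finset.mem_toList.2 (Finset.mem_univ i), rfl⟩)
      rw [h_E, r_C, r_C] at this
      exact this
    · intro a ha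
      obtain ⟨i, -, rfl⟩ := List.mem_map.1 ha
      rw [h_E, r_C, r_C]
      exact h i
  · intro i x y
    have := zero (Atom.eq (tC i (tD i (tV 0) (tV 1))) (tC i (tV 1))) (fun B hB v => by
      rw [h_E, r_C, r_D, r_C]; exact hB.cp_d _ _ _) (vv x y)
    rw [h_E, r_C, r_D, r_C] at this
    exact this
  · intro i j x y hij
    have := zero (Atom.eq (tC i (tD j (tV 0) (tV 1))) (tC i (tV 0))) (fun B hB v => by
      rw [h_E, r_C, r_D, r_C]; exact hB.cp_d' _ _ _ _ hij) (vv x y)
    rw [h_E, r_C, r_D, r_C] at this
    exact this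
  · intro i
    have := zero (Atom.eq (tC i tO) tO) (fun B hB v => by
      rw [h_E, r_C, r_O]; exact hB.cp_o _) (fun _ => oo A)
    rw [h_E, r_C, r_O] at this
    exact this
  · intro f x
    have := zero (Atom.eq (tU f (tC (Y.src f) (tV 0))) (tU f (tV 0))) (fun B hB v => by
      rw [h_E, r_U, r_C, r_U]; exact hB.u_cp _ _) (vv x x)
    rw [h_E, r_U, r_C, r_U] at this
    exact this
  · intro f x
    have := zero (Atom.eq (tC (Y.tgt f) (tU f (tV 0))) (tU f (tV 0))) (fun B hB v => by
      rw [h_E, r_C, r_U]; exact hB.cp_u _ _) (vv x x)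
    rw [h_E, r_C, r_U] at this
    exact this
  · intro f
    have := zero (Atom.eq (tU f tO) tO) (fun B hB v => by
      rw [h_E, r_U, r_O]; exact hB.u_o _) (fun _ => oo A)
    rw [h_E, r_U, r_O] at this
    exact this
  · intro f x y h
    have := one (Atom.eq (tU f (tV 0)) (tU f (tV 1)))
      (Atom.eq (tC (Y.src f) (tV 0)) (tC (Y.src f) (tV 1))) (fun B hB v hv => by
        rw [h_E, r_U, r_U] at hv
        rw [h_E, r_C, r_C]
        exact hB.inj _ _ _ hv) (vv x y) (by rw [h_E, r_U, r_U]; exact h)
    rw [h_E, r_C, r_C] at this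
    exact this
  · intro f g hfg x y h
    have := one (Atom.eq (tU f (tV 0)) (tU g (tV 1)))
      (Atom.eq (tC (Y.src f) (tV 0)) tO) (fun B hB v hv => by
        rw [h_E, r_U, r_U] at hv
        rw [h_E, r_C, r_O]
        exact hB.disj _ _ hfg _ _ hv) (vv x y) (by rw [h_E, r_U, r_U]; exact h)
    rw [h_E, r_C, r_O] at this
    exact this
  · intro w hw x h
    have := one (Atom.eq (tW w (tV 0)) (tV 0))
      (Atom.eq (tV 0) tO) (fun B hB v hv => by
        rw [h_E, r_W] at hv
        rw [h_E, r_O]
        exact hB.acyc _ hw _ hv) (vv x x) (by rw [h_E, r_W]; exact h)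
    rw [h_E, r_O] at this
    exact this
  · intro i s t hst x h
    have := one (aP i s (tV 0)) (aP i t (tV 0)) (fun B hB v hv => by
        rw [h_P] at hv ⊢
        exact hB.base _ _ _ hst _ hv) (vv x x) (by rw [h_P]; exact h)
    rw [h_P] at this
    exact this
  · intro i s t x h1 h2
    have := hA ⟨[aP i s (tV 0), aP i t (tV 0)], aP i (s ⊔ t) (tV 0)⟩ (fun B hB v hv => by
      have e1 := hv (aP i s (tV 0)) List.mem_cons_self
      have e2 := hv (aP i t (tV 0)) (List.mem_cons_of_mem _ List.mem_cons_self)
      rw [h_P] at e1 e2 ⊢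
      exact hB.sup _ _ _ _ e1 e2) (vv x x) (by
        intro a ha
        rw [List.mem_cons, List.mem_singleton] at ha
        rcases ha with rfl | rfl
        · rw [h_P]; exact h1
        · rw [h_P]; exact h2)
    rw [h_P] at this
    exact this
  · intro i x
    have := zero (aP i ⊥ (tV 0)) (fun B hB v => by rw [h_P]; exact hB.bot _ _) (vv x x)
    rw [h_P] at this
    exact this
  · intro i x h
    have := one (aP i ⊤ (tV 0)) (Atom.eq (tC i (tV 0)) tO) (fun B hB v hv => by
        rw [h_P] at hv
        rw [h_E, r_C, r_O]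
        exact hB.top _ _ hv) (vv x x) (by rw [h_P]; exact h)
    rw [h_E, r_C, r_O] at this
    exact this
  · intro i s
    have := zero (aP i s tO) (fun B hB v => by rw [h_P, r_O]; exact hB.pr_o _ _) (fun _ => oo A)
    rw [h_P, r_O] at this
    exact this
  · intro i s x
    constructor
    · intro h
      have := one (aP i s (tC i (tV 0))) (aP i s (tV 0)) (fun B hB v hv => by
        rw [h_P, r_C] at hv
        rw [h_P]
        exact (hB.pr_cp _ _ _).1 hv) (vv x x) (by rw [h_P, r_C]; exact h)
      rw [h_P] at this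
      exact this
    · intro h
      have := one (aP i s (tV 0)) (aP i s (tC i (tV 0))) (fun B hB v hv => by
        rw [h_P] at hv
        rw [h_P, r_C]
        exact (hB.pr_cp _ _ _).2 hv) (vv x x) (by rw [h_P]; exact h)
      rw [h_P, r_C] at this
      exact this
  · intro f s x
    constructor
    · intro h
      have := one (aP (Y.tgt f) s (tU f (tV 0))) (aP (Y.src f) (Y.act f s) (tV 0))
        (fun B hB v hv => by
          rw [h_P, r_U] at hv
          rw [h_P]
          exact (hB.op _ _ _).1 hv) (vv x x) (by rw [h_P, r_U]; exact h)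
      rw [h_P] at this
      exact this
    · intro h
      have := one (aP (Y.src f) (Y.act f s) (tV 0)) (aP (Y.tgt f) s (tU f (tV 0)))
        (fun B hB v hv => by
          rw [h_P] at hv
          rw [h_P, r_U]
          exact (hB.op _ _ _).2 hv) (vv x x) (by rw [h_P]; exact h)
      rw [h_P, r_U] at this
      exact this

theorem KY_eq (Y : Sys) : KY Y = Mod (QY Y) := by
  ext A
  exact ⟨fun hA φ hφ => hφ A hA, yAx_of_mem⟩

theorem isQV_KY (Y : Sys) : IsQV (KY Y) := ⟨QY Y, KY_eq Y⟩

/-! ### Elementary consequences of the axioms -/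

section

variable {A : Str (LY Y)} (hA : YAx A)

include hA

theorem YAx.cp_cp (i : Y.ι) (x : A.carrier) : cp A i (cp A i x) = cp A i x := hA.cp_d i _ x

theorem YAx.cp_cp' {i j : Y.ι} (h : i ≠ j) (x : A.carrier) : cp A i (cp A j x) = oo A :=
  (hA.cp_d' i j _ x h).trans (hA.cp_o i)

/-- elements with prescribed components -/
theorem YAx.exists_tuple (h : Y.ι → A.carrier) : ∃ z, ∀ i, cp A i z = cp A i (h i) := by
  classical
  have key : ∀ s : Finset Y.ι, ∃ z, ∀ i ∈ s, cp A i z = cp A i (h i) := by
    intro s
    induction s using Finset.induction_on with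
    | empty => exact ⟨oo A, fun i hi => absurd hi (Finset.notMem_empty i)⟩
    | insert a s ha ih =>
      obtain ⟨z, hz⟩ := ih
      refine ⟨dd A a z (h a), fun i hi => ?_⟩
      by_cases hia : i = a
      · subst hia
        exact hA.cp_d i z (h i)
      · rw [hA.cp_d' i a z (h a) hia]
        exact hz i ((Finset.mem_insert.1 hi).resolve_left hia)
  obtain ⟨z, hz⟩ := key Finset.univ
  exact ⟨z, fun i => hz i (Finset.mem_univ i)⟩

end

/-! ### Literals -/

namespace MT

/-- normal forms of the components of terms: `o`, or a word applied to a component of a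
variable -/
abbrev Nf (Y : Sys) : Type := Option (List Y.F × Y.ι × ℕ)

/-- the value of a normal form -/
def Nf.val (A : Str (LY Y)) (c : Y.ι → ℕ → A.carrier) : Nf Y → A.carrier
  | none => oo A
  | some (w, k, n) => uW A w (c k n)

theorem term_form (t : (LY Y).Term ℕ) : ∀ i : Y.ι, ∃ o : Nf Y, ∀ A : Str (LY Y), YAx A →
    ∀ v : ℕ → A.carrier, cp A i (t.realize v) = Nf.val A (fun k n => cp A k (v n)) o := by
  induction t with
  | var n => exact fun i => ⟨some ([], i, n), fun A _ v => rfl⟩
  | @func l f ts ih =>
    intro i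
    cases f with
    | o =>
      refine ⟨none, fun A hA v => ?_⟩
      have e : (FirstOrder.Language.Term.func (L := LY Y) (FunY.o : FunY Y 0) ts).realize v
          = oo A := by
        show FirstOrder.Language.Structure.funMap (L := LY Y) (FunY.o : FunY Y 0) _ = _
        unfold oo
        congr 1
        funext j
        exact j.elim0
      rw [e]
      exact hA.cp_o i
    | u f =>
      have e : ∀ (A : Str (LY Y)) (v : ℕ → A.carrier),
          (FirstOrder.Language.Term.func (L := LY Y) (FunY.u f : FunY Y 1) ts).realize v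
          = uu A f ((ts 0).realize v) := by
        intro A v
        show FirstOrder.Language.Structure.funMap (L := LY Y) (FunY.u f : FunY Y 1) _ = _
        unfold uu
        congr 1
        funext j
        fin_cases j
        rfl
      by_cases hi : i = Y.tgt f
      · obtain ⟨o, ho⟩ := ih 0 (Y.src f)
        cases o with
        | none =>
          refine ⟨none, fun A hA v => ?_⟩
          rw [e, hi, hA.cp_u, ← hA.u_cp, ho A hA v]
          exact hA.u_o f
        | some q =>
          obtain ⟨w, k, n⟩ := q
          refine ⟨some (f :: w, k, n), fun A hA v => ?_⟩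
          rw [e, hi, hA.cp_u, ← hA.u_cp, ho A hA v]
          rfl
      · refine ⟨none, fun A hA v => ?_⟩
        rw [e, ← hA.cp_u, hA.cp_cp' hi]
        rfl
    | d j =>
      have e : ∀ (A : Str (LY Y)) (v : ℕ → A.carrier),
          (FirstOrder.Language.Term.func (L := LY Y) (FunY.d j : FunY Y 2) ts).realize v
          = dd A j ((ts 0).realize v) ((ts 1).realize v) := by
        intro A v
        show FirstOrder.Language.Structure.funMap (L := LY Y) (FunY.d j : FunY Y 2) _ = _
        unfold dd
        congr 1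
        funext l
        fin_cases l
        · rfl
        · rfl
      by_cases hi : i = j
      · obtain ⟨o, ho⟩ := ih 1 i
        refine ⟨o, fun A hA v => ?_⟩
        rw [e, ← hi, hA.cp_d]
        exact ho A hA v
      · obtain ⟨o, ho⟩ := ih 0 i
        refine ⟨o, fun A hA v => ?_⟩
        rw [e, hA.cp_d' _ _ _ _ hi]
        exact ho A hA v

/-- literals -/
inductive Lit (Y : Sys) : Type
  | e (o o' : Nf Y) : Lit Y
  | p (i : Y.ι) (s : Y.S) (o : Nf Y) : Lit Y

/-- truth of literals; `c k n` is the component of sort `k` of the variable `n` -/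
def Lit.H (A : Str (LY Y)) (c : Y.ι → ℕ → A.carrier) : Lit Y → Prop
  | .e o o' => o.val A c = o'.val A c
  | .p i s o => pp A i s (o.val A c)

/-- an atomic formula is a finite conjunction of literals -/
theorem atom_form (a : Atom (LY Y)) : ∃ l : List (Lit Y), ∀ A : Str (LY Y), YAx A →
    ∀ v : ℕ → A.carrier, a.Holds A v ↔ ∀ x ∈ l, x.H A (fun k n => cp A k (v n)) := by
  cases a with
  | eq s t =>
    choose o ho using term_form s
    choose o' ho' using term_form t
    refine ⟨Finset.univ.toList.map (fun i => Lit.e (o i) (o' i)), fun A hA v => ?_⟩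
    rw [h_E]
    constructor
    · intro h x hx
      obtain ⟨i, -, rfl⟩ := List.mem_map.1 hx
      show (o i).val A _ = (o' i).val A _
      rw [← ho i A hA v, ← ho' i A hA v, h]
    · intro h
      refine hA.ext _ _ fun i => ?_
      rw [ho i A hA v, ho' i A hA v]
      exact h _ (List.mem_map.2 ⟨i, Finset.mem_toList.2 (Finset.mem_univ i), rfl⟩)
  | @rel l R ts =>
    cases R with
    | P i s =>
      obtain ⟨o, ho⟩ := term_form (ts 0) i
      refine ⟨[Lit.p i s o], fun A hA v => ?_⟩
      have e : (Atom.rel (L := LY Y) (RelY.P i s : RelY Y 1) ts).Holds A v ↔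
          pp A i s ((ts 0).realize v) := by
        show FirstOrder.Language.Structure.RelMap (L := LY Y) (RelY.P i s : RelY Y 1) _ ↔ _
        unfold pp
        have : (fun j => (ts j).realize v) = ![(ts 0).realize v] := by
          funext j
          fin_cases j
          rfl
        rw [this]
      rw [e, ← hA.pr_cp, ho A hA v]
      constructor
      · intro h x hx
        rw [List.mem_singleton] at hx
        subst hx
        exact h
      · intro h
        exact h _ (List.mem_singleton.2 rfl)

end MT

end C5E17
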